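import Mathlib
import Pool.Agent.Helper46.Rel.Tuple

/-!
# Classes of tuples
-/

namespace Pool.Agent.Helper60.Rel
open Finset

/-- The truncated distance. -/
noncomputable def kap {n : ℕ} (p : Fin n → ℂ) (i j : Fin n) : ℝ := max ‖p i - p j‖ (1 / (n : ℝ))

theorem kap_symm {n : ℕ} (p : Fin n → ℂ) (i j : Fin n) : kap p i j = kap p j i := by
  unfold kap; rw [norm_sub_rev]

theorem kap_ge {n : ℕ} (p : Fin n → ℂ) (i j : Fin n) : 1 / (n : ℝ) ≤ kap p i j := le_max_right _ _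

theorem kap_pos {n : ℕ} (hn : 1 ≤ n) (p : Fin n → ℂ) (i j : Fin n) : 0 < kap p i j :=
  lt_of_lt_of_le (by positivity) (kap_ge p i j)

theorem kap_le {n : ℕ} (hn : 1 ≤ n) {p : Fin n → ℂ} (hp : ∀ i, ‖p i‖ = 1) (i j : Fin n) :
    kap p i j ≤ 2 := by
  unfold kap
  have h0 : (1 : ℝ) ≤ n := by exact_mod_cast hn
  apply max_le
  · calc ‖p i - p j‖ ≤ ‖p i‖ + ‖p j‖ := norm_sub_le _ _
      _ = 2 := by rw [hp, hp]; norm_num
  · rw [div_le_iff₀ (by linarith)]; linarith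

/-- Dyadic size of the distance. -/
noncomputable def dl {n : ℕ} (p : Fin n → ℂ) (i j : Fin n) : ℕ := Nat.log 2 ⌊n * kap p i j⌋₊

theorem dl_lower {n : ℕ} (hn : 1 ≤ n) (p : Fin n → ℂ) (i j : Fin n) :
    (2 : ℝ) ^ dl p i j ≤ n * kap p i j := by
  have h0 : (0 : ℝ) < n := by positivity
  have h1 : (1 : ℝ) ≤ n * kap p i j := by
    have := kap_ge p i j
    rw [div_le_iff₀ h0] at this
    linarith
  have h2 : ⌊n * kap p i j⌋₊ ≠ 0 := by
    have : 1 ≤ ⌊n * kap p i j⌋₊ := Nat.le_floor (by simpa using h1)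
    omega
  have h3 : 2 ^ dl p i j ≤ ⌊n * kap p i j⌋₊ := Nat.pow_log_le_self 2 h2
  calc (2 : ℝ) ^ dl p i j = ((2 ^ dl p i j : ℕ) : ℝ) := by push_cast; ring
    _ ≤ (⌊n * kap p i j⌋₊ : ℝ) := by exact_mod_cast h3
    _ ≤ n * kap p i j := Nat.floor_le (by linarith)

theorem dl_upper {n : ℕ} (hn : 1 ≤ n) (p : Fin n → ℂ) (i j : Fin n) :
    n * kap p i j < (2 : ℝ) ^ (dl p i j + 1) := by
  have h3 : ⌊n * kap p i j⌋₊ < 2 ^ (dl p i j + 1) := Nat.lt_pow_succ_log_self (by norm_num) _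
  have h4 : ⌊n * kap p i j⌋₊ + 1 ≤ 2 ^ (dl p i j + 1) := h3
  calc n * kap p i j < ⌊n * kap p i j⌋₊ + 1 := Nat.lt_floor_add_one _
    _ ≤ (2 : ℝ) ^ (dl p i j + 1) := by exact_mod_cast h4

theorem dl_le {n : ℕ} (hn : 1 ≤ n) {p : Fin n → ℂ} (hp : ∀ i, ‖p i‖ = 1) (i j : Fin n) :
    dl p i j ≤ Nat.log 2 (2 * n) := by
  unfold dl
  apply Nat.log_mono_right
  have h1 := kap_le hn hp i j
  have h0 : (0 : ℝ) < n := by positivity
  have : (n : ℝ) * kap p i j ≤ ((2 * n : ℕ) : ℝ) := by push_cast; nlinarith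
  exact Nat.floor_le_of_le this

/-- Encoding in a finite type. -/
def enc (N x : ℕ) : Fin (N + 1) := ⟨min x N, by omega⟩

theorem enc_inj {N x y : ℕ} (hx : x ≤ N) (hy : y ≤ N) (h : enc N x = enc N y) : x = y := by
  have := congrArg Fin.val h
  simp only [enc] at this
  omega

/-- A nearest neighbour for a matrix. -/
noncomputable def nb {M : ℕ} (Δ : Fin M → Fin M → ℕ) (a : Fin M) : Fin M :=
  if h : (univ.erase a).Nonempty then (exists_min_image (univ.erase a) (Δ a) h).choose else a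

theorem nb_spec {M : ℕ} (hM : 2 ≤ M) (Δ : Fin M → Fin M → ℕ) (a : Fin M) :
    nb Δ a ≠ a ∧ ∀ b, b ≠ a → Δ a (nb Δ a) ≤ Δ a b := by
  have h : (univ.erase a).Nonempty := by
    rw [← card_pos, card_erase_of_mem (mem_univ a), card_univ, Fintype.card_fin]
    omega
  have h1 : nb Δ a = (exists_min_image (univ.erase a) (Δ a) h).choose := by
    unfold nb; rw [dif_pos h]
  have h2 := (exists_min_image (univ.erase a) (Δ a) h).choose_spec
  rw [← h1] at h2
  exact ⟨(mem_erase.1 h2.1).1, fun b hb => h2.2 b (mem_erase.2 ⟨hb, mem_univ _⟩)⟩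

/-- Grid position. -/
noncomputable def gr (x : ℝ) : ℕ := (⌊x⌋ + 40).toNat

theorem gr_le {x : ℝ} (hx : |x| ≤ 32) : gr x ≤ 99 := by
  unfold gr
  rw [abs_le] at hx
  have h2 : ⌊x⌋ ≤ 32 := by
    have : (⌊x⌋ : ℝ) ≤ 32 := le_trans (Int.floor_le x) hx.2
    exact_mod_cast this
  omega

theorem gr_inj {x y : ℝ} (hx : |x| ≤ 32) (hy : |y| ≤ 32) (h : gr x = gr y) : |x - y| ≤ 1 := by
  unfold gr at h
  rw [abs_le] at hx hy
  have hx2 : -33 ≤ ⌊x⌋ := by
    rw [Int.le_floor]; push_cast; linarith [hx.1]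
  have hy2 : -33 ≤ ⌊y⌋ := by
    rw [Int.le_floor]; push_cast; linarith [hy.1]
  have h2 : ⌊x⌋ = ⌊y⌋ := by omega
  have h3 := Int.floor_le x
  have h4 := Int.lt_floor_add_one x
  have h5 := Int.floor_le y
  have h6 := Int.lt_floor_add_one y
  rw [h2] at h3 h4
  rw [abs_le]
  constructor <;> linarith

/-- The class of a tuple. -/
noncomputable def cls {n M : ℕ} (p : Fin n → ℂ) (u : Fin n → ℝ) (B : ℝ) (N : ℕ)
    (J : Fin M → Fin n) : (Fin M → Fin (N + 1)) × (Fin M → Fin M → Fin (Nat.log 2 (2 * n) + 1)) ×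
      (Fin M → Fin 100 × Fin 100) :=
  (fun a => enc N ⌊u (J a) + B⌋₊, fun a b => enc (Nat.log 2 (2 * n)) (dl p (J a) (J b)),
    fun a => (enc 99 (gr ((p (J a) - p (J (nb (fun a b => dl p (J a) (J b)) a))).re
        * (16 * n / 2 ^ dl p (J a) (J (nb (fun a b => dl p (J a) (J b)) a))))),
      enc 99 (gr ((p (J a) - p (J (nb (fun a b => dl p (J a) (J b)) a))).im
        * (16 * n / 2 ^ dl p (J a) (J (nb (fun a b => dl p (J a) (J b)) a)))))))

theorem pos_bound {n : ℕ} (hn : 1 ≤ n) (p : Fin n → ℂ) (i j : Fin n) {x : ℝ}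
    (hx : |x| ≤ ‖p i - p j‖) : |x * (16 * n / 2 ^ dl p i j)| ≤ 32 := by
  have h0 : (0 : ℝ) < n := by positivity
  have h1 := dl_upper hn p i j
  have h2 : ‖p i - p j‖ ≤ kap p i j := le_max_left _ _
  have h3 : (0 : ℝ) < 2 ^ dl p i j := by positivity
  rw [abs_mul, abs_of_pos (by positivity : (0 : ℝ) < 16 * n / 2 ^ dl p i j), ← mul_div_assoc,
    div_le_iff₀ h3]
  rw [pow_succ] at h1
  have h4 : |x| * n ≤ kap p i j * n := by
    apply mul_le_mul_of_nonneg_right (le_trans hx h2) h0.le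
  nlinarith

theorem cls_spec {n M : ℕ} (hn : 1 ≤ n) (hM : 2 ≤ M) {p : Fin n → ℂ} (hp : ∀ i, ‖p i‖ = 1)
    {u : Fin n → ℝ} {B : ℝ} {N : ℕ} (hu : ∀ i, 0 ≤ u i + B) (hu2 : ∀ i, u i + B ≤ N)
    {J : Fin M → Fin n} {l : Fin M} {i : Fin n}
    (h : cls p u B N (Function.update J l i) = cls p u B N J) :
    ⌊u i + B⌋₊ = ⌊u (J l) + B⌋₊ ∧
    (∀ a, a ≠ l → kap p i (J a) ≤ 2 * kap p (J l) (J a)) ∧
    (∀ a, a ≠ l → ‖p i - p (J l)‖ ≤ kap p (J l) (J a) / 8) := by
  have h0 : (0 : ℝ) < n := by positivity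
  set J' := Function.update J l i with hJ'
  have hJl : J' l = i := by rw [hJ']; exact Function.update_self _ _ _
  have hJa : ∀ a, a ≠ l → J' a = J a := fun a ha => by
    rw [hJ']; exact Function.update_of_ne ha _ _
  have h1 := congrArg Prod.fst h
  have h2 := congrArg (fun x => x.2.1) h
  have h3 := congrArg (fun x => x.2.2) h
  have hfl : ∀ i, ⌊u i + B⌋₊ ≤ N := fun i => Nat.floor_le_of_le (hu2 i)
  have hΔ : (fun a b => dl p (J' a) (J' b)) = fun a b => dl p (J a) (J b) := by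
    funext a b
    have := congrFun (congrFun h2 a) b
    exact enc_inj (dl_le hn hp _ _) (dl_le hn hp _ _) this
  have hΔ' : ∀ a b, dl p (J' a) (J' b) = dl p (J a) (J b) := fun a b =>
    congrFun (congrFun hΔ a) b
  refine ⟨?_, ?_, ?_⟩
  · have := congrFun h1 l
    have h4 := enc_inj (hfl _) (hfl _) this
    rw [hJl] at h4
    exact h4
  · intro a ha
    have h4 := hΔ' l a
    rw [hJl, hJa a ha] at h4
    have h5 := dl_upper hn p i (J a)
    have h6 := dl_lower hn p (J l) (J a)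
    rw [h4, pow_succ] at h5
    have h7 : n * kap p i (J a) ≤ n * (2 * kap p (J l) (J a)) := by linarith
    exact le_of_mul_le_mul_left h7 h0
  · intro a ha
    set b := nb (fun a b => dl p (J a) (J b)) l with hb
    obtain ⟨hbl, hbmin⟩ := nb_spec hM (fun a b => dl p (J a) (J b)) l
    rw [← hb] at hbl hbmin
    have h4 := congrFun h3 l
    simp only [cls] at h4
    rw [Prod.mk.injEq] at h4
    obtain ⟨hre, him⟩ := h4
    rw [hΔ, ← hb, hJl, hJa b hbl] at hre him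
    have hd : dl p i (J b) = dl p (J l) (J b) := by
      have := hΔ' l b
      rwa [hJl, hJa b hbl] at this
    have b1 : |(p i - p (J b)).re * (16 * n / 2 ^ dl p i (J b))| ≤ 32 :=
      pos_bound hn p i (J b) (Complex.abs_re_le_norm _)
    have b2 : |(p i - p (J b)).im * (16 * n / 2 ^ dl p i (J b))| ≤ 32 :=
      pos_bound hn p i (J b) (Complex.abs_im_le_norm _)
    have b3 : |(p (J l) - p (J b)).re * (16 * n / 2 ^ dl p (J l) (J b))| ≤ 32 :=
      pos_bound hn p (J l) (J b) (Complex.abs_re_le_norm _)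
    have b4 : |(p (J l) - p (J b)).im * (16 * n / 2 ^ dl p (J l) (J b))| ≤ 32 :=
      pos_bound hn p (J l) (J b) (Complex.abs_im_le_norm _)
    have c1 := gr_inj b1 b3 (enc_inj (gr_le b1) (gr_le b3) hre)
    have c2 := gr_inj b2 b4 (enc_inj (gr_le b2) (gr_le b4) him)
    rw [hd, ← sub_mul] at c1 c2
    have e1 : (p i - p (J b)).re - (p (J l) - p (J b)).re = (p i - p (J l)).re := by
      simp only [Complex.sub_re]; ring
    have e2 : (p i - p (J b)).im - (p (J l) - p (J b)).im = (p i - p (J l)).im := by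
      simp only [Complex.sub_im]; ring
    rw [e1] at c1
    rw [e2] at c2
    have hpos : (0 : ℝ) < 16 * n / 2 ^ dl p (J l) (J b) := by positivity
    rw [abs_mul, abs_of_pos hpos] at c1 c2
    have hmin : dl p (J l) (J b) ≤ dl p (J l) (J a) := hbmin a ha
    have h5 : (2 : ℝ) ^ dl p (J l) (J b) ≤ n * kap p (J l) (J a) :=
      le_trans (pow_le_pow_right₀ (by norm_num) hmin) (dl_lower hn p (J l) (J a))
    have h6 : ∀ x : ℝ, |x| * (16 * n / 2 ^ dl p (J l) (J b)) ≤ 1 →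
        |x| ≤ kap p (J l) (J a) / 16 := by
      intro x hx
      rw [← mul_div_assoc, div_le_iff₀ (by positivity)] at hx
      have h7 : |x| * (16 * n) ≤ n * kap p (J l) (J a) := by linarith
      have h8 : n * (|x| * 16) ≤ n * kap p (J l) (J a) := by linarith
      have h9 := le_of_mul_le_mul_left h8 h0
      linarith
    calc ‖p i - p (J l)‖ ≤ |(p i - p (J l)).re| + |(p i - p (J l)).im| :=
          Complex.norm_le_abs_re_add_abs_im _
      _ ≤ kap p (J l) (J a) / 16 + kap p (J l) (J a) / 16 := add_le_add (h6 _ c1) (h6 _ c2)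
      _ = kap p (J l) (J a) / 8 := by ring

/-- Selection of a good tuple. -/
theorem selection {n m : ℕ} (hn : 1 ≤ n) (hm : 1 ≤ m) {p : Fin n → ℂ} (hp : ∀ i, ‖p i‖ = 1)
    {u : Fin n → ℝ} {B : ℝ} {N : ℕ} (hu : ∀ i, 0 ≤ u i + B) (hu2 : ∀ i, u i + B ≤ N)
    {w : Fin n → ℝ} (hw : ∀ i, 0 ≤ w i) {E : ℝ} (hE : 0 < E)
    (hS : ∀ J : Fin m → Fin n, E ≤ ∑ i, w i * ∏ a, kap p i (J a)) :
    ∃ (J : Fin (m + 1) → Fin n) (F : Fin (m + 1) → Finset (Fin n)),
      (∀ l, E ≤ 2 * (m + 1) * ((N + 1 : ℝ) ^ (m + 1)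
          * ((Nat.log 2 (2 * n) + 1 : ℝ) ^ (m + 1)) ^ (m + 1) * 10000 ^ (m + 1)) *
        ∑ i ∈ F l, w i * ∏ a ∈ univ.erase l, kap p i (J a)) ∧
      (∀ l, ∀ i ∈ F l, ⌊u i + B⌋₊ = ⌊u (J l) + B⌋₊) ∧
      (∀ l, ∀ i ∈ F l, ∀ a, a ≠ l → kap p i (J a) ≤ 2 * kap p (J l) (J a)) ∧
      (∀ l, ∀ i ∈ F l, ∀ a, a ≠ l → ‖p i - p (J l)‖ ≤ kap p (J l) (J a) / 8) := by
  classical
  haveI : Nonempty (Fin n) := ⟨⟨0, by omega⟩⟩
  obtain ⟨J, hJ⟩ := Pool.Agent.Helper46.Rel.tuple_lemma (kap p) (fun i j => kap_pos hn p i j)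
    (kap_symm p) w hw E hE hS (cls p u B N)
  refine ⟨J, fun l => univ.filter (fun i => cls p u B N (Function.update J l i) = cls p u B N J),
    ?_, ?_, ?_, ?_⟩
  · intro l
    have h1 := hJ l
    have hcard : (Fintype.card ((Fin (m + 1) → Fin (N + 1)) ×
        (Fin (m + 1) → Fin (m + 1) → Fin (Nat.log 2 (2 * n) + 1)) ×
        (Fin (m + 1) → Fin 100 × Fin 100)) : ℝ)
        = (N + 1 : ℝ) ^ (m + 1) * ((Nat.log 2 (2 * n) + 1 : ℝ) ^ (m + 1)) ^ (m + 1)
          * 10000 ^ (m + 1) := by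
      rw [Fintype.card_prod, Fintype.card_prod, Fintype.card_pi, Fintype.card_pi,
        Fintype.card_pi]
      simp only [Fintype.card_fin, Fintype.card_prod, Finset.prod_const, Finset.card_univ,
        Fintype.card_pi]
      push_cast
      norm_num
      ring
    rw [hcard] at h1
    exact h1
  · intro l i hi
    exact (cls_spec hn (by omega) hp hu hu2 (mem_filter.1 hi).2).1
  · intro l i hi
    exact (cls_spec hn (by omega) hp hu hu2 (mem_filter.1 hi).2).2.1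
  · intro l i hi
    exact (cls_spec hn (by omega) hp hu hu2 (mem_filter.1 hi).2).2.2

end Pool.Agent.Helper60.Rel
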