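import Mathlib
import Pool.Agent.Helper60.Rel.Classes

/-!
# Dichotomy for the mass of a class
-/

namespace Pool.Agent.Helper60.Rel
open Finset

theorem mass {n : ℕ} (hn : 1 ≤ n) {p : Fin n → ℂ} (hp : ∀ i, ‖p i‖ = 1) {ω : Fin n → ℝ}
    (hω : ∀ i, 0 ≤ ω i) (F : Finset (Fin n)) {Cω δ : ℝ}
    (hb : ∀ (A : Finset (Fin n)) (j : Fin n) (ρ : ℝ), A ⊆ F → 1 / (n : ℝ) ≤ ρ →
      (∀ i ∈ A, ‖p i - p j‖ ≤ ρ) → ∑ i ∈ A, ω i ≤ Cω * (n * ρ) ^ δ)
    (hΩ : 0 < ∑ i ∈ F, ω i) :
    ∃ X : ℝ, 0 ≤ X ∧ X ≤ Real.log (2 * n) ∧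
      ∑ i ∈ F, ω i ≤ (1 + Real.log n) * (Cω * (2 * n * Real.exp (-X)) ^ δ) ∧
      ∑ i ∈ F, ∑ j ∈ F, ω i * ω j * (-Real.log (kap p i j))
        ≤ (X + 1) * (∑ i ∈ F, ω i) ^ 2 := by
  classical
  have h0 : (0 : ℝ) < n := by positivity
  have hn1 : (1 : ℝ) ≤ n := by exact_mod_cast hn
  set Ω := ∑ i ∈ F, ω i with hΩd
  set T : ℝ := 1 + Real.log n with hT
  have hlog0 : 0 ≤ Real.log n := Real.log_nonneg hn1
  have hT1 : 1 ≤ T := by rw [hT]; linarith
  have hT0 : 0 < T := by linarith
  set H := Nat.log 2 (2 * n) with hH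
  set P : ℕ → Prop := fun h => ∃ j : Fin n,
    Ω / T ≤ ∑ i ∈ F.filter (fun i => ‖p i - p j‖ ≤ 2 / 2 ^ h), ω i with hP
  have hFne : F.Nonempty := by
    by_contra hc
    rw [not_nonempty_iff_eq_empty] at hc
    rw [hc] at hΩd
    simp only [sum_empty] at hΩd
    linarith
  have hP0 : P 0 := by
    obtain ⟨j, _⟩ := hFne
    refine ⟨j, ?_⟩
    have : F.filter (fun i => ‖p i - p j‖ ≤ 2 / 2 ^ 0) = F := by
      apply filter_true_of_mem
      intro i _
      rw [pow_zero, div_one]
      calc ‖p i - p j‖ ≤ ‖p i‖ + ‖p j‖ := norm_sub_le _ _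
        _ = 2 := by rw [hp, hp]; norm_num
    rw [this, ← hΩd]
    exact div_le_self hΩ.le hT1
  set h := Nat.findGreatest P H with hh
  have hhH : h ≤ H := Nat.findGreatest_le H
  have hPh : P h := Nat.findGreatest_spec (Nat.zero_le H) hP0
  have hPn : ∀ k, h < k → k ≤ H → ¬ P k := fun k hk1 hk2 => Nat.findGreatest_is_greatest hk1 hk2
  have hpowH : (2 : ℝ) ^ H ≤ 2 * n := by
    have : 2 ^ H ≤ 2 * n := Nat.pow_log_le_self 2 (by omega)
    exact_mod_cast this
  have hpowH2 : 2 * (n : ℝ) < 2 ^ (H + 1) := by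
    have : 2 * n < 2 ^ (H + 1) := Nat.lt_pow_succ_log_self (by norm_num) _
    exact_mod_cast this
  have hlog2 : 0 < Real.log 2 := Real.log_pos (by norm_num)
  have hpowh : (2 : ℝ) ^ h ≤ 2 * n := le_trans (pow_le_pow_right₀ (by norm_num) hhH) hpowH
  have hX0 : 0 ≤ h * Real.log 2 := by positivity
  have hkl : ∀ i j, -Real.log (kap p i j) ≤ Real.log n := by
    intro i j
    have h1 : Real.log (1 / n) ≤ Real.log (kap p i j) :=
      Real.log_le_log (by positivity) (kap_ge p i j)
    rw [one_div, Real.log_inv] at h1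
    linarith
  refine ⟨h * Real.log 2, hX0, ?_, ?_, ?_⟩
  · rw [← Real.log_pow]
    exact Real.log_le_log (by positivity) hpowh
  · obtain ⟨j, hj⟩ := hPh
    have h1 := hb (F.filter (fun i => ‖p i - p j‖ ≤ 2 / 2 ^ h)) j (2 / 2 ^ h) (filter_subset _ _)
      (by
        rw [div_le_div_iff₀ h0 (by positivity)]
        linarith)
      (fun i hi => (mem_filter.1 hi).2)
    have h2 : Ω / T ≤ Cω * (n * (2 / 2 ^ h)) ^ δ := le_trans hj h1
    rw [div_le_iff₀ hT0] at h2
    have h3 : 2 * (n : ℝ) * Real.exp (-(h * Real.log 2)) = n * (2 / 2 ^ h) := by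
      rw [Real.exp_neg, ← Real.log_pow, Real.exp_log (by positivity)]
      ring
    rw [h3]
    linarith
  · have key : ∀ i ∈ F, ∑ j ∈ F, ω j * (-Real.log (kap p i j)) ≤ (h * Real.log 2 + 1) * Ω := by
      intro i hi
      rcases Nat.lt_or_ge h H with hlt | hge
      · have hnot := hPn (h + 1) (Nat.lt_succ_self h) hlt
        have h1 : ∑ j ∈ F.filter (fun j => ‖p j - p i‖ ≤ 2 / 2 ^ (h + 1)), ω j < Ω / T := by
          by_contra hc
          push Not at hc
          exact hnot ⟨i, hc⟩
        have h2 : ∀ j ∈ F, ω j * (-Real.log (kap p i j)) ≤ ω j * (h * Real.log 2)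
            + (if ‖p j - p i‖ ≤ 2 / 2 ^ (h + 1) then ω j else 0) * Real.log n := by
          intro j _
          split_ifs with hc
          · have := hkl i j
            have := mul_le_mul_of_nonneg_left this (hω j)
            have := mul_nonneg (hω j) hX0
            linarith
          · push Not at hc
            have h3 : (2 : ℝ) / 2 ^ (h + 1) ≤ kap p i j := by
              refine le_trans hc.le ?_
              rw [norm_sub_rev]
              exact le_max_left _ _
            have h4 : Real.log (2 / 2 ^ (h + 1)) ≤ Real.log (kap p i j) :=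
              Real.log_le_log (by positivity) h3
            have h5 : (2 : ℝ) / 2 ^ (h + 1) = (2 ^ h)⁻¹ := by
              rw [pow_succ]; field_simp
            rw [h5, Real.log_inv, Real.log_pow] at h4
            rw [zero_mul, add_zero]
            apply mul_le_mul_of_nonneg_left _ (hω j)
            linarith
        calc ∑ j ∈ F, ω j * (-Real.log (kap p i j))
            ≤ ∑ j ∈ F, (ω j * (h * Real.log 2)
            + (if ‖p j - p i‖ ≤ 2 / 2 ^ (h + 1) then ω j else 0) * Real.log n) := sum_le_sum h2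
          _ = Ω * (h * Real.log 2)
            + (∑ j ∈ F.filter (fun j => ‖p j - p i‖ ≤ 2 / 2 ^ (h + 1)), ω j) * Real.log n := by
              rw [sum_add_distrib, ← sum_mul, ← sum_mul, ← sum_filter]
          _ ≤ Ω * (h * Real.log 2) + Ω / T * Real.log n := by gcongr
          _ ≤ Ω * (h * Real.log 2) + Ω := by
              gcongr
              rw [div_mul_eq_mul_div, div_le_iff₀ hT0]
              apply mul_le_mul_of_nonneg_left _ hΩ.le
              rw [hT]; linarith
          _ = _ := by ring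
      · have hhe : h = H := le_antisymm hhH hge
        have h1 : Real.log n ≤ h * Real.log 2 := by
          rw [← Real.log_pow]
          apply Real.log_le_log h0
          rw [hhe]
          rw [pow_succ] at hpowH2
          linarith
        calc ∑ j ∈ F, ω j * (-Real.log (kap p i j))
            ≤ ∑ j ∈ F, ω j * (h * Real.log 2) := by
              apply sum_le_sum
              intro j _
              exact mul_le_mul_of_nonneg_left (le_trans (hkl i j) h1) (hω j)
          _ = Ω * (h * Real.log 2) := by rw [← sum_mul]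
          _ ≤ _ := by nlinarith
    calc ∑ i ∈ F, ∑ j ∈ F, ω i * ω j * (-Real.log (kap p i j))
        = ∑ i ∈ F, ω i * ∑ j ∈ F, ω j * (-Real.log (kap p i j)) := by
          apply sum_congr rfl
          intro i _
          rw [mul_sum]
          apply sum_congr rfl
          intro j _
          ring
      _ ≤ ∑ i ∈ F, ω i * ((h * Real.log 2 + 1) * Ω) := by
          apply sum_le_sum
          intro i hi
          exact mul_le_mul_of_nonneg_left (key i hi) (hω i)
      _ = (h * Real.log 2 + 1) * Ω ^ 2 := by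
          rw [← sum_mul, ← hΩd]; ring

/-- Cross distances. -/
theorem cross {n : ℕ} {p : Fin n → ℂ} {i i' j j' : Fin n}
    (h1 : ‖p i - p j‖ ≤ kap p j j' / 8) (h2 : ‖p i' - p j'‖ ≤ kap p j' j / 8) :
    kap p j j' / 2 ≤ kap p i i' := by
  rw [kap_symm p j' j] at h2
  rcases le_total ‖p j - p j'‖ (1 / (n : ℝ)) with hle | hle
  · have h3 : kap p j j' = 1 / (n : ℝ) := max_eq_right hle
    have h4 := kap_ge p i i'
    have h5 : 0 ≤ 1 / (n : ℝ) := by positivity
    rw [h3]
    linarith
  · have h3 : kap p j j' = ‖p j - p j'‖ := max_eq_left hle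
    have h4 : ‖p j - p j'‖ ≤ ‖p i - p j‖ + ‖p i - p i'‖ + ‖p i' - p j'‖ := by
      have : p j - p j' = -(p i - p j) + (p i - p i') + (p i' - p j') := by ring
      rw [this]
      refine le_trans (norm_add_le _ _) ?_
      refine add_le_add (le_trans (norm_add_le _ _) ?_) le_rfl
      rw [norm_neg]
    have h5 : ‖p i - p i'‖ ≤ kap p i i' := le_max_left _ _
    have h6 : 0 ≤ kap p j j' := by rw [h3]; exact norm_nonneg _
    rw [← h3] at h4
    linarith

end Pool.Agent.Helper60.Rel
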