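import Mathlib

/-!
# The weighted inequality
-/

namespace Pool.Agent.Helper60.Rel
open Finset

/-- Partial sums of the weights. -/
noncomputable def Gs (r : ℝ) : ℕ → ℝ
  | 0 => 0
  | 1 => 1
  | 2 => 2
  | (j + 3) => r * Gs r (j + 2)

theorem Gs_succ (r : ℝ) {j : ℕ} (hj : 2 ≤ j) : Gs r (j + 1) = r * Gs r j := by
  obtain ⟨k, rfl⟩ : ∃ k, j = k + 2 := ⟨j - 2, by omega⟩
  rfl

theorem Gs_eq (r : ℝ) (k : ℕ) : Gs r (k + 2) = 2 * r ^ k := by
  induction k with
  | zero => simp [Gs]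
  | succ k ih => rw [show k + 1 + 2 = (k + 2) + 1 by ring, Gs_succ r (by omega), ih]; ring

theorem Gs_mono {r : ℝ} (hr : 1 ≤ r) (j : ℕ) : Gs r j ≤ Gs r (j + 1) ∧ 0 ≤ Gs r j := by
  match j with
  | 0 => simp [Gs]
  | 1 => constructor <;> norm_num [Gs]
  | (k + 2) =>
    rw [Gs_succ r (j := k + 2) (by omega), Gs_eq]
    have : 0 < r ^ k := by positivity
    constructor
    · nlinarith
    · positivity

/-- The weights. -/
noncomputable def gw (r : ℝ) (j : ℕ) : ℝ := Gs r (j + 1) - Gs r j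

theorem gw_nonneg {r : ℝ} (hr : 1 ≤ r) (j : ℕ) : 0 ≤ gw r j := by
  have := (Gs_mono hr j).1
  unfold gw; linarith

theorem sum_gw (r : ℝ) (M : ℕ) : ∑ j ∈ range M, gw r j = Gs r M := by
  induction M with
  | zero => simp [Gs]
  | succ M ih => rw [sum_range_succ, ih]; unfold gw; ring

/-- Abel summation of the minimum. -/
theorem sum_min (r : ℝ) (M : ℕ) (U : ℕ → ℝ) (hU : ∀ i j, i ≤ j → j < M → U j ≤ U i) :
    ∑ j ∈ range M, ∑ k ∈ range M, gw r j * gw r k * min (U j) (U k)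
      = ∑ j ∈ range M, (Gs r (j + 1) ^ 2 - Gs r j ^ 2) * U j := by
  induction M with
  | zero => simp
  | succ M ih =>
    have hU' : ∀ i j, i ≤ j → j < M → U j ≤ U i := fun i j hij hj => hU i j hij (by omega)
    rw [sum_range_succ, sum_range_succ (fun j => (Gs r (j + 1) ^ 2 - Gs r j ^ 2) * U j),
      ← ih hU']
    have h1 : ∑ j ∈ range M, ∑ k ∈ range (M + 1), gw r j * gw r k * min (U j) (U k)
        = ∑ j ∈ range M, ∑ k ∈ range M, gw r j * gw r k * min (U j) (U k)
          + ∑ j ∈ range M, gw r j * (gw r M * U M) := by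
      rw [← sum_add_distrib]
      apply sum_congr rfl
      intro j hj
      rw [sum_range_succ, min_eq_right (hU j M (mem_range.1 hj).le (by omega))]
      ring
    have h2 : ∑ k ∈ range (M + 1), gw r M * gw r k * min (U M) (U k)
        = ∑ k ∈ range M, gw r k * (gw r M * U M) + gw r M ^ 2 * U M := by
      rw [sum_range_succ, min_self]
      congr 1
      · apply sum_congr rfl
        intro k hk
        rw [min_eq_left (hU k M (mem_range.1 hk).le (by omega))]
        ring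
      · ring
    rw [h1, h2, ← sum_mul, sum_gw]
    unfold gw
    ring

theorem weights_core {M : ℕ} (hM : 2 ≤ M) {δ : ℝ} (hδ0 : 0 ≤ δ) (hδ1 : δ ≤ 2 / 3)
    (U X : ℕ → ℝ) (D : ℕ → ℕ → ℝ) (hUa : ∀ i j, i ≤ j → j < M → U j ≤ U i)
    (hDs : ∀ i j, D i j = D j i) (hD : ∀ i j, -1 ≤ D i j)
    {Λ e C₀ : ℝ} (hΛ : 0 ≤ Λ) (hX : ∀ l < M, 0 ≤ X l ∧ X l ≤ Λ)
    (hU : ∀ l < M, e + δ * X l + ∑ a ∈ (range M).erase l, D l a ≤ U l)
    (hE : ∑ j ∈ range M, ∑ k ∈ range M, gw ((2 + δ) / (2 - δ)) j * gw ((2 + δ) / (2 - δ)) k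
        * min (U j) (U k)
      ≤ 2 * ∑ j ∈ range M, gw ((2 + δ) / (2 - δ)) j ^ 2 * X j
        + 2 * ∑ j ∈ range M, ∑ a ∈ (range M).erase j,
          gw ((2 + δ) / (2 - δ)) j * gw ((2 + δ) / (2 - δ)) a * D j a
        + C₀ * (∑ j ∈ range M, gw ((2 + δ) / (2 - δ)) j) ^ 2) :
    e ≤ (1 - δ) * (((2 - δ) / (2 + δ)) ^ 2) ^ (M - 2) * Λ + (M + C₀) := by
  set r : ℝ := (2 + δ) / (2 - δ) with hr
  have h2δ : 0 < 2 - δ := by linarith
  have hr1 : 1 ≤ r := by rw [hr, le_div_iff₀ h2δ]; linarith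
  set w : ℕ → ℝ := fun j => Gs r (j + 1) ^ 2 - Gs r j ^ 2 with hw
  have hwe : ∀ j, w j = gw r j * (2 * Gs r j + gw r j) := by
    intro j; rw [hw]; unfold gw; ring
  have hg0 : ∀ j, 0 ≤ gw r j := gw_nonneg hr1
  have hG0 : ∀ j, 0 ≤ Gs r j := fun j => (Gs_mono hr1 j).2
  have hw0 : ∀ j, 0 ≤ w j := by
    intro j
    rw [hwe]
    exact mul_nonneg (hg0 j) (by linarith [hg0 j, hG0 j])
  have hwsum : ∑ j ∈ range M, w j = Gs r M ^ 2 := by
    rw [hw]
    rw [sum_range_sub (fun j => Gs r j ^ 2)]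
    simp [Gs]
  rw [sum_min r M U hUa, sum_gw] at hE
  -- lower bound of the left side
  have h1 : ∑ j ∈ range M, w j * (e + δ * X j + ∑ a ∈ (range M).erase j, D j a)
      ≤ ∑ j ∈ range M, w j * U j :=
    sum_le_sum (fun j hj => mul_le_mul_of_nonneg_left (hU j (mem_range.1 hj)) (hw0 j))
  have h2 := le_trans h1 hE
  have h3 : ∑ j ∈ range M, w j * (e + δ * X j + ∑ a ∈ (range M).erase j, D j a)
      = e * Gs r M ^ 2 + δ * ∑ j ∈ range M, w j * X j
        + ∑ j ∈ range M, ∑ a ∈ (range M).erase j, w j * D j a := by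
    have : ∀ j, w j * (e + δ * X j + ∑ a ∈ (range M).erase j, D j a)
        = e * w j + δ * (w j * X j) + ∑ a ∈ (range M).erase j, w j * D j a := by
      intro j; rw [mul_add, mul_add, mul_sum]; ring
    rw [sum_congr rfl (fun j _ => this j), sum_add_distrib, sum_add_distrib, ← mul_sum,
      ← mul_sum, hwsum]
  rw [h3] at h2
  -- the D terms
  have hDterm : ∑ j ∈ range M, ∑ a ∈ (range M).erase j, 2 * (gw r j * gw r a * D j a)
      - ∑ j ∈ range M, ∑ a ∈ (range M).erase j, w j * D j a ≤ M * Gs r M ^ 2 := by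
    have hsw : ∀ F : ℕ → ℕ → ℝ, ∑ j ∈ range M, ∑ a ∈ (range M).erase j, F j a
        = ∑ j ∈ range M, ∑ a ∈ (range M).erase j, F a j := by
      intro F
      apply sum_comm'
      intro x y
      simp only [mem_erase, mem_range]
      constructor
      · rintro ⟨h1, h2, h3⟩; exact ⟨⟨Ne.symm h2, h1⟩, h3⟩
      · rintro ⟨⟨h1, h2⟩, h3⟩; exact ⟨h2, Ne.symm h1, h3⟩
    rw [← sum_sub_distrib]
    have e1 : ∀ j, ∑ a ∈ (range M).erase j, 2 * (gw r j * gw r a * D j a)
        - ∑ a ∈ (range M).erase j, w j * D j a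
        = ∑ a ∈ (range M).erase j, (2 * (gw r j * gw r a) - w j) * D j a := by
      intro j
      rw [← sum_sub_distrib]
      apply sum_congr rfl
      intro a _; ring
    rw [sum_congr rfl (fun j _ => e1 j)]
    have e2 := hsw (fun j a => (2 * (gw r j * gw r a) - w j) * D j a)
    have e3 : ∑ j ∈ range M, ∑ a ∈ (range M).erase j, (2 * (gw r j * gw r a) - w j) * D j a
        = (1 / 2) * ∑ j ∈ range M, ∑ a ∈ (range M).erase j,
          (4 * (gw r j * gw r a) - w j - w a) * D j a := by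
      have e4 : ∑ j ∈ range M, ∑ a ∈ (range M).erase j,
          (4 * (gw r j * gw r a) - w j - w a) * D j a
          = ∑ j ∈ range M, ∑ a ∈ (range M).erase j, (2 * (gw r j * gw r a) - w j) * D j a
          + ∑ j ∈ range M, ∑ a ∈ (range M).erase j, (2 * (gw r a * gw r j) - w a) * D a j := by
        rw [← sum_add_distrib]
        apply sum_congr rfl
        intro j _
        rw [← sum_add_distrib]
        apply sum_congr rfl
        intro a _
        rw [hDs a j]; ring
      rw [e4, ← e2]; ring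
    rw [e3]
    have e5 : ∀ j a, j < a → 4 * (gw r j * gw r a) - w j - w a ≤ 0 := by
      intro j a hja
      rw [hwe j, hwe a]
      have a1 : gw r j ≤ Gs r a := by
        have b1 : Gs r (j + 1) ≤ Gs r a := by
          exact monotone_nat_of_le_succ (fun k => (Gs_mono hr1 k).1) hja
        have b2 := hG0 j
        have b3 : gw r j = Gs r (j + 1) - Gs r j := rfl
        linarith
      have b4 := hg0 j
      have b5 := hg0 a
      have b6 := hG0 j
      nlinarith [sq_nonneg (gw r j - gw r a), mul_nonneg b5 (sub_nonneg.2 a1), mul_nonneg b4 b6]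
    have e6 : ∀ j a, a ≠ j → (4 * (gw r j * gw r a) - w j - w a) * D j a ≤ w j + w a := by
      intro j a hja
      have hneg : 4 * (gw r j * gw r a) - w j - w a ≤ 0 := by
        rcases lt_or_gt_of_ne hja with h | h
        · have := e5 a j h
          linarith
        · exact e5 j a h
      have h5 := hD j a
      have h6 : 0 ≤ gw r j * gw r a := mul_nonneg (hg0 j) (hg0 a)
      nlinarith
    calc (1 / 2) * ∑ j ∈ range M, ∑ a ∈ (range M).erase j,
          (4 * (gw r j * gw r a) - w j - w a) * D j a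
        ≤ (1 / 2) * ∑ j ∈ range M, ∑ a ∈ range M, (w j + w a) := by
          apply mul_le_mul_of_nonneg_left _ (by norm_num)
          apply sum_le_sum
          intro j _
          refine le_trans (sum_le_sum (fun a ha => e6 j a (mem_erase.1 ha).1)) ?_
          apply sum_le_sum_of_subset_of_nonneg (erase_subset _ _)
          intro a _ _
          linarith [hw0 j, hw0 a]
      _ = M * Gs r M ^ 2 := by
          have : ∀ j, ∑ a ∈ range M, (w j + w a) = M * w j + Gs r M ^ 2 := by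
            intro j
            rw [sum_add_distrib, hwsum, sum_const, card_range, nsmul_eq_mul]
          rw [sum_congr rfl (fun j _ => this j), sum_add_distrib, ← mul_sum, hwsum, sum_const,
            card_range, nsmul_eq_mul]
          ring
  -- the X terms
  have hXterm : ∑ j ∈ range M, (2 * gw r j ^ 2 - δ * w j) * X j ≤ 4 * (1 - δ) * Λ := by
    have e1 : ∀ j, 2 ≤ j → 2 * gw r j ^ 2 - δ * w j = 0 := by
      intro j hj
      have a1 : gw r j = (r - 1) * Gs r j := by
        unfold gw; rw [Gs_succ r hj]; ring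
      rw [hwe, a1]
      have a2 : r - 1 = 2 * δ / (2 - δ) := by rw [hr]; field_simp; ring
      rw [a2]
      field_simp
      ring
    obtain ⟨k, rfl⟩ : ∃ k, M = k + 2 := ⟨M - 2, by omega⟩
    rw [sum_range_succ', sum_range_succ']
    have e2 : ∑ j ∈ range k, (2 * gw r (j + 1 + 1) ^ 2 - δ * w (j + 1 + 1)) * X (j + 1 + 1) = 0 :=
      sum_eq_zero (fun j _ => by rw [e1 _ (by omega), zero_mul])
    have e3 : gw r 0 = 1 := by unfold gw; norm_num [Gs]
    have e4 : gw r (0 + 1) = 1 := by unfold gw; norm_num [Gs]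
    have e5 : w 0 = 1 := by rw [hwe, e3]; norm_num [Gs]
    have e6 : w (0 + 1) = 3 := by rw [hwe, e4]; norm_num [Gs]
    rw [e2, e3, e4, e5, e6]
    have x0 := hX 0 (by omega)
    have x1 := hX (0 + 1) (by omega)
    nlinarith [x0.1, x0.2, x1.1, x1.2]
  have hG2 : 0 < Gs r M := by
    obtain ⟨k, rfl⟩ : ∃ k, M = k + 2 := ⟨M - 2, by omega⟩
    rw [Gs_eq]; positivity
  have h5 : e * Gs r M ^ 2 ≤ 4 * (1 - δ) * Λ + (M + C₀) * Gs r M ^ 2 := by
    have e1 : ∑ j ∈ range M, (2 * gw r j ^ 2 - δ * w j) * X j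
        = 2 * ∑ j ∈ range M, gw r j ^ 2 * X j - δ * ∑ j ∈ range M, w j * X j := by
      rw [mul_sum, mul_sum, ← sum_sub_distrib]
      apply sum_congr rfl
      intro j _; ring
    rw [e1] at hXterm
    have e2 : ∑ j ∈ range M, ∑ a ∈ (range M).erase j, 2 * (gw r j * gw r a * D j a)
        = 2 * ∑ j ∈ range M, ∑ a ∈ (range M).erase j, gw r j * gw r a * D j a := by
      rw [mul_sum]
      apply sum_congr rfl
      intro j _
      rw [mul_sum]
    rw [e2] at hDterm
    linarith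
  have h6 : 4 / Gs r M ^ 2 = (((2 - δ) / (2 + δ)) ^ 2) ^ (M - 2) := by
    obtain ⟨k, rfl⟩ : ∃ k, M = k + 2 := ⟨M - 2, by omega⟩
    rw [Gs_eq, Nat.add_sub_cancel]
    have h2δ' : 0 < 2 + δ := by linarith
    have e1 : r ≠ 0 := by rw [hr]; positivity
    have e2 : ((2 - δ) / (2 + δ)) = r⁻¹ := by rw [hr, inv_div]
    rw [e2, mul_pow, ← pow_mul, inv_pow, inv_pow, ← pow_mul, mul_comm 2 k]
    field_simp
    norm_num
  have hG2' : 0 < Gs r M ^ 2 := by positivity
  rw [← h6]
  have h7 : e ≤ (4 * (1 - δ) * Λ + (M + C₀) * Gs r M ^ 2) / Gs r M ^ 2 := by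
    rw [le_div_iff₀ hG2']; exact h5
  calc e ≤ (4 * (1 - δ) * Λ + (M + C₀) * Gs r M ^ 2) / Gs r M ^ 2 := h7
    _ = (1 - δ) * (4 / Gs r M ^ 2) * Λ + (M + C₀) := by
        field_simp

end Pool.Agent.Helper60.Rel
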