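import Mathlib
import Pool.Agent.Helper60.Rel.Weights

/-!
# The weighted inequality without ordering
-/

namespace Pool.Agent.Helper60.Rel
open Finset

theorem weights_fin {M : ℕ} (hM : 2 ≤ M) {δ : ℝ} (hδ0 : 0 ≤ δ) (hδ1 : δ ≤ 2 / 3)
    (U X : Fin M → ℝ) (D : Fin M → Fin M → ℝ)
    (hDs : ∀ i j, D i j = D j i) (hD : ∀ i j, -1 ≤ D i j)
    {Λ e C₀ : ℝ} (hΛ : 0 ≤ Λ) (hX : ∀ l, 0 ≤ X l ∧ X l ≤ Λ)
    (hU : ∀ l, e + δ * X l + ∑ a ∈ univ.erase l, D l a ≤ U l)
    (hE : ∀ γ : Fin M → ℝ, (∀ l, 0 ≤ γ l) →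
      ∑ j, ∑ k, γ j * γ k * min (U j) (U k)
      ≤ 2 * ∑ j, γ j ^ 2 * X j + 2 * ∑ j, ∑ a ∈ univ.erase j, γ j * γ a * D j a
        + C₀ * (∑ j, γ j) ^ 2) :
    e ≤ (1 - δ) * (((2 - δ) / (2 + δ)) ^ 2) ^ (M - 2) * Λ + (M + C₀) := by
  classical
  set r : ℝ := (2 + δ) / (2 - δ) with hr
  have h2δ : 0 < 2 - δ := by linarith
  have hr1 : 1 ≤ r := by rw [hr, le_div_iff₀ h2δ]; linarith
  set π : Equiv.Perm (Fin M) := Tuple.sort (fun l => -U l) with hπ
  have hmono : Monotone ((fun l => -U l) ∘ π) := Tuple.monotone_sort _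
  have hanti : ∀ i j : Fin M, i ≤ j → U (π j) ≤ U (π i) := by
    intro i j hij
    have := hmono hij
    simp only [Function.comp_apply] at this
    linarith
  -- extension to the naturals
  set ex : (Fin M → ℝ) → ℕ → ℝ := fun F j => if h : j < M then F (π ⟨j, h⟩) else 0 with hex
  have hexv : ∀ (F : Fin M → ℝ) (j : Fin M), ex F j = F (π j) := by
    intro F j
    rw [hex]; simp only [j.2, dif_pos]
  set D' : ℕ → ℕ → ℝ := fun j a =>
    if h : j < M ∧ a < M then D (π ⟨j, h.1⟩) (π ⟨a, h.2⟩) else 0 with hD'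
  have hD'v : ∀ j a : Fin M, D' j a = D (π j) (π a) := by
    intro j a
    rw [hD']; simp only [j.2, a.2, and_self, dif_pos]
  have hsumr : ∀ F : ℕ → ℝ, ∑ j ∈ range M, F j = ∑ j : Fin M, F j := fun F =>
    Finset.sum_range F
  apply weights_core hM hδ0 hδ1 (ex U) (ex X) D' (Λ := Λ) (e := e) (C₀ := C₀)
  · intro i j hij hj
    have h1 := hanti ⟨i, by omega⟩ ⟨j, hj⟩ hij
    have h2 := hexv U ⟨i, by omega⟩
    have h3 := hexv U ⟨j, hj⟩
    simp only at h2 h3
    rw [h2, h3]; exact h1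
  · intro i j
    rw [hD']
    simp only
    by_cases h : i < M ∧ j < M
    · rw [dif_pos h, dif_pos ⟨h.2, h.1⟩]; exact hDs _ _
    · rw [dif_neg h, dif_neg (fun hc => h ⟨hc.2, hc.1⟩)]
  · intro i j
    rw [hD']
    simp only
    split_ifs with h
    · exact hD _ _
    · norm_num
  · exact hΛ
  · intro l hl
    have h2 := hexv X ⟨l, hl⟩
    simp only at h2
    rw [h2]; exact hX _
  · intro l hl
    have h2 := hexv X ⟨l, hl⟩
    have h3 := hexv U ⟨l, hl⟩
    simp only at h2 h3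
    rw [h2, h3, sum_erase_eq_sub (mem_range.2 hl), hsumr]
    have h4 := hU (π ⟨l, hl⟩)
    rw [sum_erase_eq_sub (mem_univ _)] at h4
    have h5 : ∑ a : Fin M, D' l a = ∑ a, D (π ⟨l, hl⟩) a := by
      rw [← Equiv.sum_comp π (fun a => D (π ⟨l, hl⟩) a)]
      apply sum_congr rfl
      intro a _
      exact hD'v ⟨l, hl⟩ a
    have h6 : D' l l = D (π ⟨l, hl⟩) (π ⟨l, hl⟩) := hD'v ⟨l, hl⟩ ⟨l, hl⟩
    rw [h5, h6]
    exact h4
  · rw [← hr]
    have h1 := hE (fun l => gw r (π.symm l)) (fun l => gw_nonneg hr1 _)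
    have e1 : ∑ j ∈ range M, ∑ k ∈ range M, gw r j * gw r k * min (ex U j) (ex U k)
        = ∑ j, ∑ k, gw r (π.symm j) * gw r (π.symm k) * min (U j) (U k) := by
      rw [hsumr, ← Equiv.sum_comp π
        (fun j => ∑ k, gw r (π.symm j) * gw r (π.symm k) * min (U j) (U k))]
      apply sum_congr rfl
      intro j _
      rw [hsumr, ← Equiv.sum_comp π
        (fun k => gw r (π.symm (π j)) * gw r (π.symm k) * min (U (π j)) (U k))]
      apply sum_congr rfl
      intro k _
      rw [hexv, hexv, Equiv.symm_apply_apply, Equiv.symm_apply_apply]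
    have e2 : ∑ j ∈ range M, gw r j ^ 2 * ex X j = ∑ j, gw r (π.symm j) ^ 2 * X j := by
      rw [hsumr, ← Equiv.sum_comp π (fun j => gw r (π.symm j) ^ 2 * X j)]
      apply sum_congr rfl
      intro j _
      rw [hexv, Equiv.symm_apply_apply]
    have e3 : ∑ j ∈ range M, ∑ a ∈ (range M).erase j, gw r j * gw r a * D' j a
        = ∑ j, ∑ a ∈ univ.erase j, gw r (π.symm j) * gw r (π.symm a) * D j a := by
      have a1 : ∀ j ∈ range M, ∑ a ∈ (range M).erase j, gw r j * gw r a * D' j a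
          = ∑ a ∈ range M, gw r j * gw r a * D' j a - gw r j * gw r j * D' j j :=
        fun j hj => sum_erase_eq_sub hj
      have a2 : ∀ j ∈ (univ : Finset (Fin M)),
          ∑ a ∈ univ.erase j, gw r (π.symm j) * gw r (π.symm a) * D j a
          = ∑ a, gw r (π.symm j) * gw r (π.symm a) * D j a
            - gw r (π.symm j) * gw r (π.symm j) * D j j :=
        fun j hj => sum_erase_eq_sub hj
      rw [sum_congr rfl a1, sum_congr rfl a2, hsumr, ← Equiv.sum_comp π
        (fun j => ∑ a, gw r (π.symm j) * gw r (π.symm a) * D j a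
            - gw r (π.symm j) * gw r (π.symm j) * D j j)]
      apply sum_congr rfl
      intro j _
      rw [hsumr, ← Equiv.sum_comp π
        (fun a => gw r (π.symm (π j)) * gw r (π.symm a) * D (π j) a), hD'v]
      simp only [Equiv.symm_apply_apply]
      congr 1
      apply sum_congr rfl
      intro a _
      rw [hD'v]
    have e4 : ∑ j ∈ range M, gw r j = ∑ j, gw r (π.symm j) := by
      rw [hsumr, ← Equiv.sum_comp π (fun j => gw r (π.symm j))]
      apply sum_congr rfl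
      intro j _
      rw [Equiv.symm_apply_apply]
    rw [e1, e2, e3, e4]
    exact h1

end Pool.Agent.Helper60.Rel
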