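import Mathlib
import Pool.Agent.Helper60.Rel.Mass
import Pool.Agent.Helper60.Rel.Weights2

/-!
# The main inequality on the grid
-/

namespace Pool.Agent.Helper60.Rel
open Finset

theorem bil {ι κ : Type*} [Fintype ι] [Fintype κ] (γ : κ → ℝ) (μ : κ → ι → ℝ) (K : ι → ι → ℝ) :
    ∑ i, ∑ j, (∑ l, γ l * μ l i) * (∑ a, γ a * μ a j) * K i j
      = ∑ l, ∑ a, γ l * γ a * ∑ i, ∑ j, μ l i * μ a j * K i j := by
  calc ∑ i, ∑ j, (∑ l, γ l * μ l i) * (∑ a, γ a * μ a j) * K i j
      = ∑ i, ∑ j, ∑ l, ∑ a, γ l * γ a * (μ l i * μ a j * K i j) := by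
        apply sum_congr rfl; intro i _
        apply sum_congr rfl; intro j _
        rw [sum_mul_sum, sum_mul]
        apply sum_congr rfl; intro l _
        rw [sum_mul]
        apply sum_congr rfl; intro a _
        ring
    _ = ∑ i, ∑ l, ∑ j, ∑ a, γ l * γ a * (μ l i * μ a j * K i j) := by
        apply sum_congr rfl; intro i _
        rw [sum_comm]
    _ = ∑ l, ∑ i, ∑ j, ∑ a, γ l * γ a * (μ l i * μ a j * K i j) := by
        rw [sum_comm]
    _ = ∑ l, ∑ i, ∑ a, ∑ j, γ l * γ a * (μ l i * μ a j * K i j) := by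
        apply sum_congr rfl; intro l _
        apply sum_congr rfl; intro i _
        rw [sum_comm]
    _ = ∑ l, ∑ a, ∑ i, ∑ j, γ l * γ a * (μ l i * μ a j * K i j) := by
        apply sum_congr rfl; intro l _
        rw [sum_comm]
    _ = _ := by
        apply sum_congr rfl; intro l _
        apply sum_congr rfl; intro a _
        rw [mul_sum]
        apply sum_congr rfl; intro i _
        rw [mul_sum]

/-- The selection constant. -/
noncomputable def K1 (n m N : ℕ) : ℝ := 2 * (m + 1) * ((N + 1 : ℝ) ^ (m + 1)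
          * ((Nat.log 2 (2 * n) + 1 : ℝ) ^ (m + 1)) ^ (m + 1) * 10000 ^ (m + 1))

theorem K1_pos (n m N : ℕ) : 0 < K1 n m N := by unfold K1; positivity

theorem core {n m : ℕ} (hn : 1 ≤ n) (hm : 1 ≤ m) {p : Fin n → ℂ} (hp : ∀ i, ‖p i‖ = 1)
    {u ω : Fin n → ℝ} (hω : ∀ i, 0 ≤ ω i) {B : ℝ} {N : ℕ} (hu : ∀ i, 0 ≤ u i + B)
    (hu2 : ∀ i, u i + B ≤ N) {E : ℝ} (hE : 0 < E)
    (hS : ∀ J : Fin m → Fin n, E ≤ ∑ i, (Real.exp (u i) * ω i) * ∏ a, kap p i (J a))
    {Cω δ C : ℝ} (hCω : 0 < Cω) (hδ0 : 0 ≤ δ) (hδ1 : δ ≤ 2 / 3)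
    (hb : ∀ (A : Finset (Fin n)) (j : Fin n) (ρ k : ℝ), 1 / (n : ℝ) ≤ ρ →
      (∀ i ∈ A, ‖p i - p j‖ ≤ ρ) → (∀ i ∈ A, u i ∈ Set.Icc k (k + 1)) →
      ∑ i ∈ A, ω i ≤ Cω * (n * ρ) ^ δ)
    (hgol : ∀ γ : Fin n → ℝ, (∀ i, 0 ≤ γ i) →
      ∑ i, ∑ j, γ i * γ j * min (u i) (u j)
        ≤ 2 * ∑ i, ∑ j, γ i * γ j * (-Real.log (kap p i j)) + C * (∑ i, γ i) ^ 2) :
    Real.log E ≤ (Real.log (K1 n m N) + 1 + m * Real.log 2 + Real.log (1 + Real.log n)
      + Real.log Cω + δ * Real.log (2 * n))
      + ((1 - δ) * (((2 - δ) / (2 + δ)) ^ 2) ^ (m - 1) * Real.log (2 * n)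
      + ((m + 1) + (C + 2))) := by
  classical
  have h0 : (0 : ℝ) < n := by positivity
  have hn1 : (1 : ℝ) ≤ n := by exact_mod_cast hn
  have hlog0 : 0 ≤ Real.log n := Real.log_nonneg hn1
  have hT0 : 0 < 1 + Real.log n := by linarith
  obtain ⟨J, F, hF1, hF2, hF3, hF4⟩ := selection hn hm hp hu hu2
    (w := fun i => Real.exp (u i) * ω i) (fun i => mul_nonneg (Real.exp_pos _).le (hω i)) hE hS
  set U : Fin (m + 1) → ℝ := fun l => (⌊u (J l) + B⌋₊ : ℝ) - B with hU
  have hU1 : ∀ l, ∀ i ∈ F l, U l ≤ u i ∧ u i ≤ U l + 1 := by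
    intro l i hi
    have h1 := hF2 l i hi
    have h2 := Nat.floor_le (hu i)
    have h3 := Nat.lt_floor_add_one (u i + B)
    rw [h1] at h2 h3
    simp only [hU]
    constructor <;> linarith
  set Ω : Fin (m + 1) → ℝ := fun l => ∑ i ∈ F l, ω i with hΩ
  have hΩ0 : ∀ l, 0 ≤ Ω l := fun l => sum_nonneg (fun i _ => hω i)
  have hkp : ∀ i j, 0 < kap p i j := fun i j => kap_pos hn p i j
  have hK1 : 0 < K1 n m N := K1_pos n m N
  have hEb : ∀ l, E ≤ K1 n m N * (Real.exp (U l + 1)
      * (2 ^ m * ∏ a ∈ univ.erase l, kap p (J l) (J a)) * Ω l) := by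
    intro l
    refine le_trans (hF1 l) ?_
    change K1 n m N * _ ≤ _
    apply mul_le_mul_of_nonneg_left _ hK1.le
    rw [hΩ]
    simp only
    rw [mul_sum]
    apply sum_le_sum
    intro i hi
    have h1 : ∏ a ∈ univ.erase l, kap p i (J a)
        ≤ 2 ^ m * ∏ a ∈ univ.erase l, kap p (J l) (J a) := by
      calc ∏ a ∈ univ.erase l, kap p i (J a) ≤ ∏ a ∈ univ.erase l, 2 * kap p (J l) (J a) := by
            apply prod_le_prod
            · intro a _; exact (hkp _ _).le
            · intro a ha; exact hF3 l i hi a (ne_of_mem_erase ha)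
        _ = _ := by
            rw [prod_mul_distrib, prod_const, card_erase_of_mem (mem_univ l), card_univ,
              Fintype.card_fin, Nat.add_sub_cancel]
    have h2 : Real.exp (u i) ≤ Real.exp (U l + 1) := Real.exp_le_exp.2 (hU1 l i hi).2
    calc Real.exp (u i) * ω i * ∏ a ∈ univ.erase l, kap p i (J a)
        ≤ Real.exp (U l + 1) * ω i * (2 ^ m * ∏ a ∈ univ.erase l, kap p (J l) (J a)) := by
          apply mul_le_mul
          · exact mul_le_mul_of_nonneg_right h2 (hω i)
          · exact h1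
          · exact prod_nonneg (fun a _ => (hkp _ _).le)
          · exact mul_nonneg (Real.exp_pos _).le (hω i)
      _ = _ := by ring
  have hΩp : ∀ l, 0 < Ω l := by
    intro l
    rcases (hΩ0 l).lt_or_eq with h | h
    · exact h
    · exfalso
      have := hEb l
      rw [← h, mul_zero, mul_zero] at this
      linarith
  have hmass : ∀ l, ∃ X : ℝ, 0 ≤ X ∧ X ≤ Real.log (2 * n) ∧
      Ω l ≤ (1 + Real.log n) * (Cω * (2 * n * Real.exp (-X)) ^ δ) ∧
      ∑ i ∈ F l, ∑ j ∈ F l, ω i * ω j * (-Real.log (kap p i j)) ≤ (X + 1) * (Ω l) ^ 2 := by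
    intro l
    apply mass hn hp hω (F l) _ (hΩp l)
    intro A j ρ hA hρ hAj
    exact hb A j ρ (U l) hρ hAj (fun i hi => hU1 l i (hA hi))
  choose X hX0 hX1 hX2 hX3 using hmass
  set D : Fin (m + 1) → Fin (m + 1) → ℝ := fun l a => -Real.log (kap p (J l) (J a)) with hD
  have hlog2 : Real.log 2 < 1 := by have := Real.log_two_lt_d9; linarith
  have hDs : ∀ i j, D i j = D j i := by
    intro i j
    simp only [hD]
    rw [kap_symm]
  have hD1 : ∀ i j, -1 ≤ D i j := by
    intro i j
    simp only [hD]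
    have := Real.log_le_log (hkp (J i) (J j)) (kap_le hn hp (J i) (J j))
    linarith
  have h2n : 0 < 2 * (n : ℝ) := by positivity
  have hΛ : 0 ≤ Real.log (2 * n) := Real.log_nonneg (by linarith)
  have hfinal := weights_fin (M := m + 1) (by omega) hδ0 hδ1 U X D hDs hD1
    (Λ := Real.log (2 * n))
    (e := Real.log E - (Real.log (K1 n m N) + 1 + m * Real.log 2 + Real.log (1 + Real.log n)
      + Real.log Cω + δ * Real.log (2 * n))) (C₀ := C + 2) hΛ (fun l => ⟨hX0 l, hX1 l⟩) ?_ ?_
  · have e1 : m + 1 - 2 = m - 1 := by omega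
    rw [e1] at hfinal
    push_cast at hfinal
    linarith
  · intro l
    have hprod : 0 < ∏ a ∈ univ.erase l, kap p (J l) (J a) := prod_pos (fun a _ => hkp _ _)
    have h1 : E ≤ K1 n m N * (Real.exp (U l + 1)
      * (2 ^ m * ∏ a ∈ univ.erase l, kap p (J l) (J a))
      * ((1 + Real.log n) * (Cω * (2 * n * Real.exp (-X l)) ^ δ))) := by
      refine le_trans (hEb l) ?_
      apply mul_le_mul_of_nonneg_left _ hK1.le
      apply mul_le_mul_of_nonneg_left (hX2 l)
      positivity
    have h2 := Real.log_le_log hE h1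
    have hexp : 0 < 2 * (n : ℝ) * Real.exp (-X l) := by positivity
    have hrp : 0 < (2 * (n : ℝ) * Real.exp (-X l)) ^ δ := Real.rpow_pos_of_pos hexp _
    rw [Real.log_mul hK1.ne' (by positivity), Real.log_mul (by positivity) (by positivity),
      Real.log_mul (Real.exp_pos _).ne' (by positivity), Real.log_exp,
      Real.log_mul (by positivity) hprod.ne', Real.log_pow,
      Real.log_prod (fun a _ => (hkp _ _).ne'), Real.log_mul hT0.ne' (by positivity),
      Real.log_mul hCω.ne' hrp.ne', Real.log_rpow hexp, Real.log_mul h2n.ne'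
      (Real.exp_pos _).ne', Real.log_exp] at h2
    have h3 : ∑ a ∈ univ.erase l, D l a = -∑ a ∈ univ.erase l, Real.log (kap p (J l) (J a)) := by
      rw [← sum_neg_distrib]
    rw [h3]
    linarith
  · intro γ hγ
    set μ : Fin (m + 1) → Fin n → ℝ := fun l i => if i ∈ F l then ω i / Ω l else 0 with hμ
    have hμ0 : ∀ l i, 0 ≤ μ l i := by
      intro l i
      simp only [hμ]
      split_ifs
      · exact div_nonneg (hω i) (hΩ0 l)
      · exact le_rfl
    have hμs : ∀ l, ∑ i, μ l i = 1 := by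
      intro l
      simp only [hμ]
      rw [← sum_filter, filter_mem_eq_inter, univ_inter, ← sum_div]
      exact div_self (hΩp l).ne'
    have hg := hgol (fun i => ∑ l, γ l * μ l i)
      (fun i => sum_nonneg (fun l _ => mul_nonneg (hγ l) (hμ0 l i)))
    rw [bil γ μ (fun i j => min (u i) (u j)), bil γ μ (fun i j => -Real.log (kap p i j))] at hg
    have hsum : ∑ i, ∑ l, γ l * μ l i = ∑ l, γ l := by
      rw [sum_comm]
      apply sum_congr rfl
      intro l _
      rw [← mul_sum, hμs, mul_one]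
    rw [hsum] at hg
    have hpair : ∀ l a : Fin (m + 1), ∀ K : Fin n → Fin n → ℝ, ∀ c : ℝ,
        (∀ i ∈ F l, ∀ j ∈ F a, c ≤ K i j) → c ≤ ∑ i, ∑ j, μ l i * μ a j * K i j := by
      intro l a K c hc
      have h1 : c = ∑ i, ∑ j, μ l i * μ a j * c := by
        have : ∀ i, ∑ j, μ l i * μ a j * c = μ l i * c := by
          intro i
          rw [← sum_mul, ← mul_sum, hμs, mul_one]
        rw [sum_congr rfl (fun i _ => this i), ← sum_mul, hμs, one_mul]
      rw [h1]
      apply sum_le_sum; intro i _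
      apply sum_le_sum; intro j _
      by_cases hi : i ∈ F l
      · by_cases hj : j ∈ F a
        · exact mul_le_mul_of_nonneg_left (hc i hi j hj) (mul_nonneg (hμ0 _ _) (hμ0 _ _))
        · have : μ a j = 0 := by simp only [hμ]; rw [if_neg hj]
          rw [this]; simp
      · have : μ l i = 0 := by simp only [hμ]; rw [if_neg hi]
        rw [this]; simp
    have hleft : ∑ l, ∑ a, γ l * γ a * min (U l) (U a)
        ≤ ∑ l, ∑ a, γ l * γ a * ∑ i, ∑ j, μ l i * μ a j * min (u i) (u j) := by
      apply sum_le_sum; intro l _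
      apply sum_le_sum; intro a _
      apply mul_le_mul_of_nonneg_left _ (mul_nonneg (hγ l) (hγ a))
      apply hpair
      intro i hi j hj
      exact min_le_min (hU1 l i hi).1 (hU1 a j hj).1
    have hdiag : ∀ l, ∑ i, ∑ j, μ l i * μ l j * (-Real.log (kap p i j)) ≤ X l + 1 := by
      intro l
      have h1 : ∑ i, ∑ j, μ l i * μ l j * (-Real.log (kap p i j))
          = (∑ i ∈ F l, ∑ j ∈ F l, ω i * ω j * (-Real.log (kap p i j))) / (Ω l) ^ 2 := by
        have h2 : ∀ i, ∑ j, μ l i * μ l j * (-Real.log (kap p i j))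
            = if i ∈ F l then (∑ j ∈ F l, ω i * ω j * (-Real.log (kap p i j))) / (Ω l) ^ 2
              else 0 := by
          intro i
          split_ifs with hi
          · rw [sum_div]
            rw [← sum_subset (subset_univ (F l))]
            · apply sum_congr rfl
              intro j hj
              simp only [hμ]
              rw [if_pos hi, if_pos hj]
              have := (hΩp l).ne'
              field_simp
            · intro j _ hj
              have : μ l j = 0 := by simp only [hμ]; rw [if_neg hj]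
              rw [this]; simp
          · apply sum_eq_zero
            intro j _
            have : μ l i = 0 := by simp only [hμ]; rw [if_neg hi]
            rw [this]; simp
        rw [sum_congr rfl (fun i _ => h2 i), ← sum_filter, filter_mem_eq_inter, univ_inter,
          sum_div]
      rw [h1, div_le_iff₀ (by have := hΩp l; positivity)]
      exact hX3 l
    have hoff : ∀ l a, a ≠ l → ∑ i, ∑ j, μ l i * μ a j * (-Real.log (kap p i j))
        ≤ D l a + 1 := by
      intro l a hla
      have h1 := hpair l a (fun i j => Real.log (kap p i j)) (-(D l a + 1)) (by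
        intro i hi j hj
        have h2 := cross (hF4 l i hi a hla) (hF4 a j hj l (Ne.symm hla))
        have h3 := Real.log_le_log (by have := hkp (J l) (J a); positivity) h2
        rw [Real.log_div (hkp _ _).ne' (by norm_num)] at h3
        simp only [hD]
        linarith)
      have h4 : ∑ i, ∑ j, μ l i * μ a j * (-Real.log (kap p i j))
          = -∑ i, ∑ j, μ l i * μ a j * Real.log (kap p i j) := by
        rw [← sum_neg_distrib]
        apply sum_congr rfl; intro i _
        rw [← sum_neg_distrib]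
        apply sum_congr rfl; intro j _
        ring
      rw [h4]
      linarith
    have hright : ∑ l, ∑ a, γ l * γ a * ∑ i, ∑ j, μ l i * μ a j * (-Real.log (kap p i j))
        ≤ ∑ l, γ l ^ 2 * X l + ∑ l, ∑ a ∈ univ.erase l, γ l * γ a * D l a
          + (∑ l, γ l) ^ 2 := by
      have h1 : (∑ l, γ l) ^ 2 = ∑ l, (γ l ^ 2 + ∑ a ∈ univ.erase l, γ l * γ a) := by
        rw [sq, sum_mul_sum]
        apply sum_congr rfl
        intro l _
        rw [← add_sum_erase univ (fun a => γ l * γ a) (mem_univ l)]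
        ring
      rw [h1, ← sum_add_distrib, ← sum_add_distrib]
      apply sum_le_sum
      intro l _
      rw [← add_sum_erase univ (fun a => γ l * γ a * ∑ i, ∑ j, μ l i * μ a j
        * (-Real.log (kap p i j))) (mem_univ l)]
      have h2 : γ l * γ l * ∑ i, ∑ j, μ l i * μ l j * (-Real.log (kap p i j))
          ≤ γ l * γ l * (X l + 1) :=
        mul_le_mul_of_nonneg_left (hdiag l) (mul_nonneg (hγ l) (hγ l))
      have h3 : ∑ a ∈ univ.erase l, γ l * γ a * ∑ i, ∑ j, μ l i * μ a j
          * (-Real.log (kap p i j)) ≤ ∑ a ∈ univ.erase l, γ l * γ a * (D l a + 1) := by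
        apply sum_le_sum
        intro a ha
        exact mul_le_mul_of_nonneg_left (hoff l a (ne_of_mem_erase ha))
          (mul_nonneg (hγ l) (hγ a))
      have h4 : ∑ a ∈ univ.erase l, γ l * γ a * (D l a + 1)
          = ∑ a ∈ univ.erase l, γ l * γ a * D l a + ∑ a ∈ univ.erase l, γ l * γ a := by
        rw [← sum_add_distrib]
        apply sum_congr rfl
        intro a _
        ring
      rw [h4] at h3
      have h5 : γ l * γ l * (X l + 1) = γ l ^ 2 * X l + γ l ^ 2 := by ring
      linarith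
    have h5 : 2 * ∑ l, ∑ a, γ l * γ a * ∑ i, ∑ j, μ l i * μ a j * (-Real.log (kap p i j))
        ≤ 2 * (∑ l, γ l ^ 2 * X l + ∑ l, ∑ a ∈ univ.erase l, γ l * γ a * D l a
          + (∑ l, γ l) ^ 2) := by linarith
    linarith

end Pool.Agent.Helper60.Rel
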