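import Mathlib

/-!
# Short linear relations among coefficients of univalent functions: definitions
-/

namespace Pool.Agent.Helper60.Rel

open Metric

/-- The class `S`: analytic injective functions on the open unit disc with `f 0 = 0` and
`f' 0 = 1`. -/
def ClassS (f : ℂ → ℂ) : Prop :=
  DifferentiableOn ℂ f (ball 0 1) ∧ Set.InjOn f (ball 0 1) ∧ f 0 = 0 ∧ deriv f 0 = 1

/-- The `n`-th Taylor coefficient of `f` at `0`. -/
noncomputable def tc (f : ℂ → ℂ) (n : ℕ) : ℂ := iteratedDeriv n f 0 / (n.factorial : ℂ)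

/-- The exponent `α` is admissible for `m`. -/
def Admissible (m : ℕ) (α : ℝ) : Prop :=
  ∀ f : ℂ → ℂ, ClassS f → ∀ k : ℕ, 1 ≤ k → ∃ K : ℝ, ∀ n : ℕ, 1 ≤ n →
    ∃ c : ℕ → ℂ, c 0 = 1 ∧ (1 / 4 : ℝ) ^ m ≤ ‖c m‖ ∧
      ∀ j : ℕ, j ≤ k →
        ‖∑ i ∈ Finset.range (m + 1), c i * tc f (n + j + i)‖ ≤ K * (n : ℝ) ^ α

end Pool.Agent.Helper60.Rel
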