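import Mathlib
import Pool.Agent.Helper60.Rel.Defs

/-!
# Shared auxiliary definition: the left half plane
-/

namespace Pool.Agent.Helper60.Rel

/-- The left half plane. -/
def LH : Set ℂ := {ζ | ζ.re < 0}

end Pool.Agent.Helper60.Rel
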