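import Mathlib
import Pool.Agent.Helper60.Rel.Base

/-!
# Logarithm of a function of class `S` on the left half plane
-/

namespace Pool.Agent.Helper60.Rel
open Complex MeasureTheory Set Metric
open scoped Real

/-- A zero free analytic function on the unit disc has an analytic logarithm. -/
theorem exists_log_disc {ψ : ℂ → ℂ} (hd : DifferentiableOn ℂ ψ (ball 0 1))
    (h0 : ∀ z ∈ ball (0 : ℂ) 1, ψ z ≠ 0) (h1 : ψ 0 = 1) :
    ∃ L : ℂ → ℂ, DifferentiableOn ℂ L (ball 0 1) ∧ L 0 = 0 ∧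
      ∀ z ∈ ball (0 : ℂ) 1, exp (L z) = ψ z := by
  have hder : DifferentiableOn ℂ (fun z => deriv ψ z / ψ z) (ball 0 1) := by
    apply DifferentiableOn.div _ hd h0
    exact hd.deriv isOpen_ball
  obtain ⟨L, hL0, hL⟩ := hder.isExactOn_ball.with_val_at 0 0
  refine ⟨L, fun z hz => (hL z hz).differentiableAt.differentiableWithinAt, hL0, ?_⟩
  -- ψ * exp (-L) is constant
  have hconst : ∀ z ∈ ball (0 : ℂ) 1, HasDerivAt (fun z => ψ z * exp (-L z)) 0 z := by
    intro z hz
    have e1 : HasDerivAt ψ (deriv ψ z) z :=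
      (hd.differentiableAt (isOpen_ball.mem_nhds hz)).hasDerivAt
    have e2 := (hL z hz).neg.cexp
    have e3 := e1.mul e2
    refine e3.congr_deriv ?_
    have := h0 z hz
    simp only [Pi.neg_apply]
    field_simp
    ring
  intro z hz
  have hc : (fun z => ψ z * exp (-L z)) z = (fun z => ψ z * exp (-L z)) 0 := by
    apply (convex_ball (0 : ℂ) 1).is_const_of_fderivWithin_eq_zero (𝕜 := ℂ) (x := z) (y := 0)
      (f := fun z => ψ z * exp (-L z))
    · intro w hw
      exact (hconst w hw).differentiableAt.differentiableWithinAt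
    · intro w hw
      rw [fderivWithin_of_isOpen isOpen_ball hw]
      have := (hconst w hw).hasFDerivAt.fderiv
      rw [this]; simp
    · exact hz
    · simp
  simp only [hL0, h1, neg_zero, exp_zero, mul_one] at hc
  have : ψ z * exp (-L z) * exp (L z) = exp (L z) := by rw [hc, one_mul]
  rw [mul_assoc, ← exp_add, neg_add_cancel, exp_zero, mul_one] at this
  exact this.symm

theorem exp_mem_ball {ζ : ℂ} (hζ : ζ ∈ LH) : exp ζ ∈ ball (0 : ℂ) 1 := by
  rw [mem_ball_zero_iff, Complex.norm_exp]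
  exact Real.exp_lt_one_iff.2 hζ

theorem isOpen_LH : IsOpen LH := isOpen_lt continuous_re continuous_const

theorem convex_LH : Convex ℝ LH := convex_halfSpace_re_lt 0

theorem add_period_mem {ζ : ℂ} (hζ : ζ ∈ LH) : ζ + 2 * π * I ∈ LH := by
  show (ζ + 2 * π * I).re < 0
  have h : ζ.re < 0 := hζ
  simpa using h

/-- The data of a logarithm. `lam` is the analytic function `log (f z / z)` on the disc. -/
structure LogData (f G lam : ℂ → ℂ) : Prop where
  fdiff : DifferentiableOn ℂ f (ball 0 1)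
  finj : InjOn f (ball 0 1)
  f0 : f 0 = 0
  f1 : deriv f 0 = 1
  ldiff : DifferentiableOn ℂ lam (ball 0 1)
  l0 : lam 0 = 0
  Gdef : ∀ ζ, G ζ = ζ + lam (exp ζ)
  Gdiff : DifferentiableOn ℂ G LH
  Gexp : ∀ ζ ∈ LH, exp (G ζ) = f (exp ζ)
  Gper : ∀ ζ ∈ LH, G (ζ + 2 * π * I) = G ζ + 2 * π * I
  Ginj : InjOn G LH

theorem exists_logData {f : ℂ → ℂ} (hf : ClassS f) : ∃ G lam : ℂ → ℂ, LogData f G lam := by
  obtain ⟨hd, hi, h0, h1⟩ := hf
  have hψd : DifferentiableOn ℂ (dslope f 0) (ball 0 1) :=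
    (differentiableOn_dslope (isOpen_ball.mem_nhds (mem_ball_self one_pos))).2 hd
  have hψ0 : dslope f 0 0 = 1 := by rw [dslope_same, h1]
  have hψne : ∀ z ∈ ball (0 : ℂ) 1, z ≠ 0 → z * dslope f 0 z = f z := by
    intro z hz hz0
    rw [dslope_of_ne _ hz0, slope_def_field, h0]
    field_simp
    ring
  have hψz : ∀ z ∈ ball (0 : ℂ) 1, dslope f 0 z ≠ 0 := by
    intro z hz
    by_cases hz0 : z = 0
    · rw [hz0, hψ0]; exact one_ne_zero
    · intro h
      have := hψne z hz hz0
      rw [h, mul_zero] at this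
      exact hz0 (hi hz (mem_ball_self one_pos) (by rw [← this, h0]))
  obtain ⟨lam, hld, hl0, hl⟩ := exists_log_disc hψd hψz hψ0
  refine ⟨fun ζ => ζ + lam (exp ζ), lam, hd, hi, h0, h1, hld, hl0, fun _ => rfl, ?_, ?_, ?_, ?_⟩
  · apply differentiableOn_id.add
    exact hld.comp differentiable_exp.differentiableOn (fun ζ hζ => exp_mem_ball hζ)
  · intro ζ hζ
    rw [exp_add, hl _ (exp_mem_ball hζ), hψne _ (exp_mem_ball hζ) (exp_ne_zero _)]
  · intro ζ hζ
    show ζ + 2 * π * I + lam (exp (ζ + 2 * π * I)) = ζ + lam (exp ζ) + 2 * π * I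
    rw [exp_periodic ζ]; ring
  · intro ζ hζ ζ' hζ' he
    have e1 : f (exp ζ) = f (exp ζ') := by
      have a1 : exp (ζ + lam (exp ζ)) = exp (ζ' + lam (exp ζ')) := by
        simp only at he; rw [he]
      rw [exp_add, hl _ (exp_mem_ball hζ), hψne _ (exp_mem_ball hζ) (exp_ne_zero _),
        exp_add, hl _ (exp_mem_ball hζ'), hψne _ (exp_mem_ball hζ') (exp_ne_zero _)] at a1
      exact a1
    have e2 : exp ζ = exp ζ' := hi (exp_mem_ball hζ) (exp_mem_ball hζ') e1
    simp only at he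
    rw [e2] at he
    exact add_right_cancel he

end Pool.Agent.Helper60.Rel
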