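import Mathlib
import Pool.Agent.Helper60.Rel.Log

/-!
# Area bound
-/

namespace Pool.Agent.Helper60.Rel
open Complex MeasureTheory Set Metric
open scoped Real ENNReal

theorem det_mul_complex (w : ℂ) :
    ((ContinuousLinearMap.toSpanSingleton ℂ w).restrictScalars ℝ : ℂ →L[ℝ] ℂ).det
      = ‖w‖ ^ 2 := by
  have h1 : ((ContinuousLinearMap.toSpanSingleton ℂ w).restrictScalars ℝ : ℂ →L[ℝ] ℂ).det
      = LinearMap.det (((ContinuousLinearMap.toSpanSingleton ℂ w : ℂ →L[ℂ] ℂ) :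
        ℂ →ₗ[ℂ] ℂ).restrictScalars ℝ) := rfl
  rw [h1, LinearMap.det_restrictScalars]
  have h2 : LinearMap.det ((ContinuousLinearMap.toSpanSingleton ℂ w : ℂ →L[ℂ] ℂ) :
      ℂ →ₗ[ℂ] ℂ) = w := by
    rw [LinearMap.det_ring]
    simp
  rw [h2, Algebra.norm_complex_apply, Complex.normSq_eq_norm_sq]

theorem polar_log (g : ℝ → ℝ≥0∞) (hg : Measurable g) :
    ∫⁻ w : ℂ, g (Real.log ‖w‖) * ENNReal.ofReal ((‖w‖ ^ 2)⁻¹)
      = ENNReal.ofReal (2 * π) * ∫⁻ t, g t := by
  rw [← Complex.lintegral_comp_polarCoord_symm]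
  have h1 : ∀ p ∈ polarCoord.target, ENNReal.ofReal p.1 •
      (g (Real.log ‖Complex.polarCoord.symm p‖) *
        ENNReal.ofReal ((‖Complex.polarCoord.symm p‖ ^ 2)⁻¹))
      = g (Real.log p.1) * ENNReal.ofReal (p.1⁻¹) := by
    intro p hp
    have hp1 : 0 < p.1 := by
      rw [polarCoord_target] at hp
      exact hp.1
    rw [Complex.norm_polarCoord_symm, abs_of_pos hp1, smul_eq_mul]
    rw [mul_left_comm, ← ENNReal.ofReal_mul hp1.le]
    congr 2
    field_simp
  have hmt : MeasurableSet polarCoord.target := polarCoord.open_target.measurableSet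
  rw [setLIntegral_congr_fun hmt h1]
  rw [polarCoord_target]
  have hmeas : Measurable (fun p : ℝ × ℝ => g (Real.log p.1) * ENNReal.ofReal (p.1⁻¹)) := by
    apply Measurable.mul
    · exact hg.comp (Real.measurable_log.comp measurable_fst)
    · exact ENNReal.measurable_ofReal.comp (measurable_fst.inv)
  rw [Measure.volume_eq_prod, ← Measure.prod_restrict, lintegral_prod _ hmeas.aemeasurable]
  simp only [lintegral_const, Measure.restrict_apply MeasurableSet.univ, univ_inter,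
    Real.volume_Ioo]
  rw [lintegral_mul_const _ (by
    apply Measurable.mul
    · exact hg.comp Real.measurable_log
    · exact ENNReal.measurable_ofReal.comp measurable_inv)]
  have h2 : ∫⁻ r in Ioi (0 : ℝ), g (Real.log r) * ENNReal.ofReal (r⁻¹) = ∫⁻ t, g t := by
    have himg : Real.exp '' univ = Ioi (0 : ℝ) := by
      rw [image_univ, Real.range_exp]
    rw [← himg, lintegral_image_eq_lintegral_abs_deriv_mul MeasurableSet.univ
      (fun x _ => (Real.hasDerivAt_exp x).hasDerivWithinAt) (Real.exp_injective.injOn)]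
    rw [Measure.restrict_univ]
    apply lintegral_congr
    intro t
    rw [Real.log_exp, abs_of_pos (Real.exp_pos t), mul_left_comm,
      ← ENNReal.ofReal_mul (Real.exp_pos t).le, mul_inv_cancel₀ (Real.exp_pos t).ne']
    simp
  rw [h2, mul_comm]
  congr 2
  ring

/-- T2: the area bound. -/
theorem area_bound {f G : ℂ → ℂ} (hf : DifferentiableOn ℂ f (ball 0 1))
    (hi : InjOn f (ball 0 1)) (hG : DifferentiableOn ℂ G LH)
    (hexp : ∀ ζ ∈ LH, exp (G ζ) = f (exp ζ)) (g : ℝ → ENNReal) (hg : Measurable g) :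
    ∫⁻ ζ in {ζ : ℂ | ζ.re < 0 ∧ 0 ≤ ζ.im ∧ ζ.im < 2 * π},
        g (G ζ).re * ENNReal.ofReal (‖deriv G ζ‖ ^ 2)
      ≤ ENNReal.ofReal (2 * π) * ∫⁻ t, g t := by
  set S : Set ℂ := {ζ : ℂ | ζ.re < 0 ∧ 0 ≤ ζ.im ∧ ζ.im < 2 * π} with hS
  have hSm : MeasurableSet S := by
    apply MeasurableSet.inter
    · exact measurableSet_lt measurable_re measurable_const
    · apply MeasurableSet.inter
      · exact measurableSet_le measurable_const measurable_im
      · exact measurableSet_lt measurable_im measurable_const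
  have hSLH : ∀ ζ ∈ S, ζ ∈ LH := fun ζ hζ => hζ.1
  -- the map T ζ = f (exp ζ) = exp (G ζ)
  have hder : ∀ ζ ∈ S, HasFDerivWithinAt (fun ζ => f (exp ζ))
      ((ContinuousLinearMap.toSpanSingleton ℂ (exp (G ζ) * deriv G ζ)).restrictScalars ℝ :
        ℂ →L[ℝ] ℂ) S ζ := by
    intro ζ hζ
    have h1 : HasDerivAt G (deriv G ζ) ζ :=
      (hG.differentiableAt (isOpen_LH.mem_nhds (hSLH ζ hζ))).hasDerivAt
    have h2 : HasDerivAt (fun ζ => exp (G ζ)) (exp (G ζ) * deriv G ζ) ζ := h1.cexp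
    have h3 : HasDerivAt (fun ζ => f (exp ζ)) (exp (G ζ) * deriv G ζ) ζ := by
      apply h2.congr_of_eventuallyEq
      filter_upwards [isOpen_LH.mem_nhds (hSLH ζ hζ)] with ξ hξ
      exact (hexp ξ hξ).symm
    have h4 := h3.hasFDerivAt.restrictScalars ℝ
    exact h4.hasFDerivWithinAt
  have hinj : InjOn (fun ζ => f (exp ζ)) S := by
    intro ζ hζ ζ' hζ' he
    have h1 := hi (exp_mem_ball (hSLH ζ hζ)) (exp_mem_ball (hSLH ζ' hζ')) he
    obtain ⟨n, hn⟩ := Complex.exp_eq_exp_iff_exists_int.1 h1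
    have him := congrArg Complex.im hn
    have him2 : ζ.im = ζ'.im + n * (2 * π) := by
      rw [him]; simp
    have hn0 : n = 0 := by
      have hpi := Real.pi_pos
      obtain ⟨_, a1, a2⟩ := hζ
      obtain ⟨_, b1, b2⟩ := hζ'
      have c1 : (n : ℝ) * (2 * π) < 1 * (2 * π) := by linarith
      have c2 : (-1 : ℝ) * (2 * π) < (n : ℝ) * (2 * π) := by linarith
      have d1 : (n : ℝ) < 1 := lt_of_mul_lt_mul_right c1 (by positivity)
      have d2 : (-1 : ℝ) < n := lt_of_mul_lt_mul_right c2 (by positivity)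
      have e1 : n < 1 := by exact_mod_cast d1
      have e2 : -1 < n := by exact_mod_cast d2
      omega
    rw [hn, hn0]; simp
  have key := lintegral_image_eq_lintegral_abs_det_fderiv_mul volume hSm hder hinj
    (fun w => g (Real.log ‖w‖) * ENNReal.ofReal ((‖w‖ ^ 2)⁻¹))
  have hcong : ∫⁻ ζ in S, g (G ζ).re * ENNReal.ofReal (‖deriv G ζ‖ ^ 2)
      = ∫⁻ ζ in S, ENNReal.ofReal |((ContinuousLinearMap.toSpanSingleton ℂ
          (exp (G ζ) * deriv G ζ)).restrictScalars ℝ : ℂ →L[ℝ] ℂ).det| *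
        (g (Real.log ‖f (exp ζ)‖) * ENNReal.ofReal ((‖f (exp ζ)‖ ^ 2)⁻¹)) := by
    apply setLIntegral_congr_fun hSm
    intro ζ hζ
    simp only
    rw [det_mul_complex, ← hexp ζ (hSLH ζ hζ), Complex.norm_exp, Real.log_exp,
      abs_of_nonneg (by positivity), norm_mul, Complex.norm_exp]
    rw [mul_left_comm, ← ENNReal.ofReal_mul (by positivity)]
    congr 2
    have := Real.exp_pos (G ζ).re
    field_simp
  rw [hcong, ← key]
  calc ∫⁻ w in (fun ζ => f (exp ζ)) '' S, g (Real.log ‖w‖) * ENNReal.ofReal ((‖w‖ ^ 2)⁻¹)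
      ≤ ∫⁻ w : ℂ, g (Real.log ‖w‖) * ENNReal.ofReal ((‖w‖ ^ 2)⁻¹) := setLIntegral_le_lintegral _ _
    _ = ENNReal.ofReal (2 * π) * ∫⁻ t, g t := polar_log g hg

/-- Comparison of an iterated interval integral with the integral over the half strip. -/
theorem rect_integral_le {F : ℂ → ℝ} (hF : ContinuousOn F LH) (h0 : ∀ ζ, 0 ≤ F ζ)
    {a b : ℝ} (hab : a ≤ b) (hb : b < 0) :
    ENNReal.ofReal (∫ x in a..b, ∫ y in (0 : ℝ)..(2 * π), F (x + y * I))
      ≤ ∫⁻ ζ in {ζ : ℂ | ζ.re < 0 ∧ 0 ≤ ζ.im ∧ ζ.im < 2 * π}, ENNReal.ofReal (F ζ) := by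
  have hpi : (0 : ℝ) ≤ 2 * π := by positivity
  have hcont : ContinuousOn (fun p : ℝ × ℝ => F (p.1 + p.2 * I)) (Icc a b ×ˢ Icc 0 (2 * π)) := by
    apply hF.comp
    · fun_prop
    · intro p hp
      show ((p.1 : ℂ) + p.2 * I).re < 0
      exact (by
        have : ((p.1 : ℂ) + p.2 * I).re = p.1 := by simp
        rw [this]
        exact lt_of_le_of_lt hp.1.2 hb)
  have hint : IntegrableOn (fun p : ℝ × ℝ => F (p.1 + p.2 * I)) (Ioc a b ×ˢ Ioc 0 (2 * π))
      (volume.prod volume) := by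
    apply IntegrableOn.mono_set (t := Icc a b ×ˢ Icc 0 (2 * π))
    · exact hcont.integrableOn_compact (isCompact_Icc.prod isCompact_Icc)
    · exact prod_mono Ioc_subset_Icc_self Ioc_subset_Icc_self
  have h1 : (∫ x in a..b, ∫ y in (0 : ℝ)..(2 * π), F (x + y * I))
      = ∫ p in Ioc a b ×ˢ Ioc 0 (2 * π), F ((p.1 : ℂ) + p.2 * I) ∂(volume.prod volume) := by
    rw [setIntegral_prod _ hint, intervalIntegral.integral_of_le hab]
    apply setIntegral_congr_fun measurableSet_Ioc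
    intro x _
    simp only
    rw [intervalIntegral.integral_of_le hpi]
  rw [h1, ofReal_integral_eq_lintegral_ofReal hint
    (Filter.Eventually.of_forall (fun p => h0 _))]
  -- pass to the complex plane
  have h2 : ∫⁻ p in Ioc a b ×ˢ Ioc 0 (2 * π), ENNReal.ofReal (F ((p.1 : ℂ) + p.2 * I))
        ∂(volume.prod volume)
      = ∫⁻ p in Ioc a b ×ˢ Ico 0 (2 * π), ENNReal.ofReal (F ((p.1 : ℂ) + p.2 * I))
        ∂(volume.prod volume) := by
    rw [← Measure.prod_restrict, ← Measure.prod_restrict]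
    rw [Measure.restrict_congr_set (Ico_ae_eq_Ioc (a := (0 : ℝ)) (b := 2 * π) (μ := volume))]
  rw [h2, ← Measure.volume_eq_prod]
  have h3 : ∫⁻ p in Ioc a b ×ˢ Ico 0 (2 * π), ENNReal.ofReal (F ((p.1 : ℂ) + p.2 * I))
      = ∫⁻ ζ in (measurableEquivRealProd.symm '' (Ioc a b ×ˢ Ico 0 (2 * π))),
          ENNReal.ofReal (F ζ) := by
    rw [← (volume_preserving_equiv_real_prod.symm).setLIntegral_comp_emb
      measurableEquivRealProd.symm.measurableEmbedding]
    apply setLIntegral_congr_fun (measurableSet_Ioc.prod measurableSet_Ico)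
    intro p _
    simp only
    congr 2
    rw [measurableEquivRealProd_symm_apply]
    apply Complex.ext <;> simp
  rw [h3]
  apply lintegral_mono_set
  rintro ζ ⟨p, hp, rfl⟩
  rw [measurableEquivRealProd_symm_apply]
  exact ⟨lt_of_le_of_lt hp.1.2 hb, hp.2.1, hp.2.2⟩

end Pool.Agent.Helper60.Rel
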