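import Mathlib
import Pool.Agent.Helper60.Rel.Base

/-!
# A Green identity on a period rectangle and the Poisson kernel
-/

namespace Pool.Agent.Helper60.Rel
open Complex MeasureTheory Set Metric
open scoped Real ComplexConjugate Interval

theorem rect_subset_LH {a b : ℝ} (hab : a ≤ b) (hb : b < 0) :
    ([[((a : ℂ) + (0 : ℝ) * I).re, ((b : ℂ) + (2 * π : ℝ) * I).re]] ×ℂ
      [[((a : ℂ) + (0 : ℝ) * I).im, ((b : ℂ) + (2 * π : ℝ) * I).im]]) ⊆ LH := by
  intro ζ hζ
  rw [mem_reProdIm] at hζ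
  have h1 := hζ.1
  have r1 : ((a : ℂ) + (0 : ℝ) * I).re = a := by simp
  have r2 : ((b : ℂ) + (2 * π : ℝ) * I).re = b := by simp
  rw [r1, r2, uIcc_of_le hab] at h1
  exact lt_of_le_of_lt h1.2 hb

/-- The real derivative of `Q (Re G) * K`. -/
theorem hasFDerivAt_QK {G K : ℂ → ℂ} {Q q : ℝ → ℝ} (hQ : ∀ t, HasDerivAt Q (q t) t) {ζ : ℂ}
    {G' K' : ℂ} (hG : HasDerivAt G G' ζ) (hK : HasDerivAt K K' ζ) :
    ∃ D : ℂ →L[ℝ] ℂ, HasFDerivAt (fun z : ℂ => ((Q (G z).re : ℝ) : ℂ) * K z) D ζ ∧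
      ∀ v : ℂ, D v = ((q (G ζ).re * (G' * v).re : ℝ) : ℂ) * K ζ
        + ((Q (G ζ).re : ℝ) : ℂ) * (K' * v) := by
  have h1 : HasFDerivAt G _ ζ := hG.hasFDerivAt.restrictScalars ℝ
  have h2 := (Complex.reCLM.hasFDerivAt (x := G ζ)).comp ζ h1
  have h3 := (hQ (G ζ).re).hasFDerivAt.comp ζ h2
  have h4 := (Complex.ofRealCLM.hasFDerivAt (x := Q (G ζ).re)).comp ζ h3
  have h5 : HasFDerivAt K _ ζ := hK.hasFDerivAt.restrictScalars ℝ
  have h6 := h4.mul' h5
  refine ⟨_, h6, ?_⟩
  intro v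
  simp only [add_apply, smul_apply,
    ContinuousLinearMap.comp_apply, Function.comp_apply, reCLM_apply, ofRealCLM_apply,
    smul_eq_mul, ContinuousLinearMap.coe_restrictScalars',
    ContinuousLinearMap.toSpanSingleton_apply,
    MulOpposite.smul_eq_mul_unop, MulOpposite.unop_op]
  push_cast
  have : (v * G').re = (G' * v).re := by rw [mul_comm]
  rw [this]
  ring

/-- Green identity on a period rectangle. -/
theorem green {G K : ℂ → ℂ} (hG : DifferentiableOn ℂ G LH) (hK : DifferentiableOn ℂ K LH)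
    (hGp : ∀ ζ ∈ LH, (G (ζ + 2 * π * I)).re = (G ζ).re)
    (hKp : ∀ ζ ∈ LH, K (ζ + 2 * π * I) = K ζ)
    {Q q : ℝ → ℝ} (hQ : ∀ t, HasDerivAt Q (q t) t) (hq : Continuous q)
    {a b : ℝ} (hab : a ≤ b) (hb : b < 0) :
    (∫ y in (0 : ℝ)..(2 * π), ((Q (G (b + y * I)).re : ℝ) : ℂ) * K (b + y * I))
      - (∫ y in (0 : ℝ)..(2 * π), ((Q (G (a + y * I)).re : ℝ) : ℂ) * K (a + y * I))
      = ∫ x in a..b, ∫ y in (0 : ℝ)..(2 * π),
          ((q (G (x + y * I)).re : ℝ) : ℂ) * K (x + y * I) * conj (deriv G (x + y * I)) := by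
  have hLH : IsOpen LH := isOpen_lt continuous_re continuous_const
  set F : ℂ → ℂ := fun z => ((Q (G z).re : ℝ) : ℂ) * K z with hF
  have hder : ∀ ζ ∈ LH, ∃ D : ℂ →L[ℝ] ℂ, HasFDerivAt F D ζ ∧
      ∀ v : ℂ, D v = ((q (G ζ).re * (deriv G ζ * v).re : ℝ) : ℂ) * K ζ
        + ((Q (G ζ).re : ℝ) : ℂ) * (deriv K ζ * v) := by
    intro ζ hζ
    exact hasFDerivAt_QK hQ (hG.differentiableAt (hLH.mem_nhds hζ)).hasDerivAt
      (hK.differentiableAt (hLH.mem_nhds hζ)).hasDerivAt
  have hval : ∀ ζ ∈ LH, I • fderiv ℝ F ζ 1 - fderiv ℝ F ζ I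
      = I * (((q (G ζ).re : ℝ) : ℂ) * K ζ * conj (deriv G ζ)) := by
    intro ζ hζ
    obtain ⟨D, hD, hDv⟩ := hder ζ hζ
    rw [hD.fderiv, hDv, hDv]
    have e1 : (deriv G ζ * 1).re = (deriv G ζ).re := by rw [mul_one]
    have e2 : (deriv G ζ * I).re = -(deriv G ζ).im := by simp
    have e3 : conj (deriv G ζ) = ((deriv G ζ).re : ℂ) - (deriv G ζ).im * I := by
      apply Complex.ext <;> simp
    rw [e1, e2, e3, smul_eq_mul]
    push_cast
    linear_combination (((q (G ζ).re : ℝ) : ℂ) * K ζ * (deriv G ζ).im) * I_sq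
  have hFd : DifferentiableOn ℝ F LH := fun ζ hζ =>
    let ⟨D, hD, _⟩ := hder ζ hζ
    hD.differentiableAt.differentiableWithinAt
  have hsub := rect_subset_LH hab hb
  have hcont : ContinuousOn (fun ζ => I * (((q (G ζ).re : ℝ) : ℂ) * K ζ * conj (deriv G ζ)))
      LH := by
    apply continuousOn_const.mul
    apply ContinuousOn.mul
    · apply ContinuousOn.mul
      · exact continuous_ofReal.comp_continuousOn
          (hq.comp_continuousOn (continuous_re.comp_continuousOn hG.continuousOn))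
      · exact hK.continuousOn
    · exact continuous_conj.comp_continuousOn (hG.deriv hLH).continuousOn
  have hcomp : IsCompact ([[((a : ℂ) + (0 : ℝ) * I).re, ((b : ℂ) + (2 * π : ℝ) * I).re]] ×ℂ
      [[((a : ℂ) + (0 : ℝ) * I).im, ((b : ℂ) + (2 * π : ℝ) * I).im]]) :=
    isCompact_uIcc.reProdIm isCompact_uIcc
  have key := integral_boundary_rect_of_differentiableOn_real F ((a : ℂ) + (0 : ℝ) * I)
    ((b : ℂ) + (2 * π : ℝ) * I) (hFd.mono hsub) (by
      apply IntegrableOn.congr_fun (hcont.mono hsub |>.integrableOn_compact hcomp)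
      · intro ζ hζ
        exact (hval ζ (hsub hζ)).symm
      · exact hcomp.measurableSet)
  have r1 : ((a : ℂ) + (0 : ℝ) * I).re = a := by simp
  have r2 : ((b : ℂ) + (2 * π : ℝ) * I).re = b := by simp
  have r3 : ((a : ℂ) + (0 : ℝ) * I).im = 0 := by simp
  have r4 : ((b : ℂ) + (2 * π : ℝ) * I).im = 2 * π := by simp
  rw [r1, r2, r3, r4] at key
  have hmem : ∀ x : ℝ, x ≤ b → ∀ y : ℝ, ((x : ℂ) + y * I) ∈ LH := by
    intro x hx y
    show ((x : ℂ) + y * I).re < 0
    simp
    linarith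
  have hedge : (∫ x : ℝ in a..b, F (x + ((0 : ℝ) : ℂ) * I))
      = ∫ x : ℝ in a..b, F (x + ((2 * π : ℝ) : ℂ) * I) := by
    apply intervalIntegral.integral_congr
    intro x hx
    rw [uIcc_of_le hab] at hx
    have hm := hmem x hx.2 0
    have e1 : (x : ℂ) + ((2 * π : ℝ) : ℂ) * I = (x + ((0 : ℝ) : ℂ) * I) + 2 * π * I := by
      push_cast; ring
    simp only [hF]
    rw [e1, hGp _ hm, hKp _ hm]
  rw [hedge, sub_self, zero_add] at key
  have hrhs : (∫ x : ℝ in a..b, ∫ y : ℝ in (0 : ℝ)..(2 * π),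
        I • fderiv ℝ F (x + y * I) 1 - fderiv ℝ F (x + y * I) I)
      = I * ∫ x in a..b, ∫ y in (0 : ℝ)..(2 * π),
          ((q (G (x + y * I)).re : ℝ) : ℂ) * K (x + y * I) * conj (deriv G (x + y * I)) := by
    rw [← intervalIntegral.integral_const_mul]
    apply intervalIntegral.integral_congr
    intro x hx
    rw [uIcc_of_le hab] at hx
    simp only
    rw [← intervalIntegral.integral_const_mul]
    apply intervalIntegral.integral_congr
    intro y _
    exact hval _ (hmem x hx.2 y)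
  rw [hrhs, smul_eq_mul, smul_eq_mul, ← mul_sub] at key
  exact mul_left_cancel₀ I_ne_zero key

/-- The kernel. -/
noncomputable def Kt (θ : ℝ) (ζ : ℂ) : ℂ := exp (ζ - θ * I) / (1 - exp (ζ - θ * I))

theorem norm_exp_sub (θ : ℝ) (ζ : ℂ) : ‖exp (ζ - θ * I)‖ = Real.exp ζ.re := by
  rw [Complex.norm_exp]
  congr 1
  simp

theorem one_sub_ne_zero' {θ : ℝ} {ζ : ℂ} (hζ : ζ ∈ LH) : 1 - exp (ζ - θ * I) ≠ 0 := by
  intro h
  have h1 : exp (ζ - θ * I) = 1 := by linear_combination -h
  have h2 := norm_exp_sub θ ζ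
  rw [h1, norm_one] at h2
  have h3 : Real.exp ζ.re < 1 := Real.exp_lt_one_iff.2 hζ
  linarith

theorem Kt_diff (θ : ℝ) : DifferentiableOn ℂ (Kt θ) LH := by
  intro ζ hζ
  unfold Kt
  apply DifferentiableWithinAt.div
  · fun_prop
  · fun_prop
  · exact one_sub_ne_zero' hζ

theorem Kt_per (θ : ℝ) (ζ : ℂ) : Kt θ (ζ + 2 * π * I) = Kt θ ζ := by
  unfold Kt
  have : ζ + 2 * π * I - θ * I = (ζ - θ * I) + 2 * π * I := by ring
  rw [this, exp_periodic]

theorem Kt_re {θ : ℝ} {ζ : ℂ} (hζ : ζ ∈ LH) :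
    2 * (Kt θ ζ).re + 1
      = (1 - ‖exp (ζ - θ * I)‖ ^ 2) / ‖1 - exp (ζ - θ * I)‖ ^ 2 := by
  have h0 := one_sub_ne_zero' (θ := θ) hζ
  unfold Kt
  set w := exp (ζ - θ * I) with hw
  have h1 : ‖1 - w‖ ^ 2 ≠ 0 := by
    have : ‖1 - w‖ ≠ 0 := norm_ne_zero_iff.2 h0
    positivity
  rw [div_re, ← add_div, eq_div_iff h1]
  rw [← Complex.normSq_eq_norm_sq, ← Complex.normSq_eq_norm_sq] at *
  have h2 : 2 * ((w.re * (1 - w).re + w.im * (1 - w).im) / normSq (1 - w)) * normSq (1 - w)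
      = 2 * (w.re * (1 - w).re + w.im * (1 - w).im) := by
    field_simp
  rw [add_mul, h2, one_mul]
  rw [normSq_apply, normSq_apply]
  simp
  ring

/-- Poisson formula in the form needed here. -/
theorem poisson_Kt {φ : ℂ → ℂ} (hφ : DifferentiableOn ℂ φ (ball 0 1)) (θ : ℝ) {b : ℝ}
    (hb : b < 0) :
    ∫ y in (0 : ℝ)..(2 * π), (2 * (Kt θ (b + y * I)).re + 1) * (φ (exp (b + y * I))).re
      = 2 * π * (φ (exp (2 * b + θ * I))).re := by
  set R := Real.exp b with hR
  have hR1 : R < 1 := Real.exp_lt_one_iff.2 hb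
  have hR0 : 0 < R := Real.exp_pos b
  set w₀ : ℂ := exp (2 * b + θ * I) with hw₀
  have hw₀n : ‖w₀‖ = R ^ 2 := by
    rw [hw₀, Complex.norm_exp, hR, ← Real.exp_nat_mul]
    congr 1
    simp
  have hw₀b : w₀ ∈ ball (0 : ℂ) R := by
    rw [mem_ball_zero_iff, hw₀n]
    nlinarith
  have hcl : DiffContOnCl ℂ φ (ball 0 R) := by
    apply DifferentiableOn.diffContOnCl
    apply hφ.mono
    exact closure_ball_subset_closedBall.trans (closedBall_subset_ball hR1)
  have key := hcl.circleAverage_re_herglotzRieszKernel_smul' hw₀b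
  rw [Real.circleAverage_def] at key
  have key2 := congrArg Complex.re key
  rw [Complex.smul_re] at key2
  have hcm : ∀ y : ℝ, circleMap 0 R y = exp (b + y * I) := by
    intro y
    rw [circleMap, zero_add, hR, Complex.ofReal_exp, ← Complex.exp_add]
  have hint : (∫ (y : ℝ) in (0:ℝ)..2 * π,
      (fun z : ℂ => ((z - 0 + (w₀ - 0)) / (z - 0 - (w₀ - 0))).re • φ z) (circleMap 0 R y)).re
      = ∫ y in (0 : ℝ)..(2 * π),
        (2 * (Kt θ (b + y * I)).re + 1) * (φ (exp (b + y * I))).re := by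
    have hintble : IntervalIntegrable (fun y : ℝ =>
        (fun z : ℂ => ((z - 0 + (w₀ - 0)) / (z - 0 - (w₀ - 0))).re • φ z) (circleMap 0 R y))
        volume 0 (2 * π) := by
      apply ContinuousOn.intervalIntegrable
      have hmaps : ∀ y : ℝ, circleMap 0 R y ∈ ball (0 : ℂ) 1 := by
        intro y
        rw [mem_ball_zero_iff, norm_circleMap_zero, abs_of_pos hR0]
        exact hR1
      have hne : ∀ y : ℝ, circleMap 0 R y - 0 - (w₀ - 0) ≠ 0 := by
        intro y h
        have h1 : circleMap 0 R y = w₀ := by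
          linear_combination h
        have h2 : ‖circleMap 0 R y‖ = R := by
          rw [norm_circleMap_zero, abs_of_pos hR0]
        rw [h1, hw₀n] at h2
        nlinarith
      apply Continuous.continuousOn
      show Continuous (fun y : ℝ => ((circleMap 0 R y - 0 + (w₀ - 0)) /
        (circleMap 0 R y - 0 - (w₀ - 0))).re • φ (circleMap 0 R y))
      have c1 : Continuous (fun y : ℝ => ((circleMap 0 R y - 0 + (w₀ - 0)) /
          (circleMap 0 R y - 0 - (w₀ - 0))).re) := by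
        apply continuous_re.comp
        exact (((continuous_circleMap 0 R).sub continuous_const).add continuous_const).div
          (((continuous_circleMap 0 R).sub continuous_const).sub continuous_const) hne
      have c2 : Continuous (fun y : ℝ => φ (circleMap 0 R y)) :=
        hφ.continuousOn.comp_continuous (continuous_circleMap 0 R) hmaps
      exact c1.smul c2
    have e1 := (Complex.reCLM.intervalIntegral_comp_comm hintble).symm
    rw [reCLM_apply] at e1
    rw [e1]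
    apply intervalIntegral.integral_congr
    intro y _
    simp only [reCLM_apply, Complex.smul_re, smul_eq_mul, sub_zero]
    rw [hcm y]
    congr 1
    have hb' : ((b : ℂ) + y * I) ∈ LH := by
      show ((b : ℂ) + y * I).re < 0
      simpa using hb
    rw [Kt_re hb', norm_exp_sub]
    have f1 := congrFun (poissonKernel_eq_re_herglotzRieszKernel (c := 0) (w := w₀))
      (exp (b + y * I))
    rw [poissonKernel_def, Function.comp_apply, herglotzRieszKernel_def] at f1
    simp only [sub_zero] at f1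
    rw [← f1, hw₀n]
    have f2 : ‖exp ((b : ℂ) + y * I)‖ = R := by
      rw [Complex.norm_exp, hR]; simp
    have f3 : ‖exp ((b : ℂ) + y * I) - w₀‖ = R * ‖1 - exp ((b : ℂ) + y * I - θ * I)‖ := by
      have g1 : exp ((b : ℂ) + y * I) - w₀
          = exp ((b : ℂ) + y * I) * conj (1 - exp ((b : ℂ) + y * I - θ * I)) := by
        rw [map_sub, map_one, ← Complex.exp_conj, mul_sub, mul_one, ← Complex.exp_add, hw₀]
        congr 2
        simp only [map_add, map_sub, map_mul, conj_ofReal, conj_I]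
        ring
      rw [g1, norm_mul, f2, Complex.norm_conj]
    rw [f2, f3]
    have f4 : (((b : ℂ) + y * I).re) = b := by simp
    rw [f4, ← hR, mul_pow]
    have f5 : (R ^ 2 - (R ^ 2) ^ 2) = R ^ 2 * (1 - R ^ 2) := by ring
    rw [f5, mul_div_mul_left _ _ (by positivity)]
  rw [hint] at key2
  rw [← key2, smul_eq_mul]
  have hpi : (2 * π) ≠ 0 := by positivity
  rw [← mul_assoc, mul_inv_cancel₀ hpi, one_mul]

end Pool.Agent.Helper60.Rel
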