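import Mathlib
import Pool.Agent.Helper60.Rel.Green
import Pool.Agent.Helper60.Rel.Log

/-!
# Logarithmic energy
-/

namespace Pool.Agent.Helper60.Rel
open Complex MeasureTheory Set Metric
open scoped Real ComplexConjugate Interval

/-- Mean value property. -/
theorem mean_value {φ : ℂ → ℂ} (hφ : DifferentiableOn ℂ φ (ball 0 1)) {b : ℝ}
    (hb : b < 0) :
    ∫ y in (0 : ℝ)..(2 * π), (φ (exp (b + y * I))).re = 2 * π * (φ 0).re := by
  set R := Real.exp b with hR
  have hR1 : R < 1 := Real.exp_lt_one_iff.2 hb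
  have hR0 : 0 < R := Real.exp_pos b
  have hcl : DiffContOnCl ℂ φ (ball 0 |R|) := by
    rw [abs_of_pos hR0]
    apply DifferentiableOn.diffContOnCl
    apply hφ.mono
    exact closure_ball_subset_closedBall.trans (closedBall_subset_ball hR1)
  have key := hcl.circleAverage
  rw [Real.circleAverage_def] at key
  have key2 := congrArg Complex.re key
  rw [Complex.smul_re] at key2
  have hcm : ∀ y : ℝ, circleMap 0 R y = exp (b + y * I) := by
    intro y
    rw [circleMap, zero_add, hR, Complex.ofReal_exp, ← Complex.exp_add]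
  have hmaps : ∀ y : ℝ, circleMap 0 R y ∈ ball (0 : ℂ) 1 := by
    intro y
    rw [mem_ball_zero_iff, norm_circleMap_zero, abs_of_pos hR0]
    exact hR1
  have hintble : IntervalIntegrable (fun y : ℝ => φ (circleMap 0 R y)) volume 0 (2 * π) :=
    (hφ.continuousOn.comp_continuous (continuous_circleMap 0 R) hmaps).intervalIntegrable _ _
  have e1 := (Complex.reCLM.intervalIntegral_comp_comm hintble).symm
  rw [reCLM_apply] at e1
  rw [e1] at key2
  have e2 : (∫ y in (0 : ℝ)..(2 * π), (φ (exp (b + y * I))).re)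
      = ∫ (x : ℝ) in (0:ℝ)..2 * π, reCLM (φ (circleMap 0 R x)) := by
    apply intervalIntegral.integral_congr
    intro y _
    simp only [reCLM_apply]
    rw [hcm y]
  rw [e2, ← key2, smul_eq_mul]
  have hpi : (2 * π) ≠ 0 := by positivity
  rw [← mul_assoc, mul_inv_cancel₀ hpi, one_mul]

/-- `-log (1 - z e^{-iθ})`. -/
noncomputable def phiT (θ : ℝ) (z : ℂ) : ℂ := -log (1 - z * exp (-(θ * I)))

theorem phiT_slit {θ : ℝ} {z : ℂ} (hz : z ∈ ball (0 : ℂ) 1) :
    1 - z * exp (-(θ * I)) ∈ slitPlane := by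
  rw [mem_ball_zero_iff] at hz
  left
  have h1 : ‖z * exp (-(θ * I))‖ = ‖z‖ := by
    rw [norm_mul, Complex.norm_exp]; simp
  have h2 : (z * exp (-(θ * I))).re ≤ ‖z * exp (-(θ * I))‖ := Complex.re_le_norm _
  rw [sub_re, one_re]
  linarith

theorem phiT_diff (θ : ℝ) : DifferentiableOn ℂ (phiT θ) (ball 0 1) := by
  intro z hz
  unfold phiT
  apply DifferentiableWithinAt.neg
  apply DifferentiableWithinAt.clog
  · fun_prop
  · exact phiT_slit hz

theorem phiT_zero (θ : ℝ) : phiT θ 0 = 0 := by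
  unfold phiT; simp

theorem phiT_re (θ : ℝ) (z : ℂ) :
    (phiT θ z).re = -Real.log ‖1 - z * exp (-(θ * I))‖ := by
  unfold phiT
  rw [neg_re, log_re]

theorem phiT_deriv {θ : ℝ} {ζ : ℂ} (hζ : ζ ∈ LH) :
    HasDerivAt (fun ζ => phiT θ (exp ζ)) (Kt θ ζ) ζ := by
  have hz := exp_mem_ball hζ
  have h1 : HasDerivAt (fun ζ : ℂ => 1 - exp ζ * exp (-(θ * I)))
      (-(exp ζ * exp (-(θ * I)))) ζ := by
    have := ((Complex.hasDerivAt_exp ζ).mul_const (exp (-(θ * I)))).const_sub 1
    exact this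
  have h2 := (h1.clog (phiT_slit (θ := θ) hz)).neg
  refine h2.congr_deriv ?_
  unfold Kt
  rw [sub_eq_add_neg ζ, exp_add]
  rw [neg_div, neg_neg]

/-- Combination of kernels. -/
noncomputable def KK {ι : Type} [Fintype ι] (θ γ : ι → ℝ) (ζ : ℂ) : ℂ :=
  ∑ i, (γ i : ℂ) * Kt (θ i) ζ

/-- Combination of the logarithms. -/
noncomputable def PP {ι : Type} [Fintype ι] (θ γ : ι → ℝ) (z : ℂ) : ℂ :=
  ∑ i, (γ i : ℂ) * phiT (θ i) z

variable {ι : Type} [Fintype ι]

theorem KK_diff (θ γ : ι → ℝ) : DifferentiableOn ℂ (KK θ γ) LH := by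
  unfold KK
  apply DifferentiableOn.fun_sum
  intro i _
  exact (Kt_diff (θ i)).const_mul _

theorem KK_per (θ γ : ι → ℝ) (ζ : ℂ) : KK θ γ (ζ + 2 * π * I) = KK θ γ ζ := by
  unfold KK
  simp only [Kt_per]

theorem PP_diff (θ γ : ι → ℝ) : DifferentiableOn ℂ (PP θ γ) (ball 0 1) := by
  unfold PP
  apply DifferentiableOn.fun_sum
  intro i _
  exact (phiT_diff (θ i)).const_mul _

theorem PP_deriv (θ γ : ι → ℝ) {ζ : ℂ} (hζ : ζ ∈ LH) :
    HasDerivAt (fun ζ => PP θ γ (exp ζ)) (KK θ γ ζ) ζ := by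
  unfold PP KK
  apply HasDerivAt.fun_sum
  intro i _
  exact (phiT_deriv hζ).const_mul _

theorem KK_re (θ γ : ι → ℝ) (ζ : ℂ) : (KK θ γ ζ).re = ∑ i, γ i * (Kt (θ i) ζ).re := by
  unfold KK
  rw [re_sum]
  apply Finset.sum_congr rfl
  intro i _
  rw [Complex.re_ofReal_mul]

theorem PP_re (θ γ : ι → ℝ) (z : ℂ) : (PP θ γ z).re = ∑ i, γ i * (phiT (θ i) z).re := by
  unfold PP
  rw [re_sum]
  apply Finset.sum_congr rfl
  intro i _
  rw [Complex.re_ofReal_mul]

theorem mem_LH_add {b : ℝ} (hb : b < 0) (y : ℝ) : ((b : ℂ) + y * I) ∈ LH := by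
  show ((b : ℂ) + y * I).re < 0
  simpa using hb

theorem continuous_vert {F : ℂ → ℂ} (hF : ContinuousOn F LH) {b : ℝ} (hb : b < 0) :
    Continuous (fun y : ℝ => F (b + y * I)) := by
  apply hF.comp_continuous
  · fun_prop
  · intro y; exact mem_LH_add hb y

/-- The energy of the weights at level `b`. -/
noncomputable def En (θ γ : ι → ℝ) (b : ℝ) : ℝ :=
  ∑ i, ∑ j, γ i * γ j * (-Real.log ‖1 - exp (2 * b + ((θ i : ℂ) - θ j) * I)‖)

theorem boundary_term (θ γ : ι → ℝ) {b : ℝ} (hb : b < 0) :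
    ∫ y in (0 : ℝ)..(2 * π), (PP θ γ (exp (b + y * I))).re * (KK θ γ (b + y * I)).re
      = π * En θ γ b := by
  have hcP : Continuous (fun y : ℝ => (PP θ γ (exp (b + y * I))).re) := by
    apply continuous_re.comp
    have : ContinuousOn (fun ζ => PP θ γ (exp ζ)) LH := fun ζ hζ =>
      (PP_deriv θ γ hζ).continuousAt.continuousWithinAt
    exact continuous_vert this hb
  have hcK : ∀ i, Continuous (fun y : ℝ => (Kt (θ i) (b + y * I)).re) := fun i =>
    continuous_re.comp (continuous_vert (Kt_diff (θ i)).continuousOn hb)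
  have h1 : ∀ y : ℝ, (PP θ γ (exp (b + y * I))).re * (KK θ γ (b + y * I)).re
      = ∑ i, γ i / 2 * (((2 * (Kt (θ i) (b + y * I)).re + 1) *
          (PP θ γ (exp (b + y * I))).re) - (PP θ γ (exp (b + y * I))).re) := by
    intro y
    rw [KK_re, Finset.mul_sum]
    apply Finset.sum_congr rfl
    intro i _
    ring
  simp_rw [h1]
  rw [intervalIntegral.integral_finsetSum]
  · have h2 : ∀ i, (∫ y in (0 : ℝ)..(2 * π), γ i / 2 * (((2 * (Kt (θ i) (b + y * I)).re + 1) *
          (PP θ γ (exp (b + y * I))).re) - (PP θ γ (exp (b + y * I))).re))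
        = π * (γ i * (PP θ γ (exp (2 * b + θ i * I))).re) := by
      intro i
      rw [intervalIntegral.integral_const_mul, intervalIntegral.integral_sub,
        poisson_Kt (PP_diff θ γ) (θ i) hb, mean_value (PP_diff θ γ) hb]
      · have : (PP θ γ 0).re = 0 := by
          rw [PP_re]
          simp [phiT_zero]
        rw [this]; ring
      · apply Continuous.intervalIntegrable
        exact ((continuous_const.mul (hcK i)).add continuous_const).mul hcP
      · exact hcP.intervalIntegrable _ _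
    rw [Finset.sum_congr rfl (fun i _ => h2 i), ← Finset.mul_sum]
    congr 1
    unfold En
    apply Finset.sum_congr rfl
    intro i _
    rw [PP_re, Finset.mul_sum]
    apply Finset.sum_congr rfl
    intro j _
    rw [phiT_re, ← Complex.exp_add]
    have : (2 * (b : ℂ) + θ i * I + -(θ j * I)) = 2 * b + ((θ i : ℂ) - θ j) * I := by ring
    rw [this]; ring
  · intro i _
    apply Continuous.intervalIntegrable
    exact continuous_const.mul ((((continuous_const.mul (hcK i)).add continuous_const).mul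
      hcP).sub hcP)

theorem energy_bound (θ γ : ι → ℝ) (hγ : ∀ i, 0 ≤ γ i) {a b : ℝ} (hab : a ≤ b) (hb : b < 0) :
    ∫ x in a..b, ∫ y in (0 : ℝ)..(2 * π), ‖KK θ γ (x + y * I)‖ ^ 2
      ≤ π * (En θ γ b + (∑ i, γ i) ^ 2) := by
  have ha : a < 0 := lt_of_le_of_lt hab hb
  have hL : DifferentiableOn ℂ (fun ζ => PP θ γ (exp ζ)) LH := fun ζ hζ =>
    (PP_deriv θ γ hζ).differentiableAt.differentiableWithinAt
  have hg := green hL (KK_diff θ γ)
    (fun ζ _ => by rw [exp_periodic]) (fun ζ _ => KK_per θ γ ζ)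
    (Q := fun t => t) (q := fun _ => 1) (fun t => hasDerivAt_id t) continuous_const hab hb
  have hder : ∀ x : ℝ, x < 0 → ∀ y : ℝ,
      deriv (fun ζ => PP θ γ (exp ζ)) (x + y * I) = KK θ γ (x + y * I) := fun x hx y =>
    (PP_deriv θ γ (mem_LH_add hx y)).deriv
  have hR : (∫ x in a..b, ∫ y in (0 : ℝ)..(2 * π),
      ((1 : ℝ) : ℂ) * KK θ γ (x + y * I) * conj (deriv (fun ζ => PP θ γ (exp ζ)) (x + y * I)))
      = ((∫ x in a..b, ∫ y in (0 : ℝ)..(2 * π), ‖KK θ γ (x + y * I)‖ ^ 2 : ℝ) : ℂ) := by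
    rw [← intervalIntegral.integral_ofReal]
    apply intervalIntegral.integral_congr
    intro x hx
    rw [uIcc_of_le hab] at hx
    simp only
    rw [← intervalIntegral.integral_ofReal]
    apply intervalIntegral.integral_congr
    intro y _
    simp only
    rw [hder x (lt_of_le_of_lt hx.2 hb) y, ofReal_one, one_mul, Complex.mul_conj,
      Complex.normSq_eq_norm_sq]
  rw [hR] at hg
  have hedge : ∀ c : ℝ, c < 0 → (∫ y in (0 : ℝ)..(2 * π),
      (((PP θ γ (exp (c + y * I))).re : ℝ) : ℂ) * KK θ γ (c + y * I)).re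
      = π * En θ γ c := by
    intro c hc
    rw [← boundary_term θ γ hc]
    have hcP : Continuous (fun y : ℝ => (PP θ γ (exp (c + y * I))).re) :=
      continuous_re.comp (continuous_vert hL.continuousOn hc)
    have hcK := continuous_vert (KK_diff θ γ).continuousOn hc
    have hi : IntervalIntegrable (fun y : ℝ =>
        (((PP θ γ (exp (c + y * I))).re : ℝ) : ℂ) * KK θ γ (c + y * I)) volume 0 (2 * π) :=
      ((continuous_ofReal.comp hcP).mul hcK).intervalIntegrable _ _
    have e1 := (Complex.reCLM.intervalIntegral_comp_comm hi)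
    rw [reCLM_apply] at e1
    rw [← e1]
    apply intervalIntegral.integral_congr
    intro y _
    simp only [reCLM_apply]
    rw [Complex.re_ofReal_mul]
  have hg2 := congrArg Complex.re hg
  rw [sub_re, hedge b hb, hedge a ha, ofReal_re] at hg2
  rw [← hg2]
  have hEa : -(∑ i, γ i) ^ 2 ≤ En θ γ a := by
    unfold En
    rw [pow_two, Finset.sum_mul_sum, ← Finset.sum_neg_distrib]
    apply Finset.sum_le_sum
    intro i _
    rw [← Finset.sum_neg_distrib]
    apply Finset.sum_le_sum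
    intro j _
    have hij : 0 ≤ γ i * γ j := mul_nonneg (hγ i) (hγ j)
    have h1 : ‖1 - exp (2 * (a : ℂ) + ((θ i : ℂ) - θ j) * I)‖ ≤ 2 := by
      calc ‖1 - exp (2 * (a : ℂ) + ((θ i : ℂ) - θ j) * I)‖
          ≤ ‖(1 : ℂ)‖ + ‖exp (2 * (a : ℂ) + ((θ i : ℂ) - θ j) * I)‖ := norm_sub_le _ _
        _ ≤ 1 + 1 := by
            rw [norm_one, Complex.norm_exp]
            have : (2 * (a : ℂ) + ((θ i : ℂ) - θ j) * I).re = 2 * a := by simp
            rw [this]
            have : Real.exp (2 * a) ≤ 1 := Real.exp_le_one_iff.2 (by linarith)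
            linarith
        _ = 2 := by norm_num
    have h2 : Real.log ‖1 - exp (2 * (a : ℂ) + ((θ i : ℂ) - θ j) * I)‖ ≤ 1 := by
      have hpos : 0 < ‖1 - exp (2 * (a : ℂ) + ((θ i : ℂ) - θ j) * I)‖ := by
        apply norm_pos_iff.2
        intro h0
        have h1 : exp (2 * (a : ℂ) + ((θ i : ℂ) - θ j) * I) = 1 := by linear_combination -h0
        have h2 : ‖exp (2 * (a : ℂ) + ((θ i : ℂ) - θ j) * I)‖ = 1 := by rw [h1, norm_one]
        rw [Complex.norm_exp] at h2
        have h3 : (2 * (a : ℂ) + ((θ i : ℂ) - θ j) * I).re = 2 * a := by simp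
        rw [h3] at h2
        have : Real.exp (2 * a) < 1 := Real.exp_lt_one_iff.2 (by linarith)
        linarith
      have h3 : Real.log ‖1 - exp (2 * (a : ℂ) + ((θ i : ℂ) - θ j) * I)‖
          ≤ ‖1 - exp (2 * (a : ℂ) + ((θ i : ℂ) - θ j) * I)‖ - 1 := Real.log_le_sub_one_of_pos hpos
      linarith
    nlinarith
  have hpi : 0 < π := Real.pi_pos
  nlinarith

end Pool.Agent.Helper60.Rel
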