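import Mathlib
import Pool.Agent.Helper60.Rel.Energy

/-!
# Hyperbolic Lipschitz estimates for `G`
-/

namespace Pool.Agent.Helper60.Rel
open Complex MeasureTheory Set Metric
open scoped Real

/-- Data with a derivative bound. -/
structure Bnd (f G lam : ℂ → ℂ) (A : ℝ) : Prop where
  D : LogData f G lam
  A0 : 0 ≤ A
  der : ∀ ζ ∈ LH, -1 ≤ ζ.re → ‖deriv G ζ‖ ≤ A / (-ζ.re)

variable {f G lam : ℂ → ℂ} {A : ℝ}

theorem re_neg_add (r τ : ℝ) : (-(r : ℂ) + τ * I).re = -r := by simp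

theorem mem_LH_neg {r : ℝ} (hr : 0 < r) (τ : ℝ) : (-(r : ℂ) + τ * I) ∈ LH := by
  show (-(r : ℂ) + τ * I).re < 0
  rw [re_neg_add]
  linarith

theorem Bnd.vert (h : Bnd f G lam A) {s t : ℝ} (hs : 0 < s) (hs1 : s ≤ 1) (ht : 0 < t)
    (ht1 : t ≤ 1) (τ : ℝ) :
    ‖G (-(s : ℂ) + τ * I) - G (-(t : ℂ) + τ * I)‖ ≤ A * |Real.log s - Real.log t| := by
  have key : ∀ x ∈ Iic (0 : ℝ), HasDerivWithinAt
      (fun x : ℝ => G (-((Real.exp x : ℝ) : ℂ) + τ * I))
      (deriv G (-((Real.exp x : ℝ) : ℂ) + τ * I) * (-((Real.exp x : ℝ) : ℂ))) (Iic 0) x := by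
    intro x hx
    have hm : (-((Real.exp x : ℝ) : ℂ) + τ * I) ∈ LH := mem_LH_neg (Real.exp_pos x) τ
    have h1 : HasDerivAt G (deriv G (-((Real.exp x : ℝ) : ℂ) + τ * I))
        (-((Real.exp x : ℝ) : ℂ) + τ * I) :=
      (h.D.Gdiff.differentiableAt (isOpen_LH.mem_nhds hm)).hasDerivAt
    have h2 : HasDerivAt (fun x : ℝ => (-((Real.exp x : ℝ) : ℂ) + τ * I))
        (-((Real.exp x : ℝ) : ℂ)) x := by
      have := ((Real.hasDerivAt_exp x).ofReal_comp).neg.add_const ((τ : ℂ) * I)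
      exact this
    exact (h1.comp x h2).hasDerivWithinAt
  have bound : ∀ x ∈ Iic (0 : ℝ),
      ‖deriv G (-((Real.exp x : ℝ) : ℂ) + τ * I) * (-((Real.exp x : ℝ) : ℂ))‖ ≤ A := by
    intro x hx
    have hx' : x ≤ 0 := hx
    have hm : (-((Real.exp x : ℝ) : ℂ) + τ * I) ∈ LH := mem_LH_neg (Real.exp_pos x) τ
    have hre : (-((Real.exp x : ℝ) : ℂ) + τ * I).re = -Real.exp x := re_neg_add _ _
    have hex : Real.exp x ≤ 1 := Real.exp_le_one_iff.2 hx'
    have h1 := h.der _ hm (by rw [hre]; linarith)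
    rw [hre, neg_neg] at h1
    rw [norm_mul, norm_neg, Complex.norm_real, Real.norm_eq_abs, abs_of_pos (Real.exp_pos x)]
    calc ‖deriv G (-((Real.exp x : ℝ) : ℂ) + τ * I)‖ * Real.exp x
        ≤ A / Real.exp x * Real.exp x := by gcongr
      _ = A := by field_simp
  have hls : Real.log s ∈ Iic (0 : ℝ) := Real.log_nonpos hs.le hs1
  have hlt : Real.log t ∈ Iic (0 : ℝ) := Real.log_nonpos ht.le ht1
  have := (convex_Iic (0 : ℝ)).norm_image_sub_le_of_norm_hasDerivWithin_le key bound hlt hls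
  simp only [Real.exp_log hs, Real.exp_log ht] at this
  rw [Real.norm_eq_abs] at this
  exact this

theorem Bnd.horiz (h : Bnd f G lam A) {S : ℝ} (hS : 0 < S) (hS1 : S ≤ 1) (τ θ : ℝ) :
    ‖G (-(S : ℂ) + τ * I) - G (-(S : ℂ) + θ * I)‖ ≤ A / S * |τ - θ| := by
  have hm : ∀ y : ℝ, (-(S : ℂ) + y * I) ∈ LH := by
    intro y
    show (-(S : ℂ) + y * I).re < 0
    simp [hS]
  have key : ∀ y ∈ (univ : Set ℝ), HasDerivWithinAt
      (fun y : ℝ => G (-(S : ℂ) + y * I)) (deriv G (-(S : ℂ) + y * I) * I) univ y := by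
    intro y _
    have h1 : HasDerivAt G (deriv G (-(S : ℂ) + y * I)) (-(S : ℂ) + y * I) :=
      (h.D.Gdiff.differentiableAt (isOpen_LH.mem_nhds (hm y))).hasDerivAt
    have h2 : HasDerivAt (fun y : ℝ => (-(S : ℂ) + y * I)) I y := by
      have := ((hasDerivAt_id y).ofReal_comp.mul_const I).const_add (-(S : ℂ))
      simpa using this
    exact (h1.comp y h2).hasDerivWithinAt
  have bound : ∀ y ∈ (univ : Set ℝ), ‖deriv G (-(S : ℂ) + y * I) * I‖ ≤ A / S := by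
    intro y _
    have hre : (-(S : ℂ) + y * I).re = -S := by simp
    have h1 := h.der _ (hm y) (by rw [hre]; linarith)
    rw [hre, neg_neg] at h1
    rw [norm_mul, Complex.norm_I, mul_one]
    exact h1
  have := convex_univ.norm_image_sub_le_of_norm_hasDerivWithin_le key bound
    (mem_univ θ) (mem_univ τ)
  rw [Real.norm_eq_abs] at this
  exact this

theorem LogData.re_shift (h : LogData f G lam) (ζ : ℂ) (k : ℤ) :
    (G (ζ + k * (2 * π * I))).re = (G ζ).re := by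
  rw [h.Gdef, h.Gdef, Complex.exp_periodic.int_mul k ζ, add_re, add_re]
  congr 1
  simp

/-- Lower bound for the distance to `1`. -/
theorem dist_one_lower {σ φ : ℝ} (hσ : 0 < σ) (hσ1 : σ ≤ 1) (hφ : |φ| ≤ π) :
    max σ (min 1 |φ|) ≤ 5 * ‖1 - exp (-(σ : ℂ) + φ * I)‖ := by
  have hre : (1 - exp (-(σ : ℂ) + φ * I)).re = 1 - Real.exp (-σ) * Real.cos φ := by
    rw [sub_re, one_re, Complex.exp_re]
    simp
  have him : (1 - exp (-(σ : ℂ) + φ * I)).im = - (Real.exp (-σ) * Real.sin φ) := by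
    rw [sub_im, one_im, Complex.exp_im]
    simp
  have hexp1 : Real.exp (-σ) ≤ 1 - σ / 2 := by
    have h1 : (1 : ℝ) + σ ≤ Real.exp σ := by linarith [Real.add_one_le_exp σ]
    rw [Real.exp_neg, inv_le_comm₀ (Real.exp_pos σ) (by linarith)]
    calc (1 - σ / 2)⁻¹ ≤ 1 + σ := by
          rw [inv_le_comm₀ (by linarith) (by linarith)]
          rw [inv_le_iff_one_le_mul₀ (by linarith)]
          nlinarith
      _ ≤ Real.exp σ := h1
  have hexp2 : (1 : ℝ) / 3 ≤ Real.exp (-σ) := by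
    rw [Real.exp_neg, ← one_div]
    apply one_div_le_one_div_of_le (Real.exp_pos σ)
    have h2 : Real.exp σ ≤ Real.exp 1 := Real.exp_le_exp.2 hσ1
    have h3 := Real.exp_one_lt_d9
    linarith
  apply max_le
  · have h1 : (1 - exp (-(σ : ℂ) + φ * I)).re ≤ ‖1 - exp (-(σ : ℂ) + φ * I)‖ :=
      Complex.re_le_norm _
    rw [hre] at h1
    have h2 : Real.exp (-σ) * Real.cos φ ≤ Real.exp (-σ) := by
      have := Real.cos_le_one φ
      have := Real.exp_pos (-σ)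
      nlinarith
    linarith
  · rcases le_total |φ| (π / 2) with hc | hc
    · have h1 : |(1 - exp (-(σ : ℂ) + φ * I)).im| ≤ ‖1 - exp (-(σ : ℂ) + φ * I)‖ :=
        Complex.abs_im_le_norm _
      rw [him, abs_neg, abs_mul, abs_of_pos (Real.exp_pos _)] at h1
      have h2 : 2 / π * |φ| ≤ |Real.sin φ| := Real.mul_abs_le_abs_sin hc
      have h3 : (5 : ℝ) / 8 * |φ| ≤ 2 / π * |φ| := by
        apply mul_le_mul_of_nonneg_right _ (abs_nonneg φ)
        rw [div_le_div_iff₀ (by norm_num) Real.pi_pos]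
        have := Real.pi_lt_d2
        linarith
      have h4 : (1 : ℝ) / 3 * (5 / 8 * |φ|) ≤ Real.exp (-σ) * |Real.sin φ| := by
        apply mul_le_mul hexp2 (by linarith) (by positivity) (Real.exp_pos _).le
      have h5 : min 1 |φ| ≤ |φ| := min_le_right _ _
      have h6 := abs_nonneg φ
      linarith
    · have h1 : (1 - exp (-(σ : ℂ) + φ * I)).re ≤ ‖1 - exp (-(σ : ℂ) + φ * I)‖ :=
        Complex.re_le_norm _
      rw [hre] at h1
      have h2 : Real.cos φ ≤ 0 := by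
        rw [← Real.cos_abs]
        apply Real.cos_nonpos_of_pi_div_two_le_of_le hc
        have := Real.pi_pos
        linarith
      have h3 : min 1 |φ| ≤ 1 := min_le_left _ _
      have := Real.exp_pos (-σ)
      nlinarith

theorem norm_one_sub_exp_pos {σ : ℝ} (hσ : 0 < σ) (φ : ℝ) :
    0 < ‖1 - exp (-(σ : ℂ) + φ * I)‖ := by
  apply norm_pos_iff.2
  intro h0
  have h1 : exp (-(σ : ℂ) + φ * I) = 1 := by linear_combination -h0
  have h2 : ‖exp (-(σ : ℂ) + φ * I)‖ = 1 := by rw [h1, norm_one]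
  rw [Complex.norm_exp] at h2
  have h3 : (-(σ : ℂ) + φ * I).re = -σ := by simp
  rw [h3] at h2
  have : Real.exp (-σ) < 1 := Real.exp_lt_one_iff.2 (by linarith)
  linarith

/-- The main Lipschitz estimate. -/
theorem Bnd.re_diff (h : Bnd f G lam A) {σ : ℝ} (hσ : 0 < σ) (hσ1 : σ ≤ 1) (τ θ : ℝ) :
    |(G (-((σ / 2 : ℝ) : ℂ) + τ * I)).re - (G (-(σ : ℂ) + θ * I)).re|
      ≤ A * (2 * (Real.log ‖1 - exp (-(σ : ℂ) + ((τ - θ : ℝ) : ℂ) * I)‖ - Real.log σ) + 9) := by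
  -- reduce to |τ - θ| ≤ π
  obtain ⟨k, hk⟩ : ∃ k : ℤ, |τ - θ - k * (2 * π)| ≤ π := by
    refine ⟨round ((τ - θ) / (2 * π)), ?_⟩
    have h1 := abs_sub_round ((τ - θ) / (2 * π))
    have h2 : τ - θ - (round ((τ - θ) / (2 * π)) : ℝ) * (2 * π)
        = ((τ - θ) / (2 * π) - round ((τ - θ) / (2 * π))) * (2 * π) := by
      have := Real.pi_pos
      field_simp
    rw [h2, abs_mul, abs_of_pos (by positivity : (0 : ℝ) < 2 * π)]
    have := Real.pi_pos
    nlinarith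
  set τ' := τ - k * (2 * π) with hτ'
  have e1 : (G (-((σ / 2 : ℝ) : ℂ) + τ * I)).re = (G (-((σ / 2 : ℝ) : ℂ) + τ' * I)).re := by
    rw [← h.D.re_shift (-((σ / 2 : ℝ) : ℂ) + τ' * I) k]
    congr 2
    rw [hτ']; push_cast; ring
  have e2 : exp (-(σ : ℂ) + ((τ - θ : ℝ) : ℂ) * I) = exp (-(σ : ℂ) + ((τ' - θ : ℝ) : ℂ) * I) := by
    rw [← Complex.exp_periodic.int_mul k (-(σ : ℂ) + ((τ' - θ : ℝ) : ℂ) * I)]
    congr 1
    rw [hτ']; push_cast; ring
  rw [e1, e2]
  have hφ : |τ' - θ| ≤ π := by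
    have : τ' - θ = τ - θ - k * (2 * π) := by rw [hτ']; ring
    rw [this]; exact hk
  set S := max σ (min 1 |τ' - θ|) with hSdef
  have hS0 : 0 < S := lt_of_lt_of_le hσ (le_max_left _ _)
  have hS1 : S ≤ 1 := max_le hσ1 (min_le_left _ _)
  have hσS : σ ≤ S := le_max_left _ _
  have hS5 := dist_one_lower hσ hσ1 hφ
  rw [← hSdef] at hS5
  have hpos := norm_one_sub_exp_pos hσ (τ' - θ)
  -- three pieces
  have p1 := h.vert (s := σ / 2) (t := S) (by linarith) (by linarith) hS0 hS1 τ'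
  have p2 := h.horiz hS0 hS1 τ' θ
  have p3 := h.vert (s := S) (t := σ) hS0 hS1 hσ hσ1 θ
  have q2 : A / S * |τ' - θ| ≤ A * π := by
    have h1 : |τ' - θ| ≤ π * S := by
      have hpi := Real.pi_gt_three
      rcases le_total |τ' - θ| 1 with hc | hc
      · have : |τ' - θ| ≤ S := by
          rw [hSdef, min_eq_right hc]; exact le_max_right _ _
        nlinarith
      · have : 1 ≤ S := by
          rw [hSdef, min_eq_left hc]; exact le_max_right _ _
        nlinarith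
    rw [div_mul_eq_mul_div, div_le_iff₀ hS0]
    have := h.A0
    nlinarith
  have hlog1 : Real.log (σ / 2) = Real.log σ - Real.log 2 := by
    rw [Real.log_div hσ.ne' (by norm_num)]
  have hlogS : Real.log σ ≤ Real.log S := Real.log_le_log hσ hσS
  have hlog2 : 0 < Real.log 2 := Real.log_pos (by norm_num)
  rw [hlog1, abs_of_nonpos (by linarith)] at p1
  rw [abs_of_nonneg (by linarith)] at p3
  have hS6 : Real.log S ≤ Real.log 5
      + Real.log ‖1 - exp (-(σ : ℂ) + ((τ' - θ : ℝ) : ℂ) * I)‖ := by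
    rw [← Real.log_mul (by norm_num) hpos.ne']
    exact Real.log_le_log hS0 hS5
  have hl5 : Real.log 5 ≤ 2 := by
    have : Real.log 5 ≤ Real.log (Real.exp 2) := by
      apply Real.log_le_log (by norm_num)
      have h1 : Real.exp 2 = Real.exp 1 * Real.exp 1 := by rw [← Real.exp_add]; norm_num
      have h2 := Real.exp_one_gt_d9
      rw [h1]; nlinarith
    rw [Real.log_exp] at this
    exact this
  have hl2 : Real.log 2 ≤ 1 := by
    have := Real.log_two_lt_d9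
    linarith
  have htri : |(G (-((σ / 2 : ℝ) : ℂ) + τ' * I)).re - (G (-(σ : ℂ) + θ * I)).re|
      ≤ ‖G (-((σ / 2 : ℝ) : ℂ) + τ' * I) - G (-(S : ℂ) + τ' * I)‖
        + ‖G (-(S : ℂ) + τ' * I) - G (-(S : ℂ) + θ * I)‖
        + ‖G (-(S : ℂ) + θ * I) - G (-(σ : ℂ) + θ * I)‖ := by
    calc |(G (-((σ / 2 : ℝ) : ℂ) + τ' * I)).re - (G (-(σ : ℂ) + θ * I)).re|
        = |(G (-((σ / 2 : ℝ) : ℂ) + τ' * I) - G (-(σ : ℂ) + θ * I)).re| := by rw [sub_re]
      _ ≤ ‖G (-((σ / 2 : ℝ) : ℂ) + τ' * I) - G (-(σ : ℂ) + θ * I)‖ := Complex.abs_re_le_norm _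
      _ = ‖(G (-((σ / 2 : ℝ) : ℂ) + τ' * I) - G (-(S : ℂ) + τ' * I))
        + (G (-(S : ℂ) + τ' * I) - G (-(S : ℂ) + θ * I))
        + (G (-(S : ℂ) + θ * I) - G (-(σ : ℂ) + θ * I))‖ := by congr 1; ring
      _ ≤ _ := norm_add₃_le
  have hA := h.A0
  have hpi := Real.pi_lt_d2
  have e3 : A * π ≤ A * 3.15 := mul_le_mul_of_nonneg_left hpi.le hA
  calc |(G (-((σ / 2 : ℝ) : ℂ) + τ' * I)).re - (G (-(σ : ℂ) + θ * I)).re|
      ≤ A * -(Real.log σ - Real.log 2 - Real.log S) + A * π + A * (Real.log S - Real.log σ) := by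
        linarith
    _ ≤ A * -(Real.log σ - Real.log 2 - Real.log S) + A * 3.15 + A * (Real.log S - Real.log σ) := by
        linarith
    _ = A * (2 * (Real.log S - Real.log σ) + Real.log 2 + 3.15) := by ring
    _ ≤ A * (2 * (Real.log ‖1 - exp (-(σ : ℂ) + ((τ' - θ : ℝ) : ℂ) * I)‖ - Real.log σ) + 9) := by
        apply mul_le_mul_of_nonneg_left _ hA
        linarith

end Pool.Agent.Helper60.Rel
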