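import Mathlib
import Pool.Agent.Helper60.Rel.Base

/-!
# Trapezoidal weights
-/

namespace Pool.Agent.Helper60.Rel
open MeasureTheory Set

/-- Trapezoid function. -/
noncomputable def tr (F t : ℝ) : ℝ := max 0 (min 1 (min t (F - t)))

theorem tr_nonneg (F t : ℝ) : 0 ≤ tr F t := le_max_left _ _

theorem tr_le_one (F t : ℝ) : tr F t ≤ 1 := max_le zero_le_one (min_le_left _ _)

theorem tr_cont (F : ℝ) : Continuous (tr F) := by
  unfold tr
  fun_prop

theorem tr_eq_zero {F t : ℝ} (h : t ≤ 0 ∨ F ≤ t) : tr F t = 0 := by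
  unfold tr
  apply max_eq_left
  rcases h with h | h
  · exact le_trans (min_le_right _ _) (le_trans (min_le_left _ _) h)
  · exact le_trans (min_le_right _ _) (le_trans (min_le_right _ _) (by linarith))

theorem tr_eq_one {F t : ℝ} (h : 1 ≤ t) (h2 : t ≤ F - 1) : tr F t = 1 := by
  unfold tr
  rw [min_eq_left]
  · simp
  · exact le_min h (by linarith)

theorem tr_supp (F : ℝ) : ∀ t, t ∉ Icc 0 (max 0 F) → tr F t = 0 := by
  intro t ht
  apply tr_eq_zero
  rw [mem_Icc, not_and_or, not_le, not_le] at ht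
  rcases ht with h | h
  · left; exact h.le
  · right; exact le_trans (le_max_right _ _) h.le

theorem tr_compact (F : ℝ) : HasCompactSupport (tr F) :=
  HasCompactSupport.intro isCompact_Icc (tr_supp F)

theorem tr_prod_integral (F F' : ℝ) : min F F' - 2 ≤ ∫ t, tr F t * tr F' t := by
  have hnn : 0 ≤ ∫ t, tr F t * tr F' t :=
    integral_nonneg (fun t => mul_nonneg (tr_nonneg _ _) (tr_nonneg _ _))
  rcases le_or_gt (min F F') 2 with h | h
  · linarith
  · have hint : Integrable (fun t => tr F t * tr F' t) := by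
      apply Continuous.integrable_of_hasCompactSupport
      · exact (tr_cont F).mul (tr_cont F')
      · exact (tr_compact F).mul_right
    have h1 : ∫ t in Icc 1 (min F F' - 1), tr F t * tr F' t ≤ ∫ t, tr F t * tr F' t :=
      setIntegral_le_integral hint
        (Filter.Eventually.of_forall (fun t => mul_nonneg (tr_nonneg _ _) (tr_nonneg _ _)))
    have h2 : ∫ t in Icc 1 (min F F' - 1), tr F t * tr F' t
        = ∫ t in Icc (1 : ℝ) (min F F' - 1), (1 : ℝ) := by
      apply setIntegral_congr_fun measurableSet_Icc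
      intro t ht
      simp only
      rw [tr_eq_one ht.1 (le_trans ht.2 (by linarith [min_le_left F F'])),
        tr_eq_one ht.1 (le_trans ht.2 (by linarith [min_le_right F F'])), one_mul]
    rw [h2] at h1
    rw [setIntegral_const, smul_eq_mul, mul_one, Measure.real, Real.volume_Icc,
      ENNReal.toReal_ofReal (by linarith)] at h1
    linarith

variable {ι : Type} [Fintype ι]

/-- The density. -/
noncomputable def qq (F γ : ι → ℝ) (t : ℝ) : ℝ := ∑ i, γ i * tr (F i) t

theorem qq_cont (F γ : ι → ℝ) : Continuous (qq F γ) := by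
  unfold qq
  exact continuous_finsetSum _ (fun i _ => continuous_const.mul (tr_cont (F i)))

theorem qq_nonneg (F γ : ι → ℝ) (hγ : ∀ i, 0 ≤ γ i) (t : ℝ) : 0 ≤ qq F γ t :=
  Finset.sum_nonneg (fun i _ => mul_nonneg (hγ i) (tr_nonneg _ _))

theorem qq_le (F γ : ι → ℝ) (hγ : ∀ i, 0 ≤ γ i) (t : ℝ) : qq F γ t ≤ ∑ i, γ i := by
  unfold qq
  apply Finset.sum_le_sum
  intro i _
  have := tr_le_one (F i) t
  have := hγ i
  nlinarith

theorem qq_zero (F γ : ι → ℝ) {t : ℝ} (ht : t ≤ 0) : qq F γ t = 0 := by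
  unfold qq
  apply Finset.sum_eq_zero
  intro i _
  rw [tr_eq_zero (Or.inl ht), mul_zero]

theorem qq_compact (F γ : ι → ℝ) : HasCompactSupport (qq F γ) := by
  classical
  obtain ⟨B, hB⟩ : ∃ B, ∀ i, F i ≤ B := by
    refine ⟨∑ i, |F i|, fun i => ?_⟩
    exact le_trans (le_abs_self _)
      (Finset.single_le_sum (f := fun i => |F i|) (fun j _ => abs_nonneg _) (Finset.mem_univ i))
  apply HasCompactSupport.intro (K := Icc 0 (max 0 B)) isCompact_Icc
  intro t ht
  unfold qq
  apply Finset.sum_eq_zero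
  intro i _
  rw [tr_supp (F i) t, mul_zero]
  intro h
  exact ht ⟨h.1, le_trans h.2 (max_le_max le_rfl (hB i))⟩

/-- The primitive. -/
noncomputable def QQ (F γ : ι → ℝ) (t : ℝ) : ℝ := ∫ x in (0 : ℝ)..t, qq F γ x

theorem QQ_deriv (F γ : ι → ℝ) (t : ℝ) : HasDerivAt (QQ F γ) (qq F γ t) t := by
  unfold QQ
  exact (qq_cont F γ).integral_hasStrictDerivAt 0 t |>.hasDerivAt

theorem QQ_nonpos {F γ : ι → ℝ} {t : ℝ} (ht : t ≤ 0) : QQ F γ t = 0 := by
  unfold QQ
  rw [intervalIntegral.integral_symm]
  rw [intervalIntegral.integral_congr (g := fun _ => 0)]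
  · simp
  · intro x hx
    rw [uIcc_of_le ht] at hx
    exact qq_zero F γ hx.2

theorem QQ_lip (F γ : ι → ℝ) (hγ : ∀ i, 0 ≤ γ i) (s t : ℝ) :
    |QQ F γ s - QQ F γ t| ≤ (∑ i, γ i) * |s - t| := by
  have h := convex_univ.norm_image_sub_le_of_norm_hasDerivWithin_le (𝕜 := ℝ)
    (f := QQ F γ) (f' := qq F γ) (s := univ) (x := t) (y := s) (C := ∑ i, γ i)
    (fun x _ => (QQ_deriv F γ x).hasDerivWithinAt)
    (fun x _ => by
      rw [Real.norm_eq_abs, abs_of_nonneg (qq_nonneg F γ hγ x)]
      exact qq_le F γ hγ x) (mem_univ _) (mem_univ _)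
  rw [Real.norm_eq_abs, Real.norm_eq_abs] at h
  exact h

theorem QQ_nonneg (F γ : ι → ℝ) (hγ : ∀ i, 0 ≤ γ i) (t : ℝ) : 0 ≤ QQ F γ t := by
  rcases le_total t 0 with h | h
  · rw [QQ_nonpos h]
  · unfold QQ
    exact intervalIntegral.integral_nonneg h (fun x _ => qq_nonneg F γ hγ x)

theorem QQ_le (F γ : ι → ℝ) (hγ : ∀ i, 0 ≤ γ i) (t : ℝ) :
    QQ F γ t ≤ (∑ i, γ i) * max t 0 := by
  rcases le_total t 0 with h | h
  · rw [QQ_nonpos h, max_eq_right h, mul_zero]
  · have h1 := QQ_lip F γ hγ t 0
    rw [QQ_nonpos (le_refl (0 : ℝ)), sub_zero, sub_zero, abs_of_nonneg (QQ_nonneg F γ hγ t),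
      abs_of_nonneg h] at h1
    rw [max_eq_left h]
    exact h1

/-- The square integral. -/
noncomputable def JJ (F γ : ι → ℝ) : ℝ := ∫ t, qq F γ t ^ 2

theorem tr_mul_integrable (F F' : ℝ) : Integrable (fun t => tr F t * tr F' t) := by
  apply Continuous.integrable_of_hasCompactSupport
  · exact (tr_cont F).mul (tr_cont F')
  · exact (tr_compact F).mul_right

theorem JJ_lower (F γ : ι → ℝ) (hγ : ∀ i, 0 ≤ γ i) :
    (∑ i, ∑ j, γ i * γ j * min (F i) (F j)) - 2 * (∑ i, γ i) ^ 2 ≤ JJ F γ := by
  have h1 : JJ F γ = ∑ i, ∑ j, γ i * γ j * ∫ t, tr (F i) t * tr (F j) t := by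
    unfold JJ
    have h2 : ∀ t, qq F γ t ^ 2 = ∑ i, ∑ j, γ i * γ j * (tr (F i) t * tr (F j) t) := by
      intro t
      unfold qq
      rw [pow_two, Finset.sum_mul_sum]
      apply Finset.sum_congr rfl
      intro i _
      apply Finset.sum_congr rfl
      intro j _
      ring
    simp_rw [h2]
    rw [integral_finsetSum]
    · apply Finset.sum_congr rfl
      intro i _
      rw [integral_finsetSum]
      · apply Finset.sum_congr rfl
        intro j _
        rw [integral_const_mul]
      · intro j _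
        exact (tr_mul_integrable _ _).const_mul _
    · intro i _
      apply integrable_finsetSum
      intro j _
      exact (tr_mul_integrable _ _).const_mul _
  rw [h1, pow_two, Finset.sum_mul_sum, Finset.mul_sum, ← Finset.sum_sub_distrib]
  apply Finset.sum_le_sum
  intro i _
  rw [Finset.mul_sum, ← Finset.sum_sub_distrib]
  apply Finset.sum_le_sum
  intro j _
  have h3 := tr_prod_integral (F i) (F j)
  have h4 : 0 ≤ γ i * γ j := mul_nonneg (hγ i) (hγ j)
  nlinarith

theorem sum_QQ (F γ : ι → ℝ) (hγ : ∀ i, 0 ≤ γ i) : JJ F γ ≤ ∑ i, γ i * QQ F γ (F i) := by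
  have hint : ∀ i, Integrable (fun t => qq F γ t * tr (F i) t) := by
    intro i
    apply Continuous.integrable_of_hasCompactSupport
    · exact (qq_cont F γ).mul (tr_cont _)
    · exact (qq_compact F γ).mul_right
  have h1 : JJ F γ = ∑ i, γ i * ∫ t, qq F γ t * tr (F i) t := by
    unfold JJ
    have h2 : ∀ t, qq F γ t ^ 2 = ∑ i, γ i * (qq F γ t * tr (F i) t) := by
      intro t
      rw [pow_two]
      nth_rewrite 2 [qq]
      rw [Finset.mul_sum]
      apply Finset.sum_congr rfl
      intro i _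
      ring
    simp_rw [h2]
    rw [integral_finsetSum]
    · apply Finset.sum_congr rfl
      intro i _
      rw [integral_const_mul]
    · intro i _
      exact (hint i).const_mul _
  rw [h1]
  apply Finset.sum_le_sum
  intro i _
  apply mul_le_mul_of_nonneg_left _ (hγ i)
  rcases le_total (F i) 0 with h | h
  · have : (fun t => qq F γ t * tr (F i) t) = fun _ => 0 := by
      funext t
      have : tr (F i) t = 0 := by
        apply tr_eq_zero
        rcases le_total t 0 with h' | h'
        · exact Or.inl h'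
        · exact Or.inr (le_trans h h')
      rw [this, mul_zero]
    rw [this, integral_zero]
    exact QQ_nonneg F γ hγ _
  · have h3 : ∫ t, qq F γ t * tr (F i) t = ∫ t in Ioc 0 (F i), qq F γ t * tr (F i) t := by
      rw [setIntegral_eq_integral_of_forall_compl_eq_zero]
      intro t ht
      have : tr (F i) t = 0 := by
        apply tr_eq_zero
        rw [mem_Ioc, not_and_or, not_lt, not_le] at ht
        rcases ht with h' | h'
        · exact Or.inl h'
        · exact Or.inr h'.le
      rw [this, mul_zero]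
    rw [h3]
    unfold QQ
    rw [intervalIntegral.integral_of_le h]
    apply setIntegral_mono (hint i).integrableOn
    · exact ((qq_cont F γ).integrable_of_hasCompactSupport (qq_compact F γ)).integrableOn
    · intro t
      have h4 := tr_le_one (F i) t
      have h5 := qq_nonneg F γ hγ t
      have h6 := tr_nonneg (F i) t
      show qq F γ t * tr (F i) t ≤ qq F γ t
      nlinarith

theorem JJ_lintegral (F γ : ι → ℝ) :
    ∫⁻ t, ENNReal.ofReal (qq F γ t ^ 2) = ENNReal.ofReal (JJ F γ) := by
  unfold JJ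
  rw [ofReal_integral_eq_lintegral_ofReal]
  · have h1 : HasCompactSupport (fun t => qq F γ t ^ 2) := by
      have h2 : (fun t => qq F γ t ^ 2) = fun t => qq F γ t * qq F γ t := by
        funext t; ring
      rw [h2]
      exact (qq_compact F γ).mul_right
    exact ((qq_cont F γ).pow 2).integrable_of_hasCompactSupport h1
  · exact Filter.Eventually.of_forall (fun t => sq_nonneg _)

end Pool.Agent.Helper60.Rel
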