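import Mathlib
import Pool.Agent.Helper60.Rel.Lip
import Pool.Agent.Helper60.Rel.Area
import Pool.Agent.Helper60.Rel.Trap

/-!
# The Goluzin type energy inequality
-/

namespace Pool.Agent.Helper60.Rel
open Complex MeasureTheory Set Metric
open scoped Real ComplexConjugate

variable {f G lam : ℂ → ℂ} {A : ℝ}

/-- Lower bound of `|f|` away from the origin. -/
theorem LogData.lower (h : LogData f G lam) :
    ∃ B : ℝ, 0 ≤ B ∧ ∀ ζ ∈ LH, -1 ≤ ζ.re → -B ≤ (G ζ).re := by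
  -- image of the small ball is a neighbourhood of 0
  have hd0 : DifferentiableAt ℂ f 0 :=
    h.fdiff.differentiableAt (isOpen_ball.mem_nhds (mem_ball_self one_pos))
  have han : AnalyticAt ℂ f 0 := h.fdiff.analyticAt (isOpen_ball.mem_nhds (mem_ball_self one_pos))
  have hstrict : HasStrictDerivAt f (deriv f 0) 0 := han.hasStrictDerivAt
  have hmap := hstrict.map_nhds_eq (by rw [h.f1]; exact one_ne_zero)
  rw [h.f0] at hmap
  have himg : f '' ball 0 (Real.exp (-1)) ∈ nhds (0 : ℂ) := by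
    rw [← hmap]
    exact Filter.image_mem_map (ball_mem_nhds _ (Real.exp_pos _))
  obtain ⟨c, hc, hcsub⟩ := Metric.mem_nhds_iff.1 himg
  refine ⟨|Real.log c|, abs_nonneg _, ?_⟩
  intro ζ hζ hre
  have hz := exp_mem_ball hζ
  have hnotin : f (exp ζ) ∉ ball (0 : ℂ) c := by
    intro hin
    obtain ⟨z, hz', hfz⟩ := hcsub hin
    have hz'1 : z ∈ ball (0 : ℂ) 1 :=
      ball_subset_ball (Real.exp_le_one_iff.2 (by norm_num)) hz'
    have := h.finj hz'1 hz hfz
    rw [this, mem_ball_zero_iff, Complex.norm_exp] at hz'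
    have := Real.exp_lt_exp.1 hz'
    linarith
  rw [mem_ball_zero_iff, not_lt, ← h.Gexp ζ hζ, Complex.norm_exp] at hnotin
  have h1 : Real.log c ≤ (G ζ).re := by
    rw [← Real.log_exp (G ζ).re]
    exact Real.log_le_log hc hnotin
  have h2 := neg_abs_le (Real.log c)
  linarith

/-- Far to the left the real part is nonpositive. -/
theorem LogData.left (h : LogData f G lam) :
    ∃ S : ℝ, 1 ≤ S ∧ ∀ ζ : ℂ, ζ.re ≤ -S → (G ζ).re ≤ 0 := by
  have hd0 : DifferentiableAt ℂ f 0 :=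
    h.fdiff.differentiableAt (isOpen_ball.mem_nhds (mem_ball_self one_pos))
  have hc : ContinuousAt f 0 := hd0.continuousAt
  have h1 : ∀ᶠ z in nhds (0 : ℂ), ‖f z‖ < 1 := by
    have := hc.norm
    rw [ContinuousAt, h.f0, norm_zero] at this
    exact this.eventually (gt_mem_nhds one_pos)
  obtain ⟨δ, hδ, hsub⟩ := Metric.eventually_nhds_iff_ball.1 h1
  refine ⟨max 1 (1 - Real.log δ), le_max_left _ _, ?_⟩
  intro ζ hζ
  have h2 : ζ.re ≤ -1 := le_trans hζ (neg_le_neg (le_max_left _ _))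
  have h3 : ζ.re ≤ -(1 - Real.log δ) := le_trans hζ (neg_le_neg (le_max_right _ _))
  have hζLH : ζ ∈ LH := by
    show ζ.re < 0
    linarith
  have h4 : exp ζ ∈ ball (0 : ℂ) δ := by
    rw [mem_ball_zero_iff, Complex.norm_exp]
    calc Real.exp ζ.re < Real.exp (Real.log δ) := Real.exp_lt_exp.2 (by linarith)
      _ = δ := Real.exp_log hδ
  have h5 := hsub _ h4
  rw [← h.Gexp ζ hζLH, Complex.norm_exp] at h5
  exact (Real.exp_lt_one_iff.1 h5).le

/-- The mean of the positive part. -/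
theorem LogData.mean_pos (h : LogData f G lam) :
    ∃ C : ℝ, 0 ≤ C ∧ ∀ s : ℝ, 0 < s → s ≤ 1 →
      ∫ y in (0 : ℝ)..(2 * π), max (G (((-s : ℝ) : ℂ) + y * I)).re 0 ≤ C := by
  obtain ⟨B, hB0, hB⟩ := h.lower
  refine ⟨2 * π * B, by positivity, ?_⟩
  intro s hs hs1
  have hb : (-s : ℝ) < 0 := by linarith
  have hcG := continuous_vert h.Gdiff.continuousOn hb
  have hcu : Continuous (fun y : ℝ => (G (((-s : ℝ) : ℂ) + y * I)).re) :=
    continuous_re.comp hcG
  have h1 : (∫ y in (0 : ℝ)..(2 * π), (G (((-s : ℝ) : ℂ) + y * I)).re) ≤ 0 := by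
    have e1 : ∀ y : ℝ, (G (((-s : ℝ) : ℂ) + y * I)).re
        = -s + (lam (exp (((-s : ℝ) : ℂ) + y * I))).re := by
      intro y
      rw [h.Gdef, add_re]
      congr 1
      simp
    simp_rw [e1]
    have hcl : Continuous (fun y : ℝ => (lam (exp (((-s : ℝ) : ℂ) + y * I))).re) := by
      have : (fun y : ℝ => (lam (exp (((-s : ℝ) : ℂ) + y * I))).re)
          = fun y : ℝ => (G (((-s : ℝ) : ℂ) + y * I)).re + s := by
        funext y
        rw [e1]; ring
      rw [this]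
      exact hcu.add continuous_const
    rw [intervalIntegral.integral_add (by exact intervalIntegrable_const)
      (hcl.intervalIntegrable _ _), mean_value h.ldiff hb, h.l0]
    simp only [intervalIntegral.integral_const, smul_eq_mul, zero_re, mul_zero, add_zero, sub_zero]
    have := Real.pi_pos
    nlinarith
  have h2 : ∀ y : ℝ, max (G (((-s : ℝ) : ℂ) + y * I)).re 0
      ≤ (G (((-s : ℝ) : ℂ) + y * I)).re + B := by
    intro y
    have h3 := hB _ (mem_LH_add hb y) (by simp; linarith)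
    apply max_le <;> linarith
  calc ∫ y in (0 : ℝ)..(2 * π), max (G (((-s : ℝ) : ℂ) + y * I)).re 0
      ≤ ∫ y in (0 : ℝ)..(2 * π), ((G (((-s : ℝ) : ℂ) + y * I)).re + B) := by
        apply intervalIntegral.integral_mono_on (by positivity)
        · exact (hcu.max continuous_const).intervalIntegrable _ _
        · exact (hcu.add continuous_const).intervalIntegrable _ _
        · intro y _; exact h2 y
    _ = (∫ y in (0 : ℝ)..(2 * π), (G (((-s : ℝ) : ℂ) + y * I)).re) + 2 * π * B := by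
        rw [intervalIntegral.integral_add (hcu.intervalIntegrable _ _)
          (by exact intervalIntegrable_const)]
        simp
    _ ≤ 2 * π * B := by linarith

/-- Integral over a rectangle as an integral over a product set. -/
theorem rect_conv {E : Type*} [NormedAddCommGroup E] [NormedSpace ℝ E] {F : ℂ → E}
    (hF : ContinuousOn F LH) {a b : ℝ} (hab : a ≤ b) (hb : b < 0) :
    IntegrableOn (fun p : ℝ × ℝ => F (p.1 + p.2 * I)) (Ioc a b ×ˢ Ioc 0 (2 * π))
      (volume.prod volume) ∧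
    (∫ x in a..b, ∫ y in (0 : ℝ)..(2 * π), F (x + y * I))
      = ∫ p in Ioc a b ×ˢ Ioc 0 (2 * π), F ((p.1 : ℂ) + p.2 * I) ∂(volume.prod volume) := by
  have hpi : (0 : ℝ) ≤ 2 * π := by positivity
  have hcont : ContinuousOn (fun p : ℝ × ℝ => F (p.1 + p.2 * I)) (Icc a b ×ˢ Icc 0 (2 * π)) := by
    apply hF.comp
    · fun_prop
    · intro p hp
      show ((p.1 : ℂ) + p.2 * I).re < 0
      have : ((p.1 : ℂ) + p.2 * I).re = p.1 := by simp
      rw [this]
      exact lt_of_le_of_lt hp.1.2 hb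
  have hint : IntegrableOn (fun p : ℝ × ℝ => F (p.1 + p.2 * I)) (Ioc a b ×ˢ Ioc 0 (2 * π))
      (volume.prod volume) := by
    apply IntegrableOn.mono_set (t := Icc a b ×ˢ Icc 0 (2 * π))
    · exact hcont.integrableOn_compact (isCompact_Icc.prod isCompact_Icc)
    · exact prod_mono Ioc_subset_Icc_self Ioc_subset_Icc_self
  refine ⟨hint, ?_⟩
  rw [setIntegral_prod _ hint, intervalIntegral.integral_of_le hab]
  apply setIntegral_congr_fun measurableSet_Ioc
  intro x _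
  simp only
  rw [intervalIntegral.integral_of_le hpi]

/-- The right hand side estimate. -/
theorem rhs_bound {ι : Type} [Fintype ι] (h : LogData f G lam) (θ γ F : ι → ℝ)
    (hγ : ∀ i, 0 ≤ γ i) {a b : ℝ} (hab : a ≤ b) (hb : b < 0) :
    ‖∫ x in a..b, ∫ y in (0 : ℝ)..(2 * π), ((qq F γ (G (x + y * I)).re : ℝ) : ℂ)
        * KK θ γ (x + y * I) * conj (deriv G (x + y * I))‖
      ≤ π / 2 * JJ F γ + π * (En θ γ b + (∑ i, γ i) ^ 2) := by
  have hcq : ContinuousOn (fun ζ => ((qq F γ (G ζ).re : ℝ) : ℂ)) LH :=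
    continuous_ofReal.comp_continuousOn
      ((qq_cont F γ).comp_continuousOn (continuous_re.comp_continuousOn h.Gdiff.continuousOn))
  have hcG' : ContinuousOn (deriv G) LH := (h.Gdiff.deriv isOpen_LH).continuousOn
  have hcK : ContinuousOn (KK θ γ) LH := (KK_diff θ γ).continuousOn
  have hc1 : ContinuousOn (fun ζ => ((qq F γ (G ζ).re : ℝ) : ℂ)
        * KK θ γ ζ * conj (deriv G ζ)) LH :=
    (hcq.mul hcK).mul (continuous_conj.comp_continuousOn hcG')
  have hc2 : ContinuousOn (fun ζ => qq F γ (G ζ).re ^ 2 * ‖deriv G ζ‖ ^ 2) LH := by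
    apply ContinuousOn.mul
    · exact ((qq_cont F γ).comp_continuousOn
        (continuous_re.comp_continuousOn h.Gdiff.continuousOn)).pow 2
    · exact hcG'.norm.pow 2
  have hc3 : ContinuousOn (fun ζ => ‖KK θ γ ζ‖ ^ 2) LH := hcK.norm.pow 2
  obtain ⟨i1, e1⟩ := rect_conv hc1 hab hb
  obtain ⟨i2, e2⟩ := rect_conv hc2 hab hb
  obtain ⟨i3, e3⟩ := rect_conv hc3 hab hb
  have harea : (∫ x in a..b, ∫ y in (0 : ℝ)..(2 * π),
      qq F γ (G (x + y * I)).re ^ 2 * ‖deriv G (x + y * I)‖ ^ 2) ≤ 2 * π * JJ F γ := by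
    have hJ0 : 0 ≤ JJ F γ := integral_nonneg (fun t => sq_nonneg _)
    rw [← ENNReal.ofReal_le_ofReal_iff (by positivity)]
    calc ENNReal.ofReal (∫ x in a..b, ∫ y in (0 : ℝ)..(2 * π),
        qq F γ (G (x + y * I)).re ^ 2 * ‖deriv G (x + y * I)‖ ^ 2)
        ≤ ∫⁻ ζ in {ζ : ℂ | ζ.re < 0 ∧ 0 ≤ ζ.im ∧ ζ.im < 2 * π},
          ENNReal.ofReal (qq F γ (G ζ).re ^ 2 * ‖deriv G ζ‖ ^ 2) :=
          rect_integral_le hc2 (fun ζ => by positivity) hab hb
      _ = ∫⁻ ζ in {ζ : ℂ | ζ.re < 0 ∧ 0 ≤ ζ.im ∧ ζ.im < 2 * π},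
          (fun t => ENNReal.ofReal (qq F γ t ^ 2)) (G ζ).re
            * ENNReal.ofReal (‖deriv G ζ‖ ^ 2) := by
          apply lintegral_congr
          intro ζ
          simp only
          rw [ENNReal.ofReal_mul (sq_nonneg _)]
      _ ≤ ENNReal.ofReal (2 * π) * ∫⁻ t, ENNReal.ofReal (qq F γ t ^ 2) :=
          area_bound h.fdiff h.finj h.Gdiff h.Gexp _
            (ENNReal.measurable_ofReal.comp ((qq_cont F γ).pow 2).measurable)
      _ = ENNReal.ofReal (2 * π * JJ F γ) := by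
          rw [JJ_lintegral, ← ENNReal.ofReal_mul (by positivity)]
  have henergy := energy_bound θ γ hγ hab hb
  rw [e1]
  rw [e2] at harea
  rw [e3] at henergy
  calc ‖∫ p in Ioc a b ×ˢ Ioc 0 (2 * π), ((qq F γ (G ((p.1 : ℂ) + p.2 * I)).re : ℝ) : ℂ)
        * KK θ γ ((p.1 : ℂ) + p.2 * I) * conj (deriv G ((p.1 : ℂ) + p.2 * I))
        ∂(volume.prod volume)‖
      ≤ ∫ p in Ioc a b ×ˢ Ioc 0 (2 * π), ((1 / 4) *
          (qq F γ (G ((p.1 : ℂ) + p.2 * I)).re ^ 2 * ‖deriv G ((p.1 : ℂ) + p.2 * I)‖ ^ 2)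
          + ‖KK θ γ ((p.1 : ℂ) + p.2 * I)‖ ^ 2) ∂(volume.prod volume) := by
        apply norm_integral_le_of_norm_le ((i2.const_mul (1 / 4)).add i3)
        apply Filter.Eventually.of_forall
        intro p
        simp only [norm_mul, Complex.norm_real, Complex.norm_conj, Real.norm_eq_abs, Pi.add_apply]
        rw [abs_of_nonneg (qq_nonneg F γ hγ _)]
        nlinarith [sq_nonneg (qq F γ (G ((p.1 : ℂ) + p.2 * I)).re
          * ‖deriv G ((p.1 : ℂ) + p.2 * I)‖ / 2 - ‖KK θ γ ((p.1 : ℂ) + p.2 * I)‖)]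
    _ = (1 / 4) * (∫ p in Ioc a b ×ˢ Ioc 0 (2 * π),
          (qq F γ (G ((p.1 : ℂ) + p.2 * I)).re ^ 2 * ‖deriv G ((p.1 : ℂ) + p.2 * I)‖ ^ 2)
          ∂(volume.prod volume)) + ∫ p in Ioc a b ×ˢ Ioc 0 (2 * π),
          ‖KK θ γ ((p.1 : ℂ) + p.2 * I)‖ ^ 2 ∂(volume.prod volume) := by
        rw [integral_add (i2.const_mul (1 / 4)) i3, integral_const_mul]
    _ ≤ (1 / 4) * (2 * π * JJ F γ) + π * (En θ γ b + (∑ i, γ i) ^ 2) := by
        gcongr
    _ = π / 2 * JJ F γ + π * (En θ γ b + (∑ i, γ i) ^ 2) := by ring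

/-- Poisson average estimate. -/
theorem poisson_lower {ι : Type} [Fintype ι] (h : Bnd f G lam A) (γ F : ι → ℝ)
    (hγ : ∀ i, 0 ≤ γ i) {σ : ℝ} (hσ : 0 < σ) (hσ1 : σ ≤ 1) (θ : ℝ) :
    2 * π * QQ F γ (G (-(σ : ℂ) + θ * I)).re - (∑ i, γ i) * (20 * π * A)
      ≤ ∫ y in (0 : ℝ)..(2 * π), (2 * (Kt θ (((-(σ / 2) : ℝ) : ℂ) + y * I)).re + 1)
          * QQ F γ (G (((-(σ / 2) : ℝ) : ℂ) + y * I)).re := by
  have hb : (-(σ / 2) : ℝ) < 0 := by linarith
  set b : ℝ := -(σ / 2) with hbdef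
  set M := ∑ i, γ i with hM
  have hM0 : 0 ≤ M := Finset.sum_nonneg (fun i _ => hγ i)
  have hcK : Continuous (fun y : ℝ => (Kt θ ((b : ℂ) + y * I)).re) :=
    continuous_re.comp (continuous_vert (Kt_diff θ).continuousOn hb)
  have hcG := continuous_vert h.D.Gdiff.continuousOn hb
  have hcu : Continuous (fun y : ℝ => (G ((b : ℂ) + y * I)).re) := continuous_re.comp hcG
  have hcQ : Continuous (QQ F γ) :=
    continuous_iff_continuousAt.2 (fun t => (QQ_deriv F γ t).continuousAt)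
  have hKpos : ∀ y : ℝ, 0 ≤ 2 * (Kt θ ((b : ℂ) + y * I)).re + 1 := by
    intro y
    rw [Kt_re (mem_LH_add hb y)]
    apply div_nonneg _ (sq_nonneg _)
    rw [norm_exp_sub]
    have h1 : ((b : ℂ) + y * I).re = b := by simp
    rw [h1]
    have h2 : Real.exp b < 1 := Real.exp_lt_one_iff.2 hb
    have h3 := Real.exp_pos b
    nlinarith
  -- the harmonic majorant
  set φ : ℂ → ℂ := fun z => phiT θ (exp (b : ℂ) * z) with hφ
  have hφd : DifferentiableOn ℂ φ (ball 0 1) := by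
    apply (phiT_diff θ).comp
    · fun_prop
    · intro z hz
      rw [mem_ball_zero_iff] at *
      rw [norm_mul, Complex.norm_exp, ofReal_re]
      have : Real.exp b < 1 := Real.exp_lt_one_iff.2 hb
      have h0 := norm_nonneg z
      have h3 := Real.exp_pos b
      nlinarith
  have hP1 := poisson_Kt hφd θ hb
  have hP2 := poisson_Kt (φ := fun _ => (1 : ℂ)) (differentiableOn_const _) θ hb
  simp only [one_re, mul_one] at hP2
  have hφre : ∀ y : ℝ, (φ (exp ((b : ℂ) + y * I))).re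
      = -Real.log ‖1 - exp (-(σ : ℂ) + ((y - θ : ℝ) : ℂ) * I)‖ := by
    intro y
    rw [hφ]
    simp only
    rw [phiT_re, ← Complex.exp_add, ← Complex.exp_add]
    congr 4
    rw [hbdef]; push_cast; ring
  have hφpt : (φ (exp (2 * (b : ℂ) + θ * I))).re = -Real.log (1 - Real.exp (-(3 * σ / 2))) := by
    rw [hφ]
    simp only
    rw [phiT_re, ← Complex.exp_add, ← Complex.exp_add]
    have e1 : (b : ℂ) + (2 * b + θ * I) + -(θ * I) = ((-(3 * σ / 2) : ℝ) : ℂ) := by
      rw [hbdef]; push_cast; ring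
    rw [e1, ← Complex.ofReal_exp, ← Complex.ofReal_one, ← Complex.ofReal_sub, Complex.norm_real,
      Real.norm_eq_abs, abs_of_pos]
    have : Real.exp (-(3 * σ / 2)) < 1 := Real.exp_lt_one_iff.2 (by linarith)
    linarith
  simp_rw [hφre] at hP1
  rw [hφpt] at hP1
  have hlogbound : Real.log (1 - Real.exp (-(3 * σ / 2))) - Real.log σ ≤ 1 / 2 := by
    have hlt : Real.exp (-(3 * σ / 2)) < 1 := Real.exp_lt_one_iff.2 (by linarith)
    have h1 : 1 - Real.exp (-(3 * σ / 2)) ≤ 3 / 2 * σ := by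
      have := Real.add_one_le_exp (-(3 * σ / 2))
      linarith
    have h2 : Real.log (1 - Real.exp (-(3 * σ / 2))) ≤ Real.log (3 / 2 * σ) :=
      Real.log_le_log (by linarith) h1
    rw [Real.log_mul (by norm_num) hσ.ne'] at h2
    have h3 : Real.log (3 / 2) ≤ 3 / 2 - 1 := Real.log_le_sub_one_of_pos (by norm_num)
    linarith
  have hcl : Continuous (fun y : ℝ => Real.log ‖1 - exp (-(σ : ℂ) + ((y - θ : ℝ) : ℂ) * I)‖) := by
    apply Continuous.log
    · fun_prop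
    · intro y
      exact (norm_one_sub_exp_pos hσ _).ne'
  set u0 := (G (-(σ : ℂ) + θ * I)).re with hu0
  have hA := h.A0
  -- pointwise
  have hpt : ∀ y : ℝ, (2 * (Kt θ ((b : ℂ) + y * I)).re + 1) * (QQ F γ u0 - M * (A * (2 *
        (Real.log ‖1 - exp (-(σ : ℂ) + ((y - θ : ℝ) : ℂ) * I)‖ - Real.log σ) + 9)))
      ≤ (2 * (Kt θ ((b : ℂ) + y * I)).re + 1) * QQ F γ (G ((b : ℂ) + y * I)).re := by
    intro y
    apply mul_le_mul_of_nonneg_left _ (hKpos y)
    have h1 := h.re_diff hσ hσ1 y θ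
    have e1 : -((σ / 2 : ℝ) : ℂ) = (b : ℂ) := by rw [hbdef]; push_cast; ring
    rw [e1, ← hu0] at h1
    have h2 := QQ_lip F γ hγ (G ((b : ℂ) + y * I)).re u0
    have h3 : M * |(G ((b : ℂ) + y * I)).re - u0| ≤ M * (A * (2 *
        (Real.log ‖1 - exp (-(σ : ℂ) + ((y - θ : ℝ) : ℂ) * I)‖ - Real.log σ) + 9)) :=
      mul_le_mul_of_nonneg_left h1 hM0
    have h4 := abs_le.1 (le_trans h2 h3)
    linarith [h4.1]
  have hmono := intervalIntegral.integral_mono_on (μ := volume)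
    (by positivity : (0 : ℝ) ≤ 2 * π)
    (f := fun y : ℝ => (2 * (Kt θ ((b : ℂ) + y * I)).re + 1) * (QQ F γ u0 - M * (A * (2 *
        (Real.log ‖1 - exp (-(σ : ℂ) + ((y - θ : ℝ) : ℂ) * I)‖ - Real.log σ) + 9))))
    (g := fun y : ℝ => (2 * (Kt θ ((b : ℂ) + y * I)).re + 1) * QQ F γ (G ((b : ℂ) + y * I)).re)
    (by
      apply Continuous.intervalIntegrable
      fun_prop)
    (by
      apply Continuous.intervalIntegrable
      exact ((continuous_const.mul hcK).add continuous_const).mul (hcQ.comp hcu))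
    (fun y _ => hpt y)
  refine le_trans ?_ hmono
  -- evaluate the left side
  have heval : (∫ y in (0 : ℝ)..(2 * π), (2 * (Kt θ ((b : ℂ) + y * I)).re + 1) *
      (QQ F γ u0 - M * (A * (2 *
        (Real.log ‖1 - exp (-(σ : ℂ) + ((y - θ : ℝ) : ℂ) * I)‖ - Real.log σ) + 9))))
      = (QQ F γ u0 + M * A * (2 * Real.log σ - 9)) * (2 * π)
        + (2 * M * A) * (2 * π * -Real.log (1 - Real.exp (-(3 * σ / 2)))) := by
    have e1 : (∫ y in (0 : ℝ)..(2 * π), (2 * (Kt θ ((b : ℂ) + y * I)).re + 1) *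
      (QQ F γ u0 - M * (A * (2 *
        (Real.log ‖1 - exp (-(σ : ℂ) + ((y - θ : ℝ) : ℂ) * I)‖ - Real.log σ) + 9))))
        = ∫ y in (0 : ℝ)..(2 * π), ((QQ F γ u0 + M * A * (2 * Real.log σ - 9)) *
            (2 * (Kt θ ((b : ℂ) + y * I)).re + 1)
          + (2 * M * A) * ((2 * (Kt θ ((b : ℂ) + y * I)).re + 1)
            * -Real.log ‖1 - exp (-(σ : ℂ) + ((y - θ : ℝ) : ℂ) * I)‖)) := by
      apply intervalIntegral.integral_congr
      intro y _
      simp only
      ring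
    have i1 : IntervalIntegrable (fun y : ℝ => (QQ F γ u0 + M * A * (2 * Real.log σ - 9)) *
            (2 * (Kt θ ((b : ℂ) + y * I)).re + 1)) volume 0 (2 * π) := by
      apply Continuous.intervalIntegrable
      fun_prop
    have i2 : IntervalIntegrable (fun y : ℝ => (2 * M * A) *
          ((2 * (Kt θ ((b : ℂ) + y * I)).re + 1)
            * -Real.log ‖1 - exp (-(σ : ℂ) + ((y - θ : ℝ) : ℂ) * I)‖)) volume 0 (2 * π) := by
      apply Continuous.intervalIntegrable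
      fun_prop
    rw [e1, intervalIntegral.integral_add i1 i2, intervalIntegral.integral_const_mul,
      intervalIntegral.integral_const_mul, hP1, hP2]
  rw [heval]
  have hpi := Real.pi_pos
  have hMA : 0 ≤ M * A := mul_nonneg hM0 hA
  nlinarith [mul_nonneg hMA hpi.le, mul_le_mul_of_nonneg_left hlogbound (mul_nonneg hMA hpi.le)]

/-- The Goluzin type inequality. -/
theorem goluzin (h : Bnd f G lam A) :
    ∃ C : ℝ, 0 ≤ C ∧ ∀ (ι : Type) [Fintype ι] (σ : ℝ), 0 < σ → σ ≤ 1 → ∀ θ γ : ι → ℝ,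
      (∀ i, 0 ≤ γ i) →
      ∑ i, ∑ j, γ i * γ j * min (G (-(σ : ℂ) + θ i * I)).re (G (-(σ : ℂ) + θ j * I)).re
        ≤ 2 * (∑ i, ∑ j, γ i * γ j * (-Real.log (max ‖exp (θ i * I) - exp (θ j * I)‖ σ)))
          + C * (∑ i, γ i) ^ 2 := by
  obtain ⟨Cm, hCm0, hCm⟩ := h.D.mean_pos
  obtain ⟨S, hS1, hS⟩ := h.D.left
  have hA := h.A0
  refine ⟨8 + 20 * A + Cm, by positivity, ?_⟩
  intro ι _ σ hσ hσ1 θ γ hγ
  set F : ι → ℝ := fun i => (G (-(σ : ℂ) + θ i * I)).re with hF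
  set M := ∑ i, γ i with hM
  have hM0 : 0 ≤ M := Finset.sum_nonneg (fun i _ => hγ i)
  have hb : (-(σ / 2) : ℝ) < 0 := by linarith
  have hab : (-S : ℝ) ≤ -(σ / 2) := by linarith
  have hg := green h.D.Gdiff (KK_diff θ γ)
    (fun ζ _ => by
      have := h.D.re_shift ζ 1
      simpa using this)
    (fun ζ _ => KK_per θ γ ζ) (QQ_deriv F γ) (qq_cont F γ) hab hb
  have hz : (∫ y in (0 : ℝ)..(2 * π), ((QQ F γ (G (((-S : ℝ) : ℂ) + y * I)).re : ℝ) : ℂ)
      * KK θ γ (((-S : ℝ) : ℂ) + y * I)) = 0 := by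
    rw [intervalIntegral.integral_congr (g := fun _ => (0 : ℂ))]
    · simp
    · intro y _
      simp only
      rw [QQ_nonpos (hS _ (by simp)), ofReal_zero, zero_mul]
  rw [hz, sub_zero] at hg
  have hr := rhs_bound h.D θ γ F hγ hab hb
  rw [← hg] at hr
  -- real part of the left side
  have hcu : Continuous (fun y : ℝ => (G (((-(σ / 2) : ℝ) : ℂ) + y * I)).re) :=
    continuous_re.comp (continuous_vert h.D.Gdiff.continuousOn hb)
  have hcQ : Continuous (QQ F γ) :=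
    continuous_iff_continuousAt.2 (fun t => (QQ_deriv F γ t).continuousAt)
  have hcKK := continuous_vert (KK_diff θ γ).continuousOn hb
  have hcK : ∀ i, Continuous (fun y : ℝ => (Kt (θ i) (((-(σ / 2) : ℝ) : ℂ) + y * I)).re) :=
    fun i => continuous_re.comp (continuous_vert (Kt_diff (θ i)).continuousOn hb)
  have hre : (∫ y in (0 : ℝ)..(2 * π), ((QQ F γ (G (((-(σ / 2) : ℝ) : ℂ) + y * I)).re : ℝ) : ℂ)
      * KK θ γ (((-(σ / 2) : ℝ) : ℂ) + y * I)).re
      = ∑ i, γ i / 2 * ((∫ y in (0 : ℝ)..(2 * π),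
          (2 * (Kt (θ i) (((-(σ / 2) : ℝ) : ℂ) + y * I)).re + 1)
          * QQ F γ (G (((-(σ / 2) : ℝ) : ℂ) + y * I)).re)
          - ∫ y in (0 : ℝ)..(2 * π), QQ F γ (G (((-(σ / 2) : ℝ) : ℂ) + y * I)).re) := by
    have hi : IntervalIntegrable (fun y : ℝ =>
        ((QQ F γ (G (((-(σ / 2) : ℝ) : ℂ) + y * I)).re : ℝ) : ℂ)
        * KK θ γ (((-(σ / 2) : ℝ) : ℂ) + y * I)) volume 0 (2 * π) :=
      ((continuous_ofReal.comp (hcQ.comp hcu)).mul hcKK).intervalIntegrable _ _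
    have e1 := (Complex.reCLM.intervalIntegral_comp_comm hi)
    rw [reCLM_apply] at e1
    rw [← e1]
    have e2 : ∀ y : ℝ, reCLM (((QQ F γ (G (((-(σ / 2) : ℝ) : ℂ) + y * I)).re : ℝ) : ℂ)
        * KK θ γ (((-(σ / 2) : ℝ) : ℂ) + y * I))
        = ∑ i, γ i / 2 * (((2 * (Kt (θ i) (((-(σ / 2) : ℝ) : ℂ) + y * I)).re + 1)
          * QQ F γ (G (((-(σ / 2) : ℝ) : ℂ) + y * I)).re)
          - QQ F γ (G (((-(σ / 2) : ℝ) : ℂ) + y * I)).re) := by
      intro y
      rw [reCLM_apply, Complex.re_ofReal_mul, KK_re, Finset.mul_sum]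
      apply Finset.sum_congr rfl
      intro i _
      ring
    simp_rw [e2]
    rw [intervalIntegral.integral_finsetSum]
    · apply Finset.sum_congr rfl
      intro i _
      rw [intervalIntegral.integral_const_mul, intervalIntegral.integral_sub]
      · apply Continuous.intervalIntegrable
        exact ((continuous_const.mul (hcK i)).add continuous_const).mul (hcQ.comp hcu)
      · exact (hcQ.comp hcu).intervalIntegrable _ _
    · intro i _
      apply Continuous.intervalIntegrable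
      exact continuous_const.mul
        ((((continuous_const.mul (hcK i)).add continuous_const).mul (hcQ.comp hcu)).sub
          (hcQ.comp hcu))
  have hmeanQ : (∫ y in (0 : ℝ)..(2 * π), QQ F γ (G (((-(σ / 2) : ℝ) : ℂ) + y * I)).re)
      ≤ M * Cm := by
    have h1 := hCm (σ / 2) (by linarith) (by linarith)
    calc (∫ y in (0 : ℝ)..(2 * π), QQ F γ (G (((-(σ / 2) : ℝ) : ℂ) + y * I)).re)
        ≤ ∫ y in (0 : ℝ)..(2 * π), M * max (G (((-(σ / 2) : ℝ) : ℂ) + y * I)).re 0 := by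
          apply intervalIntegral.integral_mono_on (by positivity)
          · exact (hcQ.comp hcu).intervalIntegrable _ _
          · exact (continuous_const.mul (hcu.max continuous_const)).intervalIntegrable _ _
          · intro y _
            exact QQ_le F γ hγ _
      _ = M * ∫ y in (0 : ℝ)..(2 * π), max (G (((-(σ / 2) : ℝ) : ℂ) + y * I)).re 0 := by
          rw [intervalIntegral.integral_const_mul]
      _ ≤ M * Cm := mul_le_mul_of_nonneg_left h1 hM0
  have hlow : π * (∑ i, γ i * QQ F γ (F i)) - (10 * π * A + Cm / 2) * M ^ 2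
      ≤ (∫ y in (0 : ℝ)..(2 * π), ((QQ F γ (G (((-(σ / 2) : ℝ) : ℂ) + y * I)).re : ℝ) : ℂ)
      * KK θ γ (((-(σ / 2) : ℝ) : ℂ) + y * I)).re := by
    rw [hre]
    have h1 : ∀ i, γ i / 2 * ((2 * π * QQ F γ (F i) - M * (20 * π * A)) - M * Cm)
        ≤ γ i / 2 * ((∫ y in (0 : ℝ)..(2 * π),
          (2 * (Kt (θ i) (((-(σ / 2) : ℝ) : ℂ) + y * I)).re + 1)
          * QQ F γ (G (((-(σ / 2) : ℝ) : ℂ) + y * I)).re)
          - ∫ y in (0 : ℝ)..(2 * π), QQ F γ (G (((-(σ / 2) : ℝ) : ℂ) + y * I)).re) := by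
      intro i
      apply mul_le_mul_of_nonneg_left _ (by have := hγ i; linarith)
      have h2 := poisson_lower h γ F hγ hσ hσ1 (θ i)
      have h3 : QQ F γ (G (-(σ : ℂ) + θ i * I)).re = QQ F γ (F i) := rfl
      rw [h3] at h2
      linarith
    refine le_trans (le_of_eq ?_) (Finset.sum_le_sum (fun i _ => h1 i))
    have h4 : ∀ i, γ i / 2 * ((2 * π * QQ F γ (F i) - M * (20 * π * A)) - M * Cm)
        = π * (γ i * QQ F γ (F i)) - (10 * π * A + Cm / 2) * M * γ i := by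
      intro i; ring
    simp_rw [h4]
    rw [Finset.sum_sub_distrib, ← Finset.mul_sum, ← Finset.mul_sum, ← hM]
    ring
  have hup := le_trans (le_trans hlow (Complex.re_le_norm _)) hr
  have hJ1 := sum_QQ F γ hγ
  have hJ2 := JJ_lower F γ hγ
  have hpi := Real.pi_gt_three
  -- energy in terms of the distances
  have hEn : En θ γ (-(σ / 2))
      ≤ (∑ i, ∑ j, γ i * γ j * (-Real.log (max ‖exp (θ i * I) - exp (θ j * I)‖ σ))) + M ^ 2 := by
    unfold En
    rw [hM, pow_two, Finset.sum_mul_sum, ← Finset.sum_add_distrib]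
    apply Finset.sum_le_sum
    intro i _
    rw [← Finset.sum_add_distrib]
    apply Finset.sum_le_sum
    intro j _
    have hij : 0 ≤ γ i * γ j := mul_nonneg (hγ i) (hγ j)
    have e1 : 2 * (((-(σ / 2) : ℝ)) : ℂ) + ((θ i : ℂ) - θ j) * I
        = -(σ : ℂ) + ((θ i - θ j : ℝ) : ℂ) * I := by push_cast; ring
    rw [e1]
    have hpos := norm_one_sub_exp_pos hσ (θ i - θ j)
    have hexpn : ‖exp (-(σ : ℂ) + ((θ i - θ j : ℝ) : ℂ) * I)‖ = Real.exp (-σ) := by
      rw [Complex.norm_exp, re_neg_add]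
    have d1 : 1 - Real.exp (-σ) ≤ ‖1 - exp (-(σ : ℂ) + ((θ i - θ j : ℝ) : ℂ) * I)‖ := by
      have := norm_sub_norm_le (1 : ℂ) (exp (-(σ : ℂ) + ((θ i - θ j : ℝ) : ℂ) * I))
      rw [norm_one, hexpn] at this
      exact this
    have d2 : σ / 2 ≤ 1 - Real.exp (-σ) := by
      have h1 : (1 : ℝ) + σ ≤ Real.exp σ := by linarith [Real.add_one_le_exp σ]
      have h2 : Real.exp (-σ) ≤ (1 + σ)⁻¹ := by
        rw [Real.exp_neg]
        exact inv_anti₀ (by linarith) h1
      have h3 : (1 + σ)⁻¹ ≤ 1 - σ / 2 := by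
        rw [inv_le_iff_one_le_mul₀ (by linarith)]
        nlinarith
      linarith
    have d3 : ‖exp (θ i * I) - exp (θ j * I)‖
        ≤ 2 * ‖1 - exp (-(σ : ℂ) + ((θ i - θ j : ℝ) : ℂ) * I)‖ := by
      have e2 : exp (θ i * I) - exp (θ j * I)
          = -exp (θ j * I) * ((1 - exp (-(σ : ℂ) + ((θ i - θ j : ℝ) : ℂ) * I))
            - (1 - Real.exp (-σ) : ℝ) * exp (((θ i - θ j : ℝ) : ℂ) * I)) := by
        have a1 : exp (-(σ : ℂ) + ((θ i - θ j : ℝ) : ℂ) * I)
            = ((Real.exp (-σ) : ℝ) : ℂ) * exp (((θ i - θ j : ℝ) : ℂ) * I) := by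
          rw [Complex.exp_add, Complex.ofReal_exp, Complex.ofReal_neg]
        have a2 : exp (θ j * I) * exp (((θ i - θ j : ℝ) : ℂ) * I) = exp (θ i * I) := by
          rw [← Complex.exp_add]
          congr 1
          push_cast; ring
        rw [a1]
        push_cast
        push_cast at a2
        linear_combination -a2
      have n1 : ‖exp ((θ j : ℂ) * I)‖ = 1 := Complex.norm_exp_ofReal_mul_I _
      have n2 : ‖exp (((θ i - θ j : ℝ) : ℂ) * I)‖ = 1 := Complex.norm_exp_ofReal_mul_I _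
      rw [e2, norm_mul, norm_neg, n1, one_mul]
      calc ‖(1 - exp (-(σ : ℂ) + ((θ i - θ j : ℝ) : ℂ) * I))
            - (1 - Real.exp (-σ) : ℝ) * exp (((θ i - θ j : ℝ) : ℂ) * I)‖
          ≤ ‖1 - exp (-(σ : ℂ) + ((θ i - θ j : ℝ) : ℂ) * I)‖
            + ‖((1 - Real.exp (-σ) : ℝ) : ℂ) * exp (((θ i - θ j : ℝ) : ℂ) * I)‖ := norm_sub_le _ _
        _ = ‖1 - exp (-(σ : ℂ) + ((θ i - θ j : ℝ) : ℂ) * I)‖ + (1 - Real.exp (-σ)) := by
            rw [norm_mul, n2, mul_one, Complex.norm_real, Real.norm_eq_abs,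
              abs_of_nonneg (by linarith)]
        _ ≤ _ := by linarith
    have d4 : max ‖exp (θ i * I) - exp (θ j * I)‖ σ
        ≤ 2 * ‖1 - exp (-(σ : ℂ) + ((θ i - θ j : ℝ) : ℂ) * I)‖ :=
      max_le d3 (by linarith)
    have d5 : 0 < max ‖exp (θ i * I) - exp (θ j * I)‖ σ := lt_of_lt_of_le hσ (le_max_right _ _)
    have d6 := Real.log_le_log d5 d4
    rw [Real.log_mul (by norm_num) hpos.ne'] at d6
    have d7 : Real.log 2 ≤ 1 := by
      have := Real.log_two_lt_d9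
      linarith
    nlinarith
  set ER := ∑ i, ∑ j, γ i * γ j * (-Real.log (max ‖exp (θ i * I) - exp (θ j * I)‖ σ)) with hER
  have hfin : (∑ i, ∑ j, γ i * γ j * min (F i) (F j))
      ≤ 2 * ER + (8 + 20 * A + Cm) * M ^ 2 := by
    have hM2 : 0 ≤ M ^ 2 := sq_nonneg _
    have c1 : π * JJ F γ - (10 * π * A + Cm / 2) * M ^ 2
        ≤ π / 2 * JJ F γ + π * (En θ γ (-(σ / 2)) + M ^ 2) := by
      have := mul_le_mul_of_nonneg_left hJ1 (by linarith : (0 : ℝ) ≤ π)
      linarith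
    have c2 : π / 2 * JJ F γ ≤ π * (ER + 2 * M ^ 2) + (10 * π * A + Cm / 2) * M ^ 2 := by
      have := mul_le_mul_of_nonneg_left hEn (by linarith : (0 : ℝ) ≤ π)
      nlinarith
    have c3 : JJ F γ ≤ 2 * (ER + 2 * M ^ 2) + (20 * A + Cm) * M ^ 2 := by
      have h5 : (Cm / 2) * M ^ 2 ≤ π / 2 * (Cm * M ^ 2) := by
        have : 0 ≤ Cm * M ^ 2 := mul_nonneg hCm0 hM2
        nlinarith
      have h6 : π / 2 * JJ F γ ≤ π / 2 * (2 * (ER + 2 * M ^ 2) + (20 * A + Cm) * M ^ 2) := by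
        nlinarith
      exact le_of_mul_le_mul_left h6 (by linarith)
    nlinarith
  exact hfin

end Pool.Agent.Helper60.Rel
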