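import Mathlib
import Pool.Agent.Helper60.Rel.Goluzin
import Pool.Agent.Helper46.Rel.Koebe
import Pool.Agent.Helper80.Bieb.Main
import Pool.Agent.Helper13.Rel.T3

/-!
# The function `z f'(z) / f(z)` and its integral means
-/

namespace Pool.Agent.Helper60.Rel
open Complex MeasureTheory Set Metric Filter Topology
open scoped Real

variable {f G lam : ℂ → ℂ}

theorem bieb : Pool.Agent.Helper46.Rel.Bieb := fun _ hd hi h0 h1 =>
  Pool.Agent.Helper80.Bieb.bieberbach hd hi h0 h1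

theorem deriv_ne_zero_LH (hd : DifferentiableOn ℂ G LH) (hi : InjOn G LH) {ζ : ℂ}
    (hζ : ζ ∈ LH) : deriv G ζ ≠ 0 := by
  intro h0
  have hyd : DifferentiableOn ℂ (deriv G) LH := hd.deriv isOpen_LH
  have hya : AnalyticAt ℂ (deriv G) ζ := hyd.analyticAt (isOpen_LH.mem_nhds hζ)
  have hntop : analyticOrderAt (deriv G) ζ ≠ ⊤ := by
    intro htop
    rw [analyticOrderAt_eq_top] at htop
    obtain ⟨r, hr, hsub⟩ := Metric.eventually_nhds_iff_ball.1
      (htop.and (isOpen_LH.mem_nhds hζ))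
    -- G is constant on the ball
    have hconst : ∀ ξ ∈ ball ζ r, G ξ = G ζ := by
      intro ξ hξ
      apply (convex_ball ζ r).is_const_of_fderivWithin_eq_zero (𝕜 := ℂ) (x := ξ) (y := ζ)
      · intro w hw
        exact (hd w (hsub w hw).2).mono (fun v hv => (hsub v hv).2)
      · intro w hw
        rw [fderivWithin_of_isOpen isOpen_ball hw]
        have h1 := (hd.differentiableAt (isOpen_LH.mem_nhds (hsub w hw).2)).hasDerivAt
        rw [(hsub w hw).1] at h1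
        rw [h1.hasFDerivAt.fderiv]
        simp
      · exact hξ
      · exact mem_ball_self hr
    have hmem : ζ + ((r / 2 : ℝ) : ℂ) ∈ ball ζ r := by
      rw [mem_ball, dist_eq_norm, add_sub_cancel_left, Complex.norm_real, Real.norm_eq_abs,
        abs_of_pos (by linarith)]
      linarith
    have h2 := hi (hsub _ hmem).2 hζ (hconst _ hmem)
    have h3 : ((r / 2 : ℝ) : ℂ) = 0 := by linear_combination h2
    rw [ofReal_eq_zero] at h3
    linarith
  obtain ⟨h, hha, hh0, heq⟩ := hya.analyticOrderAt_ne_top.1 hntop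
  set m := analyticOrderNatAt (deriv G) ζ with hm
  have hm1 : 1 ≤ m := by
    by_contra hlt
    have hm0 : m = 0 := by omega
    have h1 : deriv G ζ = (ζ - ζ) ^ m • h ζ := heq.self_of_nhds
    rw [hm0, pow_zero, one_smul, h0] at h1
    exact hh0 h1.symm
  -- the derivative near ζ
  have hder : ∀ᶠ z in 𝓝 ζ, deriv (deriv G) z
      = (m : ℂ) * (z - ζ) ^ (m - 1) * h z + (z - ζ) ^ m * deriv h z := by
    have h1 : ∀ᶠ z in 𝓝 ζ, deriv G =ᶠ[𝓝 z] fun z => (z - ζ) ^ m • h z :=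
      eventually_eventually_nhds.2 heq
    filter_upwards [h1, hha.eventually_analyticAt] with z hz hza
    rw [hz.deriv_eq]
    have e1 : HasDerivAt (fun z => (z - ζ) ^ m) ((m : ℂ) * (z - ζ) ^ (m - 1)) z := by
      have h5 := ((hasDerivAt_id z).sub_const ζ).pow m
      have h6 : HasDerivAt (fun z : ℂ => (z - ζ) ^ m) ((m : ℂ) * (z - ζ) ^ (m - 1) * 1) z := h5
      rwa [mul_one] at h6
    have e2 := e1.mul hza.differentiableAt.hasDerivAt
    exact e2.deriv
  have hne : ∀ᶠ z in 𝓝 ζ, h z ≠ 0 := hha.continuousAt.eventually_ne hh0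
  obtain ⟨B, hB⟩ : ∃ B : ℝ, ∀ᶠ z in 𝓝 ζ, 3 / (-z.re) ≤ B := by
    have hc : ContinuousAt (fun z : ℂ => 3 / (-z.re)) ζ := by
      have hre : ζ.re < 0 := hζ
      apply ContinuousAt.div
      · fun_prop
      · fun_prop
      · linarith
    refine ⟨3 / (-ζ.re) + 1, ?_⟩
    filter_upwards [hc.eventually (gt_mem_nhds (lt_add_one _))] with z hz
    exact hz.le
  -- the inequality for z ≠ ζ
  have hineq : ∀ᶠ z in 𝓝[≠] ζ, ‖(m : ℂ) * h z + (z - ζ) * deriv h z‖ ≤ B * ‖z - ζ‖ * ‖h z‖ := by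
    have hall := ((heq.and hder).and (hne.and (hB.and (isOpen_LH.mem_nhds hζ))))
    filter_upwards [hall.filter_mono nhdsWithin_le_nhds, self_mem_nhdsWithin] with z hz hzne
    obtain ⟨⟨hz1, hz2⟩, hz3, hz4, hz5⟩ := hz
    have hzne' : z - ζ ≠ 0 := sub_ne_zero.2 hzne
    have hG0 : deriv G z ≠ 0 := by
      rw [hz1]
      exact smul_ne_zero (pow_ne_zero _ hzne') hz3
    have hps := Pool.Agent.Helper46.Rel.pre_schwarzian_of bieb hd hi hz5
    have hre : z.re < 0 := hz5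
    have h1 : ‖deriv (deriv G) z‖ ≤ B * ‖deriv G z‖ := by
      have h2 : ‖deriv (deriv G) z / deriv G z‖ ≤ 3 / (-z.re) := by
        calc ‖deriv (deriv G) z / deriv G z‖
            = ‖(deriv (deriv G) z / deriv G z + 1 / (z.re : ℂ)) - 1 / (z.re : ℂ)‖ := by
              congr 1; ring
          _ ≤ ‖deriv (deriv G) z / deriv G z + 1 / (z.re : ℂ)‖ + ‖1 / (z.re : ℂ)‖ :=
              norm_sub_le _ _
          _ ≤ 2 / (-z.re) + 1 / (-z.re) := by
              have : ‖1 / (z.re : ℂ)‖ = 1 / (-z.re) := by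
                rw [norm_div, norm_one, Complex.norm_real, Real.norm_eq_abs, abs_of_neg hre]
              rw [this]
              linarith
          _ = 3 / (-z.re) := by ring
      rw [norm_div, div_le_iff₀ (norm_pos_iff.2 hG0)] at h2
      exact le_trans h2 (mul_le_mul_of_nonneg_right hz4 (norm_nonneg _))
    rw [hz2, hz1] at h1
    have e1 : (m : ℂ) * (z - ζ) ^ (m - 1) * h z + (z - ζ) ^ m * deriv h z
        = (z - ζ) ^ (m - 1) * ((m : ℂ) * h z + (z - ζ) * deriv h z) := by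
      have : (z - ζ) ^ m = (z - ζ) ^ (m - 1) * (z - ζ) := by
        rw [← pow_succ]; congr 1; omega
      rw [this]; ring
    have e2 : ‖(z - ζ) ^ m • h z‖ = ‖(z - ζ) ^ (m - 1)‖ * (‖z - ζ‖ * ‖h z‖) := by
      have : (z - ζ) ^ m = (z - ζ) ^ (m - 1) * (z - ζ) := by
        rw [← pow_succ]; congr 1; omega
      rw [smul_eq_mul, this, norm_mul, norm_mul]; ring
    rw [e1, norm_mul, e2] at h1
    have h3 : 0 < ‖(z - ζ) ^ (m - 1)‖ := norm_pos_iff.2 (pow_ne_zero _ hzne')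
    have h4 : ‖(z - ζ) ^ (m - 1)‖ * ‖(m : ℂ) * h z + (z - ζ) * deriv h z‖
        ≤ ‖(z - ζ) ^ (m - 1)‖ * (B * ‖z - ζ‖ * ‖h z‖) := by
      calc _ ≤ _ := h1
        _ = _ := by ring
    exact le_of_mul_le_mul_left h4 h3
  -- pass to the limit
  have hch : ContinuousAt h ζ := hha.continuousAt
  have hch' : ContinuousAt (deriv h) ζ := hha.deriv.continuousAt
  have hl : Tendsto (fun z => ‖(m : ℂ) * h z + (z - ζ) * deriv h z‖) (𝓝[≠] ζ)
      (𝓝 ‖(m : ℂ) * h ζ + (ζ - ζ) * deriv h ζ‖) := by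
    have hc : ContinuousAt (fun z => ‖(m : ℂ) * h z + (z - ζ) * deriv h z‖) ζ := by
      fun_prop
    exact hc.tendsto.mono_left nhdsWithin_le_nhds
  have hr : Tendsto (fun z => B * ‖z - ζ‖ * ‖h z‖) (𝓝[≠] ζ) (𝓝 (B * ‖ζ - ζ‖ * ‖h ζ‖)) := by
    have hc : ContinuousAt (fun z => B * ‖z - ζ‖ * ‖h z‖) ζ := by
      fun_prop
    exact hc.tendsto.mono_left nhdsWithin_le_nhds
  have hfin := le_of_tendsto_of_tendsto hl hr hineq
  rw [sub_self, zero_mul, add_zero, norm_zero, mul_zero, zero_mul] at hfin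
  have : (m : ℂ) * h ζ ≠ 0 := by
    apply mul_ne_zero _ hh0
    exact_mod_cast (by omega : m ≠ 0)
  exact this (norm_le_zero_iff.1 hfin)

/-- The function `z f'/f`. -/
noncomputable def gfun (lam : ℂ → ℂ) (z : ℂ) : ℂ := 1 + z * deriv lam z

theorem LogData.gdiff (h : LogData f G lam) : DifferentiableOn ℂ (gfun lam) (ball 0 1) := by
  unfold gfun
  have := h.ldiff.deriv isOpen_ball
  fun_prop

theorem LogData.derivG (h : LogData f G lam) {ζ : ℂ} (hζ : ζ ∈ LH) :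
    deriv G ζ = gfun lam (exp ζ) := by
  have hG : G = fun ζ => ζ + lam (exp ζ) := funext h.Gdef
  have h1 : HasDerivAt lam (deriv lam (exp ζ)) (exp ζ) :=
    (h.ldiff.differentiableAt (isOpen_ball.mem_nhds (exp_mem_ball hζ))).hasDerivAt
  have h2 : HasDerivAt (fun ζ => ζ + lam (exp ζ)) (1 + deriv lam (exp ζ) * exp ζ) ζ :=
    (hasDerivAt_id ζ).add (h1.comp ζ (Complex.hasDerivAt_exp ζ))
  rw [hG, h2.deriv, gfun]
  ring

theorem LogData.deriv2G (h : LogData f G lam) {ζ : ℂ} (hζ : ζ ∈ LH) :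
    deriv (deriv G) ζ = exp ζ * deriv (gfun lam) (exp ζ) := by
  have hev : deriv G =ᶠ[𝓝 ζ] fun ζ => gfun lam (exp ζ) := by
    filter_upwards [isOpen_LH.mem_nhds hζ] with ξ hξ
    exact h.derivG hξ
  rw [hev.deriv_eq]
  have h1 : HasDerivAt (gfun lam) (deriv (gfun lam) (exp ζ)) (exp ζ) :=
    (h.gdiff.differentiableAt (isOpen_ball.mem_nhds (exp_mem_ball hζ))).hasDerivAt
  have h2 := h1.comp ζ (Complex.hasDerivAt_exp ζ)
  have h3 : deriv (fun ζ => gfun lam (exp ζ)) ζ = deriv (gfun lam) (exp ζ) * exp ζ := h2.deriv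
  rw [h3]
  ring

theorem exists_exp {s : ℝ} (hs : 0 < s) {z : ℂ} (hz : ‖z‖ = Real.exp (-s)) :
    ∃ ζ ∈ LH, exp ζ = z ∧ ζ.re = -s := by
  have hz0 : z ≠ 0 := by
    rw [← norm_pos_iff, hz]; exact Real.exp_pos _
  have hre : (log z).re = -s := by
    rw [log_re, hz, Real.log_exp]
  refine ⟨log z, ?_, exp_log hz0, hre⟩
  show (log z).re < 0
  rw [hre]; linarith

theorem LogData.bnd (h : LogData f G lam) : Bnd f G lam 30 := by
  refine ⟨h, by norm_num, ?_⟩
  intro ζ hζ h1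
  exact Pool.Agent.Helper46.Rel.deriv_bound_of bieb h.Gdiff h.Ginj h.Gper hζ h1

/-- Localized integral means for `deriv G`. -/
theorem LogData.means (h : LogData f G lam) :
    ∃ C : ℝ, 0 ≤ C ∧ ∀ t : ℝ, 0 < t → t ≤ 1 → ∀ τ₀ s : ℝ, 0 < s → s ≤ t →
      ∫ τ in (τ₀ - t)..(τ₀ + t), ‖deriv G (-(s : ℂ) + τ * I)‖ ^ (7 / 100 : ℝ)
        ≤ C * t ^ (93 / 100 : ℝ) * (t / s) ^ (17 / 1000 : ℝ) := by
  have hg0 : ∀ z ∈ ball (0 : ℂ) 1, gfun lam z ≠ 0 := by
    intro z hz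
    by_cases hz0 : z = 0
    · rw [hz0]; unfold gfun; simp
    · have hzpos : 0 < ‖z‖ := norm_pos_iff.2 hz0
      have hz1 : ‖z‖ < 1 := mem_ball_zero_iff.1 hz
      obtain ⟨ζ, hζ, he, _⟩ := exists_exp (s := -Real.log ‖z‖)
        (by have := Real.log_neg hzpos hz1; linarith) (z := z)
        (by rw [neg_neg, Real.exp_log hzpos])
      rw [← he, ← h.derivG hζ]
      exact deriv_ne_zero_LH h.Gdiff h.Ginj hζ
  have hpre : ∀ s : ℝ, 0 < s → ∀ z : ℂ, ‖z‖ = Real.exp (-s) →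
      ‖z * deriv (gfun lam) z / gfun lam z - 1 / (s : ℂ)‖ ≤ 2 / s := by
    intro s hs z hz
    obtain ⟨ζ, hζ, he, hre⟩ := exists_exp hs hz
    have h1 := Pool.Agent.Helper46.Rel.pre_schwarzian_of bieb h.Gdiff h.Ginj hζ
    rw [h.deriv2G hζ, h.derivG hζ, he, hre, neg_neg] at h1
    have e1 : z * deriv (gfun lam) z / gfun lam z - 1 / (s : ℂ)
        = z * deriv (gfun lam) z / gfun lam z + 1 / ((-s : ℝ) : ℂ) := by
      push_cast
      rw [div_neg]; ring
    rw [e1]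
    exact h1
  have hA : ∀ s : ℝ, 0 < s → s ≤ 1 → ∀ z : ℂ, ‖z‖ = Real.exp (-s) →
      ‖gfun lam z‖ ≤ 30 / s := by
    intro s hs hs1 z hz
    obtain ⟨ζ, hζ, he, hre⟩ := exists_exp hs hz
    have h1 := h.bnd.der ζ hζ (by rw [hre]; linarith)
    rw [h.derivG hζ, he, hre, neg_neg] at h1
    exact h1
  obtain ⟨C, hC⟩ := Pool.Agent.Helper13.Rel.integral_means h.gdiff hg0 hpre hA
    (p := 7 / 100) (β := 17 / 1000) (by norm_num) (by norm_num) (by norm_num)
  refine ⟨max C 0, le_max_right _ _, ?_⟩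
  intro t ht ht1 τ₀ s hs hst
  have h1 := hC t ht ht1 τ₀ s hs hst
  have h2 : (∫ τ in (τ₀ - t)..(τ₀ + t), ‖deriv G (-(s : ℂ) + τ * I)‖ ^ (7 / 100 : ℝ))
      = ∫ τ in (τ₀ - t)..(τ₀ + t), ‖gfun lam (exp (-(s : ℂ) + τ * I))‖ ^ (7 / 100 : ℝ) := by
    apply intervalIntegral.integral_congr
    intro τ _
    simp only
    rw [h.derivG (mem_LH_neg hs τ)]
  rw [h2]
  refine le_trans h1 ?_
  have e1 : (1 - 7 / 100 : ℝ) = 93 / 100 := by norm_num
  rw [e1]
  apply mul_le_mul_of_nonneg_right _ (by positivity)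
  apply mul_le_mul_of_nonneg_right (le_max_left _ _) (by positivity)

end Pool.Agent.Helper60.Rel
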