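import Mathlib
import Pool.Agent.Helper60.Rel.GFun

/-!
# Rectangles and boxes
-/

namespace Pool.Agent.Helper60.Rel
open Complex MeasureTheory Set Metric
open scoped Real ENNReal

/-- Half open rectangle. -/
def RC (a b c d : ℝ) : Set ℂ := {ζ | a < ζ.re ∧ ζ.re ≤ b ∧ c ≤ ζ.im ∧ ζ.im < d}

theorem measurableSet_RC (a b c d : ℝ) : MeasurableSet (RC a b c d) := by
  apply MeasurableSet.inter
  · exact measurableSet_lt measurable_const measurable_re
  · apply MeasurableSet.inter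
    · exact measurableSet_le measurable_re measurable_const
    · apply MeasurableSet.inter
      · exact measurableSet_le measurable_const measurable_im
      · exact measurableSet_lt measurable_im measurable_const

theorem RC_eq_preimage (a b c d : ℝ) :
    RC a b c d = measurableEquivRealProd ⁻¹' (Ioc a b ×ˢ Ico c d) := by
  ext ζ
  rw [mem_preimage, measurableEquivRealProd_apply, mem_prod]
  constructor
  · rintro ⟨h1, h2, h3, h4⟩
    exact ⟨⟨h1, h2⟩, ⟨h3, h4⟩⟩
  · rintro ⟨⟨h1, h2⟩, ⟨h3, h4⟩⟩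
    exact ⟨h1, h2, h3, h4⟩

theorem rectC {F : ℂ → ℝ} (hF : ContinuousOn F LH) {a b c d : ℝ} (hab : a ≤ b) (hb : b < 0)
    (hcd : c ≤ d) :
    IntegrableOn F (RC a b c d) ∧
    (∫ x in a..b, ∫ y in c..d, F (x + y * I)) = ∫ ζ in RC a b c d, F ζ := by
  have hcont : ContinuousOn (fun p : ℝ × ℝ => F (p.1 + p.2 * I)) (Icc a b ×ˢ Icc c d) := by
    apply hF.comp
    · fun_prop
    · intro p hp
      show ((p.1 : ℂ) + p.2 * I).re < 0
      have : ((p.1 : ℂ) + p.2 * I).re = p.1 := by simp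
      rw [this]
      exact lt_of_le_of_lt hp.1.2 hb
  have hintc : IntegrableOn (fun p : ℝ × ℝ => F (p.1 + p.2 * I)) (Icc a b ×ˢ Icc c d)
      (volume.prod volume) :=
    hcont.integrableOn_compact (isCompact_Icc.prod isCompact_Icc)
  have hint : IntegrableOn (fun p : ℝ × ℝ => F (p.1 + p.2 * I)) (Ioc a b ×ˢ Ioc c d)
      (volume.prod volume) :=
    hintc.mono_set (prod_mono Ioc_subset_Icc_self Ioc_subset_Icc_self)
  have hint' : IntegrableOn (fun p : ℝ × ℝ => F (p.1 + p.2 * I)) (Ioc a b ×ˢ Ico c d)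
      (volume.prod volume) :=
    hintc.mono_set (prod_mono Ioc_subset_Icc_self Ico_subset_Icc_self)
  have hcomp : ∀ ζ : ℂ, (fun p : ℝ × ℝ => F (p.1 + p.2 * I)) (measurableEquivRealProd ζ) = F ζ := by
    intro ζ
    simp only [measurableEquivRealProd_apply, re_add_im]
  constructor
  · have h1 := (volume_preserving_equiv_real_prod.integrableOn_comp_preimage
      measurableEquivRealProd.measurableEmbedding
      (f := fun p : ℝ × ℝ => F (p.1 + p.2 * I)) (s := Ioc a b ×ˢ Ico c d)).2 (by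
        rw [Measure.volume_eq_prod]; exact hint')
    rw [← RC_eq_preimage] at h1
    exact h1.congr_fun (fun ζ _ => hcomp ζ) (measurableSet_RC a b c d)
  · have h2 : (∫ x in a..b, ∫ y in c..d, F (x + y * I))
        = ∫ p in Ioc a b ×ˢ Ioc c d, F ((p.1 : ℂ) + p.2 * I) ∂(volume.prod volume) := by
      rw [setIntegral_prod _ hint, intervalIntegral.integral_of_le hab]
      apply setIntegral_congr_fun measurableSet_Ioc
      intro x _
      simp only
      rw [intervalIntegral.integral_of_le hcd]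
    have h3 : ∫ p in Ioc a b ×ˢ Ioc c d, F ((p.1 : ℂ) + p.2 * I) ∂(volume.prod volume)
        = ∫ p in Ioc a b ×ˢ Ico c d, F ((p.1 : ℂ) + p.2 * I) ∂(volume.prod volume) := by
      rw [← Measure.prod_restrict, ← Measure.prod_restrict]
      rw [Measure.restrict_congr_set (Ico_ae_eq_Ioc (a := c) (b := d) (μ := volume))]
    rw [h2, h3, RC_eq_preimage, ← Measure.volume_eq_prod]
    have h4 := volume_preserving_equiv_real_prod.setIntegral_preimage_emb
      measurableEquivRealProd.measurableEmbedding (fun p : ℝ × ℝ => F (p.1 + p.2 * I))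
      (Ioc a b ×ˢ Ico c d)
    rw [← h4]
    apply setIntegral_congr_fun
    · exact measurableEquivRealProd.measurable (measurableSet_Ioc.prod measurableSet_Ico)
    · intro ζ _
      exact hcomp ζ

theorem RC_subset_LH {a b c d : ℝ} (hb : b < 0) : RC a b c d ⊆ LH := fun _ hζ =>
  lt_of_le_of_lt hζ.2.1 hb

/-- Grid angle. -/
noncomputable def th (n : ℕ) (i : ℕ) : ℝ := 2 * π * i / n

theorem th_succ {n : ℕ} (hn : 1 ≤ n) (i : ℕ) : th n (i + 1) = th n i + 2 * π / n := by
  unfold th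
  push_cast
  have : (n : ℝ) ≠ 0 := by positivity
  field_simp

theorem th_mono {n : ℕ} {i j : ℕ} (h : i ≤ j) : th n i ≤ th n j := by
  unfold th
  have : (i : ℝ) ≤ j := by exact_mod_cast h
  have := Real.pi_pos
  gcongr

theorem th_self {n : ℕ} (hn : 1 ≤ n) : th n n = 2 * π := by
  unfold th
  have : (n : ℝ) ≠ 0 := by positivity
  field_simp

theorem th_zero (n : ℕ) : th n 0 = 0 := by unfold th; simp

/-- The box. -/
def Box (n : ℕ) (i : ℕ) : Set ℂ :=
  RC (-(1 / (n : ℝ))) (-(1 / (2 * (n : ℝ)))) (th n i) (th n (i + 1))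

theorem measurableSet_Box (n i : ℕ) : MeasurableSet (Box n i) := measurableSet_RC _ _ _ _

theorem box_right_neg {n : ℕ} (hn : 1 ≤ n) : (-(1 / (2 * (n : ℝ)))) < 0 := by
  have : (0 : ℝ) < n := by positivity
  have : 0 < 1 / (2 * (n : ℝ)) := by positivity
  linarith

theorem box_le {n : ℕ} (hn : 1 ≤ n) : (-(1 / (n : ℝ))) ≤ -(1 / (2 * (n : ℝ))) := by
  have h0 : (0 : ℝ) < n := by positivity
  have : 1 / (2 * (n : ℝ)) ≤ 1 / (n : ℝ) := by
    apply one_div_le_one_div_of_le h0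
    linarith
  linarith

theorem Box_subset_LH {n : ℕ} (hn : 1 ≤ n) (i : ℕ) : Box n i ⊆ LH :=
  RC_subset_LH (box_right_neg hn)

theorem Box_disjoint (n : ℕ) {i j : ℕ} (h : i ≠ j) : Disjoint (Box n i) (Box n j) := by
  rw [Set.disjoint_left]
  intro ζ h1 h2
  obtain ⟨_, _, a1, a2⟩ := h1
  obtain ⟨_, _, b1, b2⟩ := h2
  rcases Nat.lt_or_gt_of_ne h with hlt | hlt
  · have : th n (i + 1) ≤ th n j := th_mono hlt
    linarith
  · have : th n (j + 1) ≤ th n i := th_mono hlt
    linarith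

theorem Box_subset_strip {n : ℕ} (hn : 1 ≤ n) {i : ℕ} (hi : i < n) :
    Box n i ⊆ {ζ : ℂ | ζ.re < 0 ∧ 0 ≤ ζ.im ∧ ζ.im < 2 * π} := by
  intro ζ hζ
  refine ⟨Box_subset_LH hn i hζ, ?_, ?_⟩
  · have : th n 0 ≤ th n i := th_mono (Nat.zero_le _)
    rw [th_zero] at this
    exact le_trans this hζ.2.2.1
  · have : th n (i + 1) ≤ th n n := th_mono hi
    rw [th_self hn] at this
    exact lt_of_lt_of_le hζ.2.2.2 this

/-- The weights. -/
noncomputable def om (G : ℂ → ℂ) (n : ℕ) (i : ℕ) : ℝ := n * ∫ ζ in Box n i, ‖deriv G ζ‖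

variable {f G lam : ℂ → ℂ}

theorem om_nonneg (G : ℂ → ℂ) (n i : ℕ) : 0 ≤ om G n i := by
  unfold om
  apply mul_nonneg (by positivity)
  exact setIntegral_nonneg (measurableSet_Box n i) (fun _ _ => norm_nonneg _)

theorem LogData.contW (h : LogData f G lam) : ContinuousOn (fun ζ => ‖deriv G ζ‖) LH :=
  (h.Gdiff.deriv isOpen_LH).continuousOn.norm

/-- Values of `Re G` in a box. -/
theorem LogData.box_re (h : LogData f G lam) {n : ℕ} (hn : 1 ≤ n) {i : ℕ} {ζ : ℂ}
    (hζ : ζ ∈ Box n i) :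
    |(G ζ).re - (G (-((1 / (n : ℝ) : ℝ) : ℂ) + th n i * I)).re| ≤ 240 := by
  obtain ⟨h1, h2, h3, h4⟩ := hζ
  have h0 : (0 : ℝ) < n := by positivity
  have hn1 : (1 : ℝ) ≤ n := by exact_mod_cast hn
  set σ : ℝ := 1 / (n : ℝ) with hσ
  have hσ0 : 0 < σ := by positivity
  have hσ1 : σ ≤ 1 := by rw [hσ, div_le_one h0]; exact hn1
  have hσ2 : 1 / (2 * (n : ℝ)) = σ / 2 := by rw [hσ]; field_simp
  set s : ℝ := -ζ.re with hs
  have hs1 : σ / 2 ≤ s := by rw [hs]; linarith
  have hs2 : s ≤ σ := by rw [hs]; linarith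
  have hζe : ζ = -(s : ℂ) + ζ.im * I := by
    apply Complex.ext
    · simp [hs]
    · simp
  have v := h.bnd.vert (s := s) (t := σ) (by linarith) (by linarith) hσ0 hσ1 ζ.im
  have w := h.bnd.horiz hσ0 hσ1 ζ.im (th n i)
  rw [← hζe] at v
  have e1 : |Real.log s - Real.log σ| ≤ 1 := by
    rw [abs_le]
    constructor
    · have h5 : Real.log (σ / 2) ≤ Real.log s := Real.log_le_log (by linarith) hs1
      rw [Real.log_div hσ0.ne' (by norm_num)] at h5
      have := Real.log_two_lt_d9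
      linarith
    · have h5 : Real.log s ≤ Real.log σ := Real.log_le_log (by linarith) hs2
      linarith
  have e2 : |ζ.im - th n i| ≤ 2 * π * σ := by
    rw [th_succ hn] at h4
    rw [abs_le]
    have e3 : 2 * π / n = 2 * π * σ := by rw [hσ]; ring
    rw [e3] at h4
    have : 0 ≤ 2 * π * σ := by positivity
    constructor <;> linarith
  have e4 : 30 / σ * |ζ.im - th n i| ≤ 60 * π := by
    calc 30 / σ * |ζ.im - th n i| ≤ 30 / σ * (2 * π * σ) := by gcongr
      _ = 60 * π := by field_simp; ring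
  have hpi := Real.pi_lt_d2
  calc |(G ζ).re - (G (-(σ : ℂ) + th n i * I)).re|
      = |(G ζ - G (-(σ : ℂ) + th n i * I)).re| := by rw [sub_re]
    _ ≤ ‖G ζ - G (-(σ : ℂ) + th n i * I)‖ := Complex.abs_re_le_norm _
    _ = ‖(G ζ - G (-(σ : ℂ) + ζ.im * I)) + (G (-(σ : ℂ) + ζ.im * I)
          - G (-(σ : ℂ) + th n i * I))‖ := by congr 1; ring
    _ ≤ ‖G ζ - G (-(σ : ℂ) + ζ.im * I)‖ + ‖G (-(σ : ℂ) + ζ.im * I)
          - G (-(σ : ℂ) + th n i * I)‖ := norm_add_le _ _
    _ ≤ 30 * 1 + 60 * π := by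
        apply add_le_add
        · refine le_trans v ?_
          gcongr
        · exact le_trans w e4
    _ ≤ 240 := by linarith

end Pool.Agent.Helper60.Rel
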