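import Mathlib
import Pool.Agent.Helper60.Rel.Boxes

/-!
# The bound for the weights of a level set in an arc
-/

namespace Pool.Agent.Helper60.Rel
open Complex MeasureTheory Set Metric
open scoped Real ENNReal

variable {f G lam : ℂ → ℂ}

/-- Hoelder inequality on a set. -/
theorem holder_set {W : ℂ → ℝ} (hW0 : ∀ ζ, 0 ≤ W ζ) {R : Set ℂ}
    (hWm : AEMeasurable W (volume.restrict R)) :
    ∫⁻ ζ in R, ENNReal.ofReal (W ζ)
      ≤ (∫⁻ ζ in R, ENNReal.ofReal (W ζ ^ (7 / 100 : ℝ))) ^ (100 / 193 : ℝ)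
        * (∫⁻ ζ in R, ENNReal.ofReal (W ζ ^ 2)) ^ (93 / 193 : ℝ) := by
  have hpq : Real.HolderConjugate (193 / 100) (193 / 93) := by
    rw [Real.holderConjugate_iff]
    constructor <;> norm_num
  have key := ENNReal.lintegral_mul_le_Lp_mul_Lq (volume.restrict R) hpq
    (f := fun ζ => ENNReal.ofReal (W ζ ^ (7 / 193 : ℝ)))
    (g := fun ζ => ENNReal.ofReal (W ζ ^ (186 / 193 : ℝ)))
    (ENNReal.measurable_ofReal.comp_aemeasurable (hWm.pow_const _))
    (ENNReal.measurable_ofReal.comp_aemeasurable (hWm.pow_const _))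
  have e1 : ∀ ζ, ENNReal.ofReal (W ζ) = ((fun ζ => ENNReal.ofReal (W ζ ^ (7 / 193 : ℝ)))
      * (fun ζ => ENNReal.ofReal (W ζ ^ (186 / 193 : ℝ)))) ζ := by
    intro ζ
    simp only [Pi.mul_apply]
    rw [← ENNReal.ofReal_mul (Real.rpow_nonneg (hW0 ζ) _)]
    congr 1
    rcases (hW0 ζ).eq_or_lt with h | h
    · rw [← h, Real.zero_rpow (by norm_num), zero_mul]
    · rw [← Real.rpow_add h]
      norm_num
  have e2 : ∀ ζ, (ENNReal.ofReal (W ζ ^ (7 / 193 : ℝ))) ^ (193 / 100 : ℝ)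
      = ENNReal.ofReal (W ζ ^ (7 / 100 : ℝ)) := by
    intro ζ
    rw [ENNReal.ofReal_rpow_of_nonneg (Real.rpow_nonneg (hW0 ζ) _) (by norm_num),
      ← Real.rpow_mul (hW0 ζ)]
    norm_num
  have e3 : ∀ ζ, (ENNReal.ofReal (W ζ ^ (186 / 193 : ℝ))) ^ (193 / 93 : ℝ)
      = ENNReal.ofReal (W ζ ^ 2) := by
    intro ζ
    rw [ENNReal.ofReal_rpow_of_nonneg (Real.rpow_nonneg (hW0 ζ) _) (by norm_num),
      ← Real.rpow_mul (hW0 ζ), ← Real.rpow_natCast]
    norm_num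
  simp only [e2, e3] at key
  rw [lintegral_congr e1]
  convert key using 3 <;> norm_num

/-- `L^2` bound on a level set. -/
theorem LogData.sq_bound (h : LogData f G lam) {R : Set ℂ} (hRm : MeasurableSet R)
    (hR : R ⊆ {ζ : ℂ | ζ.re < 0 ∧ 0 ≤ ζ.im ∧ ζ.im < 2 * π}) {k : ℝ}
    (hlev : ∀ ζ ∈ R, (G ζ).re ∈ Icc (k - 240) (k + 241)) :
    ∫⁻ ζ in R, ENNReal.ofReal (‖deriv G ζ‖ ^ 2) ≤ ENNReal.ofReal (2 * π * 481) := by
  have h1 := area_bound h.fdiff h.finj h.Gdiff h.Gexp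
    ((Icc (k - 240) (k + 241)).indicator (fun _ => 1))
    (measurable_const.indicator measurableSet_Icc)
  have h2 : ∫⁻ t, (Icc (k - 240) (k + 241)).indicator (fun _ => (1 : ℝ≥0∞)) t
      = ENNReal.ofReal 481 := by
    rw [lintegral_indicator measurableSet_Icc, setLIntegral_one, Real.volume_Icc]
    congr 1; ring
  rw [h2, ← ENNReal.ofReal_mul (by positivity)] at h1
  refine le_trans ?_ h1
  calc ∫⁻ ζ in R, ENNReal.ofReal (‖deriv G ζ‖ ^ 2)
      = ∫⁻ ζ in R, (Icc (k - 240) (k + 241)).indicator (fun _ => (1 : ℝ≥0∞)) (G ζ).re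
          * ENNReal.ofReal (‖deriv G ζ‖ ^ 2) := by
        apply setLIntegral_congr_fun hRm
        intro ζ hζ
        simp only
        rw [indicator_of_mem (hlev ζ hζ), one_mul]
    _ ≤ _ := lintegral_mono_set hR

/-- `L^p` bound over a rectangle. -/
theorem LogData.p_bound (h : LogData f G lam) :
    ∃ C : ℝ, 0 ≤ C ∧ ∀ n : ℕ, 1 ≤ n → ∀ t : ℝ, 1 / (n : ℝ) ≤ t → t ≤ 1 → ∀ τ₀ : ℝ,
      ∫⁻ ζ in RC (-(1 / (n : ℝ))) (-(1 / (2 * (n : ℝ)))) (τ₀ - t) (τ₀ + t),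
        ENNReal.ofReal (‖deriv G ζ‖ ^ (7 / 100 : ℝ))
      ≤ ENNReal.ofReal (C / n * t ^ (93 / 100 : ℝ) * (n * t) ^ (17 / 1000 : ℝ)) := by
  obtain ⟨C, hC0, hC⟩ := h.means
  refine ⟨2 * C, by positivity, ?_⟩
  intro n hn t ht ht1 τ₀
  have h0 : (0 : ℝ) < n := by positivity
  have ht0 : 0 < t := lt_of_lt_of_le (by positivity) ht
  have hcW : ContinuousOn (fun ζ => ‖deriv G ζ‖ ^ (7 / 100 : ℝ)) LH :=
    h.contW.rpow_const (fun ζ _ => Or.inr (by norm_num))
  obtain ⟨hi, he⟩ := rectC hcW (box_le hn) (box_right_neg hn)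
    (by linarith : τ₀ - t ≤ τ₀ + t)
  rw [← ofReal_integral_eq_lintegral_ofReal hi
    (Filter.Eventually.of_forall (fun ζ => Real.rpow_nonneg (norm_nonneg _) _)), ← he]
  apply ENNReal.ofReal_le_ofReal
  have hB : ∀ x ∈ Set.uIoc (-(1 / (n : ℝ))) (-(1 / (2 * (n : ℝ)))),
      ‖∫ y in (τ₀ - t)..(τ₀ + t), ‖deriv G (x + y * I)‖ ^ (7 / 100 : ℝ)‖
        ≤ C * t ^ (93 / 100 : ℝ) * (2 * (n * t)) ^ (17 / 1000 : ℝ) := by
    intro x hx
    rw [uIoc_of_le (box_le hn)] at hx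
    have hs0 : 0 < -x := by
      have := box_right_neg hn
      linarith [hx.2]
    have hs1 : -x ≤ t := by linarith [hx.1]
    have hs2 : 1 / (2 * (n : ℝ)) ≤ -x := by linarith [hx.2]
    have h1 := hC t ht0 ht1 τ₀ (-x) hs0 hs1
    have e1 : ∀ y : ℝ, (-((-x : ℝ) : ℂ) + y * I) = (x : ℂ) + y * I := by
      intro y; push_cast; ring
    simp_rw [e1] at h1
    rw [Real.norm_eq_abs, abs_of_nonneg]
    · refine le_trans h1 ?_
      apply mul_le_mul_of_nonneg_left _ (by positivity)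
      apply Real.rpow_le_rpow (by positivity) _ (by norm_num)
      rw [div_le_iff₀ hs0]
      have : 1 ≤ 2 * (n : ℝ) * (-x) := by
        rw [div_le_iff₀ (by positivity)] at hs2
        linarith
      nlinarith
    · exact intervalIntegral.integral_nonneg (by linarith)
        (fun y _ => Real.rpow_nonneg (norm_nonneg _) _)
  have h2 := intervalIntegral.norm_integral_le_of_norm_le_const hB
  rw [Real.norm_eq_abs] at h2
  refine le_trans (le_abs_self _) (le_trans h2 ?_)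
  have e2 : |(-(1 / (2 * (n : ℝ)))) - (-(1 / (n : ℝ)))| = 1 / (2 * n) := by
    have : (-(1 / (2 * (n : ℝ)))) - (-(1 / (n : ℝ))) = 1 / (2 * n) := by
      field_simp
      ring
    rw [this, abs_of_pos (by positivity)]
  rw [e2]
  have e3 : (2 * (n * t)) ^ (17 / 1000 : ℝ) ≤ 2 * (n * t) ^ (17 / 1000 : ℝ) := by
    rw [Real.mul_rpow (by norm_num) (by positivity)]
    apply mul_le_mul_of_nonneg_right _ (by positivity)
    calc (2 : ℝ) ^ (17 / 1000 : ℝ) ≤ 2 ^ (1 : ℝ) :=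
          Real.rpow_le_rpow_of_exponent_le (by norm_num) (by norm_num)
      _ = 2 := by rw [Real.rpow_one]
  calc C * t ^ (93 / 100 : ℝ) * (2 * (n * t)) ^ (17 / 1000 : ℝ) * (1 / (2 * n))
      ≤ C * t ^ (93 / 100 : ℝ) * (2 * (n * t) ^ (17 / 1000 : ℝ)) * (1 / (2 * n)) := by
        gcongr
    _ = C / n * t ^ (93 / 100 : ℝ) * (n * t) ^ (17 / 1000 : ℝ) := by
        field_simp
    _ ≤ 2 * C / n * t ^ (93 / 100 : ℝ) * (n * t) ^ (17 / 1000 : ℝ) := by
        gcongr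
        linarith

/-- Chord and angle. -/
theorem chord_round {n : ℕ} {i j : ℕ} (hi : i < n) (hj : j < n) {ρ : ℝ}
    (hρ : ‖exp (th n i * I) - exp (th n j * I)‖ ≤ ρ) :
    ∃ m : Fin 4, |th n i - (th n j + 2 * π * ((m : ℕ) - 1))| ≤ π / 2 * ρ := by
  have hn : 1 ≤ n := by omega
  have h0 : (0 : ℝ) < n := by positivity
  set D := th n i - th n j with hD
  have hpi := Real.pi_pos
  have hi2 : th n i < 2 * π := by
    unfold th
    rw [div_lt_iff₀ h0]
    have : (i : ℝ) < n := by exact_mod_cast hi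
    nlinarith
  have hj2 : th n j < 2 * π := by
    unfold th
    rw [div_lt_iff₀ h0]
    have : (j : ℝ) < n := by exact_mod_cast hj
    nlinarith
  have hi1 : 0 ≤ th n i := by unfold th; positivity
  have hj1 : 0 ≤ th n j := by unfold th; positivity
  set r : ℤ := round (D / (2 * π)) with hr
  have h1 := abs_sub_round (D / (2 * π))
  rw [← hr] at h1
  have hDr : |D - r * (2 * π)| ≤ π := by
    have h2 : D - (r : ℝ) * (2 * π) = (D / (2 * π) - r) * (2 * π) := by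
      field_simp
    rw [h2, abs_mul, abs_of_pos (by positivity : (0 : ℝ) < 2 * π)]
    nlinarith
  have hr1 : -1 ≤ r ∧ r ≤ 1 := by
    have hDl : -(2 * π) < D := by rw [hD]; linarith
    have hDu : D < 2 * π := by rw [hD]; linarith
    rw [abs_le] at hDr
    constructor
    · by_contra hlt
      have : r ≤ -2 := by omega
      have : (r : ℝ) ≤ -2 := by exact_mod_cast this
      nlinarith [hDr.2]
    · by_contra hlt
      have : 2 ≤ r := by omega
      have : (2 : ℝ) ≤ r := by exact_mod_cast this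
      nlinarith [hDr.1]
  -- Jordan
  have hjor : 2 / π * |D - r * (2 * π)| ≤ ρ := by
    have e1 : ‖exp (th n i * I) - exp (th n j * I)‖ = |2 * Real.sin ((D - r * (2 * π)) / 2)| := by
      have a1 : exp (th n i * I) - exp (th n j * I)
          = exp (th n j * I) * (exp (((D - r * (2 * π) : ℝ) : ℂ) * I) - 1) := by
        have b1 : exp (((D - r * (2 * π) : ℝ) : ℂ) * I) = exp ((D : ℂ) * I) := by
          rw [← Complex.exp_periodic.int_mul r (((D - r * (2 * π) : ℝ) : ℂ) * I)]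
          congr 1
          push_cast; ring
        rw [b1, mul_sub, mul_one, ← Complex.exp_add]
        congr 2
        rw [hD]; push_cast; ring
      rw [a1, norm_mul, Complex.norm_exp_ofReal_mul_I, one_mul]
      have := Complex.norm_exp_I_mul_ofReal_sub_one (D - r * (2 * π))
      rw [mul_comm I] at this
      rw [this, Real.norm_eq_abs]
    rw [e1] at hρ
    refine le_trans ?_ hρ
    have h3 : |(D - r * (2 * π)) / 2| ≤ π / 2 := by
      rw [abs_div, abs_of_pos (by norm_num : (0 : ℝ) < 2)]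
      linarith
    have h4 := Real.mul_abs_le_abs_sin h3
    rw [abs_mul, abs_of_pos (by norm_num : (0 : ℝ) < 2)]
    rw [abs_div, abs_of_pos (by norm_num : (0 : ℝ) < 2)] at h4
    calc 2 / π * |D - r * (2 * π)| = 2 * (2 / π * (|D - r * (2 * π)| / 2)) := by ring
      _ ≤ _ := by linarith
  have hfin : |D - r * (2 * π)| ≤ π / 2 * ρ := by
    rw [div_mul_eq_mul_div, div_le_iff₀ hpi] at hjor
    linarith
  refine ⟨⟨(r + 1).toNat, by omega⟩, ?_⟩
  have e2 : (((r + 1).toNat : ℕ) : ℝ) = (r : ℝ) + 1 := by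
    have : (((r + 1).toNat : ℕ) : ℤ) = r + 1 := Int.toNat_of_nonneg (by omega)
    have h5 : ((((r + 1).toNat : ℕ) : ℤ) : ℝ) = ((r + 1 : ℤ) : ℝ) := by rw [this]
    push_cast at h5
    exact_mod_cast h5
  simp only
  rw [e2]
  have e3 : th n i - (th n j + 2 * π * ((r : ℝ) + 1 - 1)) = D - r * (2 * π) := by
    rw [hD]; ring
  rw [e3]
  exact hfin

/-- The weight bound. -/
theorem LogData.omega_bound (h : LogData f G lam) :
    ∃ C : ℝ, 0 ≤ C ∧ ∀ n : ℕ, 1 ≤ n → ∀ (A : Finset (Fin n)) (j : Fin n) (ρ k : ℝ),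
      1 / (n : ℝ) ≤ ρ →
      (∀ i ∈ A, ‖exp (th n i * I) - exp (th n j * I)‖ ≤ ρ) →
      (∀ i ∈ A, (G (-((1 / (n : ℝ) : ℝ) : ℂ) + th n i * I)).re ∈ Icc k (k + 1)) →
      ∑ i ∈ A, om G n i ≤ C * (n * ρ) ^ (947 / 1930 : ℝ) := by
  obtain ⟨C, hC0, hC⟩ := h.p_bound
  refine ⟨(32 * C) ^ (100 / 193 : ℝ) * (2 * π * 481) ^ (93 / 193 : ℝ), by positivity, ?_⟩
  intro n hn A j ρ k hρ hA hlev
  have h0 : (0 : ℝ) < n := by positivity
  have hn1 : (1 : ℝ) ≤ n := by exact_mod_cast hn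
  have hρ0 : 0 < ρ := lt_of_lt_of_le (by positivity) hρ
  have hpi := Real.pi_pos
  set R : Set ℂ := ⋃ i ∈ A, Box n i with hR
  have hRm : MeasurableSet R := A.measurableSet_biUnion (fun i _ => measurableSet_Box n i)
  have hRstrip : R ⊆ {ζ : ℂ | ζ.re < 0 ∧ 0 ≤ ζ.im ∧ ζ.im < 2 * π} := by
    rw [hR]
    exact iUnion₂_subset (fun i _ => Box_subset_strip hn i.2)
  have hRlev : ∀ ζ ∈ R, (G ζ).re ∈ Icc (k - 240) (k + 241) := by
    intro ζ hζ
    rw [hR, mem_iUnion₂] at hζ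
    obtain ⟨i, hi, hζi⟩ := hζ
    have h1 := abs_le.1 (h.box_re hn hζi)
    have h2 := hlev i hi
    constructor
    · linarith [h1.1, h2.1]
    · linarith [h1.2, h2.2]
  have hint : ∀ i ∈ A, IntegrableOn (fun ζ => ‖deriv G ζ‖) (Box n i) := by
    intro i _
    exact (rectC h.contW (box_le hn) (box_right_neg hn) (th_mono (Nat.le_succ _))).1
  have hRint : IntegrableOn (fun ζ => ‖deriv G ζ‖) R :=
    (integrableOn_finset_iUnion).2 hint
  have hsum : ∑ i ∈ A, om G n i = n * ∫ ζ in R, ‖deriv G ζ‖ := by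
    unfold om
    rw [← Finset.mul_sum, hR, integral_biUnion_finset A (fun i _ => measurableSet_Box n i) _ hint]
    intro i _ j _ hij
    exact Box_disjoint n (fun hc => hij (Fin.ext hc))
  -- covering
  set t : ℝ := min 1 (8 * ρ) with ht
  have ht1 : t ≤ 1 := min_le_left _ _
  have htn : 1 / (n : ℝ) ≤ t := by
    apply le_min
    · rw [div_le_one h0]; exact hn1
    · linarith
  have ht0 : 0 < t := lt_of_lt_of_le (by positivity) htn
  have ht8 : t ≤ 8 * ρ := min_le_right _ _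
  obtain ⟨c, hcov⟩ : ∃ c : Fin 4 → ℝ, R ⊆ ⋃ m : Fin 4,
      RC (-(1 / (n : ℝ))) (-(1 / (2 * (n : ℝ)))) (c m - t) (c m + t) := by
    rcases le_or_gt (8 * ρ) 1 with h8 | h8
    · refine ⟨fun m => th n j + 2 * π * ((m : ℕ) - 1), ?_⟩
      intro ζ hζ
      rw [hR, mem_iUnion₂] at hζ
      obtain ⟨i, hi, hζi⟩ := hζ
      obtain ⟨m, hm⟩ := chord_round i.2 j.2 (hA i hi)
      rw [mem_iUnion]
      refine ⟨m, hζi.1, hζi.2.1, ?_, ?_⟩
      · rw [abs_le] at hm
        have h3 := hζi.2.2.1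
        have h4 : t = 8 * ρ := by rw [ht, min_eq_right h8]
        rw [h4]
        have := Real.pi_lt_d2
        nlinarith [hm.1]
      · rw [abs_le] at hm
        have h3 := hζi.2.2.2
        rw [th_succ hn] at h3
        have h4 : t = 8 * ρ := by rw [ht, min_eq_right h8]
        rw [h4]
        have h5 : 2 * π / n ≤ 2 * π * ρ := by
          rw [div_eq_mul_one_div]
          exact mul_le_mul_of_nonneg_left hρ (by positivity)
        have := Real.pi_lt_d2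
        nlinarith [hm.2]
    · refine ⟨fun m => 2 * (m : ℕ) + 1, ?_⟩
      intro ζ hζ
      have h4 : t = 1 := by rw [ht, min_eq_left h8.le]
      have hst := hRstrip hζ
      obtain ⟨_, s1, s2⟩ := hst
      have hbox : ∃ i ∈ A, ζ ∈ Box n i := by
        rw [hR, mem_iUnion₂] at hζ
        obtain ⟨i, hi, hζi⟩ := hζ
        exact ⟨i, hi, hζi⟩
      obtain ⟨i, _, hζi⟩ := hbox
      rw [mem_iUnion]
      have hp := Real.pi_lt_d2
      have hfl : ⌊ζ.im / 2⌋₊ < 4 := by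
        rw [Nat.floor_lt (by linarith)]
        push_cast
        linarith
      refine ⟨⟨⌊ζ.im / 2⌋₊, hfl⟩, hζi.1, hζi.2.1, ?_, ?_⟩
      · rw [h4]
        simp only
        have := Nat.floor_le (by linarith : 0 ≤ ζ.im / 2)
        linarith
      · rw [h4]
        simp only
        have := Nat.lt_floor_add_one (ζ.im / 2)
        linarith
  have hp : ∫⁻ ζ in R, ENNReal.ofReal (‖deriv G ζ‖ ^ (7 / 100 : ℝ))
      ≤ ENNReal.ofReal (4 * (C / n * t ^ (93 / 100 : ℝ) * (n * t) ^ (17 / 1000 : ℝ))) := by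
    calc ∫⁻ ζ in R, ENNReal.ofReal (‖deriv G ζ‖ ^ (7 / 100 : ℝ))
        ≤ ∫⁻ ζ in ⋃ m : Fin 4,
            RC (-(1 / (n : ℝ))) (-(1 / (2 * (n : ℝ)))) (c m - t) (c m + t),
            ENNReal.ofReal (‖deriv G ζ‖ ^ (7 / 100 : ℝ)) := lintegral_mono_set hcov
      _ ≤ ∑' m : Fin 4, ∫⁻ ζ in
            RC (-(1 / (n : ℝ))) (-(1 / (2 * (n : ℝ)))) (c m - t) (c m + t),
            ENNReal.ofReal (‖deriv G ζ‖ ^ (7 / 100 : ℝ)) := lintegral_iUnion_le _ _
      _ = ∑ m : Fin 4, ∫⁻ ζ in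
            RC (-(1 / (n : ℝ))) (-(1 / (2 * (n : ℝ)))) (c m - t) (c m + t),
            ENNReal.ofReal (‖deriv G ζ‖ ^ (7 / 100 : ℝ)) := tsum_fintype _
      _ ≤ ∑ m : Fin 4, ENNReal.ofReal
            (C / n * t ^ (93 / 100 : ℝ) * (n * t) ^ (17 / 1000 : ℝ)) :=
          Finset.sum_le_sum (fun m _ => hC n hn t htn ht1 (c m))
      _ = ENNReal.ofReal (4 * (C / n * t ^ (93 / 100 : ℝ) * (n * t) ^ (17 / 1000 : ℝ))) := by
          have e4 : ENNReal.ofReal (4 * (C / n * t ^ (93 / 100 : ℝ) * (n * t) ^ (17 / 1000 : ℝ)))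
              = ENNReal.ofReal 4 * ENNReal.ofReal
                (C / n * t ^ (93 / 100 : ℝ) * (n * t) ^ (17 / 1000 : ℝ)) :=
            ENNReal.ofReal_mul (by norm_num)
          rw [Finset.sum_const, Finset.card_univ, Fintype.card_fin, nsmul_eq_mul, e4]
          norm_num
  have hsq := h.sq_bound hRm hRstrip hRlev
  have hhol := holder_set (W := fun ζ => ‖deriv G ζ‖) (fun ζ => norm_nonneg _) (R := R)
    hRint.aemeasurable
  set x : ℝ := n * ρ with hx
  have hx1 : 1 ≤ x := by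
    rw [hx]
    rw [div_le_iff₀ h0] at hρ
    linarith
  have hx0 : 0 < x := by linarith
  -- simplify the p bound
  have hpb : 4 * (C / n * t ^ (93 / 100 : ℝ) * (n * t) ^ (17 / 1000 : ℝ))
      ≤ 32 * C * ((1 / (n : ℝ)) ^ (193 / 100 : ℝ) * x ^ (947 / 1000 : ℝ)) := by
    have a1 : t ^ (93 / 100 : ℝ) ≤ (8 * (1 / n * x)) ^ (93 / 100 : ℝ) := by
      apply Real.rpow_le_rpow ht0.le _ (by norm_num)
      have : 1 / (n : ℝ) * x = ρ := by rw [hx]; field_simp
      rw [this]; exact ht8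
    have a2 : (n * t) ^ (17 / 1000 : ℝ) ≤ (8 * x) ^ (17 / 1000 : ℝ) := by
      apply Real.rpow_le_rpow (by positivity) _ (by norm_num)
      rw [hx]; nlinarith
    have a3 : (8 * (1 / (n : ℝ) * x)) ^ (93 / 100 : ℝ) * (8 * x) ^ (17 / 1000 : ℝ)
        ≤ 8 * ((1 / (n : ℝ)) ^ (93 / 100 : ℝ) * x ^ (947 / 1000 : ℝ)) := by
      rw [Real.mul_rpow (by norm_num) (by positivity), Real.mul_rpow (by positivity) hx0.le,
        Real.mul_rpow (by norm_num) hx0.le]
      have b1 : (8 : ℝ) ^ (93 / 100 : ℝ) * (8 : ℝ) ^ (17 / 1000 : ℝ) ≤ 8 := by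
        rw [← Real.rpow_add (by norm_num)]
        calc (8 : ℝ) ^ (93 / 100 + 17 / 1000 : ℝ) ≤ 8 ^ (1 : ℝ) :=
              Real.rpow_le_rpow_of_exponent_le (by norm_num) (by norm_num)
          _ = 8 := Real.rpow_one _
      have b2 : x ^ (93 / 100 : ℝ) * x ^ (17 / 1000 : ℝ) = x ^ (947 / 1000 : ℝ) := by
        rw [← Real.rpow_add hx0]; norm_num
      calc (8 : ℝ) ^ (93 / 100 : ℝ) * ((1 / (n : ℝ)) ^ (93 / 100 : ℝ) * x ^ (93 / 100 : ℝ))
            * ((8 : ℝ) ^ (17 / 1000 : ℝ) * x ^ (17 / 1000 : ℝ))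
          = ((8 : ℝ) ^ (93 / 100 : ℝ) * (8 : ℝ) ^ (17 / 1000 : ℝ))
            * ((1 / (n : ℝ)) ^ (93 / 100 : ℝ) * (x ^ (93 / 100 : ℝ) * x ^ (17 / 1000 : ℝ))) := by
            ring
        _ ≤ 8 * ((1 / (n : ℝ)) ^ (93 / 100 : ℝ) * (x ^ (93 / 100 : ℝ) * x ^ (17 / 1000 : ℝ))) := by
            gcongr
        _ = _ := by rw [b2]
    have a4 : (1 / (n : ℝ)) ^ (193 / 100 : ℝ) = 1 / n * (1 / (n : ℝ)) ^ (93 / 100 : ℝ) := by
      have : (193 / 100 : ℝ) = 1 + 93 / 100 := by norm_num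
      rw [this, Real.rpow_add (by positivity), Real.rpow_one]
    calc 4 * (C / n * t ^ (93 / 100 : ℝ) * (n * t) ^ (17 / 1000 : ℝ))
        = 4 * C / n * (t ^ (93 / 100 : ℝ) * (n * t) ^ (17 / 1000 : ℝ)) := by ring
      _ ≤ 4 * C / n * ((8 * (1 / (n : ℝ) * x)) ^ (93 / 100 : ℝ) * (8 * x) ^ (17 / 1000 : ℝ)) := by
          gcongr
      _ ≤ 4 * C / n * (8 * ((1 / (n : ℝ)) ^ (93 / 100 : ℝ) * x ^ (947 / 1000 : ℝ))) := by
          gcongr
      _ = 32 * C * ((1 / (n : ℝ)) ^ (193 / 100 : ℝ) * x ^ (947 / 1000 : ℝ)) := by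
          rw [a4]; ring
  -- combine
  have hcomb : ENNReal.ofReal (∫ ζ in R, ‖deriv G ζ‖)
      ≤ ENNReal.ofReal ((32 * C * ((1 / (n : ℝ)) ^ (193 / 100 : ℝ) * x ^ (947 / 1000 : ℝ)))
          ^ (100 / 193 : ℝ) * (2 * π * 481) ^ (93 / 193 : ℝ)) := by
    rw [ofReal_integral_eq_lintegral_ofReal hRint
      (Filter.Eventually.of_forall (fun ζ => norm_nonneg _))]
    refine le_trans hhol ?_
    rw [ENNReal.ofReal_mul (by positivity), ← ENNReal.ofReal_rpow_of_nonneg (by positivity)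
      (by norm_num), ← ENNReal.ofReal_rpow_of_nonneg (by positivity) (by norm_num)]
    gcongr
    · exact le_trans hp (ENNReal.ofReal_le_ofReal hpb)
  rw [ENNReal.ofReal_le_ofReal_iff (by positivity)] at hcomb
  rw [hsum]
  have e5 : (32 * C * ((1 / (n : ℝ)) ^ (193 / 100 : ℝ) * x ^ (947 / 1000 : ℝ))) ^ (100 / 193 : ℝ)
      = (32 * C) ^ (100 / 193 : ℝ) * (1 / n * x ^ (947 / 1930 : ℝ)) := by
    have e8 : 0 ≤ 32 * C := by positivity
    generalize 32 * C = a at e8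
    rw [Real.mul_rpow e8 (by positivity), Real.mul_rpow (by positivity)
      (by positivity), ← Real.rpow_mul (by positivity), ← Real.rpow_mul hx0.le]
    have e6 : (193 / 100 : ℝ) * (100 / 193) = 1 := by norm_num
    have e7 : (947 / 1000 : ℝ) * (100 / 193) = 947 / 1930 := by norm_num
    rw [e6, e7, Real.rpow_one]
  rw [e5] at hcomb
  calc (n : ℝ) * ∫ ζ in R, ‖deriv G ζ‖
      ≤ n * ((32 * C) ^ (100 / 193 : ℝ) * (1 / n * x ^ (947 / 1930 : ℝ))
          * (2 * π * 481) ^ (93 / 193 : ℝ)) := by gcongr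
    _ = (32 * C) ^ (100 / 193 : ℝ) * (2 * π * 481) ^ (93 / 193 : ℝ)
          * x ^ (947 / 1930 : ℝ) := by
        field_simp

end Pool.Agent.Helper60.Rel
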