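import Mathlib
import Pool.Agent.Helper60.Rel.Boxes
import Pool.Agent.Helper60.Rel.Classes
import Pool.Agent.Helper46.Rel.Coeff

/-!
# The relation attached to a tuple of grid points
-/

namespace Pool.Agent.Helper60.Rel
open Complex MeasureTheory Set Metric
open scoped Real ENNReal

variable {f G lam : ℂ → ℂ}

/-- Grid point on the unit circle. -/
noncomputable def gp (n : ℕ) (i : Fin n) : ℂ := exp (th n i * I)

theorem gp_norm (n : ℕ) (i : Fin n) : ‖gp n i‖ = 1 := by
  unfold gp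
  exact Complex.norm_exp_ofReal_mul_I _

/-- Values of `Re G` at the grid points. -/
noncomputable def uu (G : ℂ → ℂ) (n : ℕ) (i : Fin n) : ℝ :=
  (G (-((1 / (n : ℝ) : ℝ) : ℂ) + th n i * I)).re

theorem norm_exp_sub_one_le {x : ℝ} (hx : 0 ≤ x) (y : ℝ) :
    ‖exp (((-x : ℝ) : ℂ) + y * I) - exp (y * I)‖ ≤ x := by
  have h1 : exp (((-x : ℝ) : ℂ) + y * I) - exp (y * I)
      = (exp ((-x : ℝ) : ℂ) - 1) * exp (y * I) := by
    rw [Complex.exp_add]; ring
  rw [h1, norm_mul, Complex.norm_exp_ofReal_mul_I, mul_one]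
  have h2 : exp ((-x : ℝ) : ℂ) - 1 = ((Real.exp (-x) - 1 : ℝ) : ℂ) := by
    push_cast; rfl
  rw [h2, Complex.norm_real, Real.norm_eq_abs, abs_le]
  have h3 : Real.exp (-x) ≤ 1 := by rw [Real.exp_le_one_iff]; linarith
  have h4 := Real.add_one_le_exp (-x)
  constructor <;> linarith

theorem norm_exp_sub_exp_le (x y : ℝ) : ‖exp (x * I) - exp (y * I)‖ ≤ |x - y| := by
  have h1 : exp (x * I) - exp (y * I) = (exp (I * ((x - y : ℝ) : ℂ)) - 1) * exp (y * I) := by
    rw [sub_mul, ← Complex.exp_add, one_mul]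
    congr 2
    push_cast; ring
  rw [h1, norm_mul, Complex.norm_exp_ofReal_mul_I, mul_one]
  exact Real.norm_exp_I_mul_ofReal_sub_one_le

theorem box_dist {n : ℕ} (hn : 1 ≤ n) {i l : Fin n} {ζ : ℂ} (hζ : ζ ∈ Box n i) :
    ‖exp ζ - exp (((-(1 / (n : ℝ)) : ℝ) : ℂ) + th n l * I)‖ ≤ 10 * kap (gp n) i l := by
  obtain ⟨h1, h2, h3, h4⟩ := hζ
  have h0 : (0 : ℝ) < n := by positivity
  have hb := box_right_neg hn
  have e1 : ‖exp (((-(1 / (n : ℝ)) : ℝ) : ℂ) + th n l * I) - exp (th n l * I)‖ ≤ 1 / n :=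
    norm_exp_sub_one_le (by positivity) _
  have e2 : ‖exp ζ - exp (ζ.im * I)‖ ≤ 1 / n := by
    have := norm_exp_sub_one_le (x := -ζ.re) (by linarith) ζ.im
    rw [neg_neg, re_add_im] at this
    linarith
  have e3 : ‖exp (ζ.im * I) - exp (th n i * I)‖ ≤ 7 / n := by
    refine le_trans (norm_exp_sub_exp_le _ _) ?_
    rw [th_succ hn] at h4
    have hpi := Real.pi_lt_d2
    have : 2 * π / n ≤ 7 / n := by gcongr; linarith
    rw [abs_le]
    constructor
    · have : (0 : ℝ) < 7 / n := by positivity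
      linarith
    · linarith
  have e4 : ‖gp n i - gp n l‖ ≤ kap (gp n) i l := le_max_left _ _
  have e5 : 1 / (n : ℝ) ≤ kap (gp n) i l := kap_ge _ _ _
  have e6 : exp ζ - exp (((-(1 / (n : ℝ)) : ℝ) : ℂ) + th n l * I)
      = (exp ζ - exp (ζ.im * I)) + (exp (ζ.im * I) - exp (th n i * I)) + (gp n i - gp n l)
        - (exp (((-(1 / (n : ℝ)) : ℝ) : ℂ) + th n l * I) - exp (th n l * I)) := by
    unfold gp; ring
  rw [e6]
  refine le_trans (norm_sub_le _ _) ?_
  refine le_trans (add_le_add (le_trans (norm_add_le _ _) (add_le_add (norm_add_le _ _) le_rfl))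
    le_rfl) ?_
  have e7 : 7 / (n : ℝ) = 7 * (1 / n) := by ring
  rw [e7] at e3
  linarith

theorem LogData.deriv_f (h : LogData f G lam) {ζ : ℂ} (hζ : ζ ∈ LH) :
    ‖deriv f (exp ζ)‖ = Real.exp (G ζ).re * ‖deriv G ζ‖ * Real.exp (-ζ.re) := by
  have h1 : HasDerivAt G (deriv G ζ) ζ :=
    (h.Gdiff.differentiableAt (isOpen_LH.mem_nhds hζ)).hasDerivAt
  have h2 : HasDerivAt (fun ζ => exp (G ζ)) (exp (G ζ) * deriv G ζ) ζ := h1.cexp
  have h3 : HasDerivAt f (deriv f (exp ζ)) (exp ζ) :=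
    (h.fdiff.differentiableAt (isOpen_ball.mem_nhds (exp_mem_ball hζ))).hasDerivAt
  have h4 : HasDerivAt (fun ζ => f (exp ζ)) (deriv f (exp ζ) * exp ζ) ζ :=
    h3.comp ζ (Complex.hasDerivAt_exp ζ)
  have h5 : (fun ζ => exp (G ζ)) =ᶠ[nhds ζ] fun ζ => f (exp ζ) := by
    filter_upwards [isOpen_LH.mem_nhds hζ] with ξ hξ
    exact h.Gexp ξ hξ
  have h6 : exp (G ζ) * deriv G ζ = deriv f (exp ζ) * exp ζ :=
    h2.unique (h4.congr_of_eventuallyEq h5)
  have h7 := congrArg norm h6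
  rw [norm_mul, norm_mul, Complex.norm_exp, Complex.norm_exp] at h7
  rw [h7, mul_assoc, ← Real.exp_add, add_neg_cancel, Real.exp_zero, mul_one]

theorem setIntegral_RC_sum {Φ : ℂ → ℝ} (hΦ : ContinuousOn Φ LH) {n : ℕ} (hn : 1 ≤ n) (N : ℕ) :
    ∫ ζ in RC (-(1 / (n : ℝ))) (-(1 / (2 * (n : ℝ)))) 0 (th n N), Φ ζ
      = ∑ i ∈ Finset.range N, ∫ ζ in Box n i, Φ ζ := by
  induction N with
  | zero =>
    rw [th_zero]
    have : RC (-(1 / (n : ℝ))) (-(1 / (2 * (n : ℝ)))) 0 0 = ∅ := by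
      ext ζ
      simp only [mem_empty_iff_false, iff_false]
      rintro ⟨_, _, h3, h4⟩
      linarith
    rw [this]; simp
  | succ N ih =>
    have h0 : 0 ≤ th n N := by
      have := th_mono (n := n) (Nat.zero_le N)
      rwa [th_zero] at this
    have hle : th n N ≤ th n (N + 1) := th_mono (Nat.le_succ N)
    have hU : RC (-(1 / (n : ℝ))) (-(1 / (2 * (n : ℝ)))) 0 (th n (N + 1))
        = RC (-(1 / (n : ℝ))) (-(1 / (2 * (n : ℝ)))) 0 (th n N) ∪ Box n N := by
      ext ζ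
      constructor
      · rintro ⟨h1, h2, h3, h4⟩
        rcases lt_or_ge ζ.im (th n N) with hlt | hge
        · exact Or.inl ⟨h1, h2, h3, hlt⟩
        · exact Or.inr ⟨h1, h2, hge, h4⟩
      · rintro (⟨h1, h2, h3, h4⟩ | ⟨h1, h2, h3, h4⟩)
        · exact ⟨h1, h2, h3, lt_of_lt_of_le h4 hle⟩
        · exact ⟨h1, h2, le_trans h0 h3, h4⟩
    have hd : Disjoint (RC (-(1 / (n : ℝ))) (-(1 / (2 * (n : ℝ)))) 0 (th n N)) (Box n N) := by
      rw [Set.disjoint_left]
      rintro ζ ⟨_, _, _, h4⟩ ⟨_, _, h3, _⟩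
      linarith
    rw [hU, setIntegral_union hd (measurableSet_Box n N)
      (rectC hΦ (box_le hn) (box_right_neg hn) h0).1
      (rectC hΦ (box_le hn) (box_right_neg hn) hle).1, ih, Finset.sum_range_succ]

theorem avg_bound {Φ : ℂ → ℝ} (hΦ : ContinuousOn Φ LH) {n : ℕ} (hn : 1 ≤ n) {X C : ℝ}
    (h : ∀ s : ℝ, 1 / (2 * (n : ℝ)) ≤ s → s ≤ 1 / (n : ℝ) →
      X ≤ C / n * ∫ τ in (0 : ℝ)..(2 * π), Φ (-(s : ℂ) + τ * I)) :
    X ≤ 2 * C * ∫ ζ in RC (-(1 / (n : ℝ))) (-(1 / (2 * (n : ℝ)))) 0 (2 * π), Φ ζ := by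
  have h0 : (0 : ℝ) < n := by positivity
  have hpi := Real.pi_pos
  have hpi2 : (0 : ℝ) ≤ 2 * π := by positivity
  set F : ℂ → ℝ := fun ζ => C / n * Φ ζ - X / (2 * π) with hF
  have hFc : ContinuousOn F LH := by
    apply ContinuousOn.sub
    · exact continuousOn_const.mul hΦ
    · exact continuousOn_const
  have h1 := (rectC hFc (box_le hn) (box_right_neg hn) hpi2).2
  have h2 := (rectC hΦ (box_le hn) (box_right_neg hn) hpi2).1
  have hc : ContinuousOn (fun _ : ℂ => X / (2 * π)) LH := continuousOn_const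
  have h3 := rectC hc (box_le hn) (box_right_neg hn) hpi2
  have h4 : (0 : ℝ) ≤ ∫ x in (-(1 / (n : ℝ)))..(-(1 / (2 * (n : ℝ)))),
      ∫ y in (0 : ℝ)..(2 * π), F (x + y * I) := by
    apply intervalIntegral.integral_nonneg (box_le hn)
    intro x hx
    have h5 := h (-x) (by linarith [hx.2]) (by linarith [hx.1])
    have h6 : ContinuousOn (fun y : ℝ => Φ (x + y * I)) (uIcc 0 (2 * π)) := by
      apply hΦ.comp (by fun_prop)
      intro y _
      show ((x : ℂ) + y * I).re < 0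
      have : ((x : ℂ) + y * I).re = x := by simp
      rw [this]
      exact lt_of_le_of_lt hx.2 (box_right_neg hn)
    have h7 : ∫ y in (0 : ℝ)..(2 * π), F (x + y * I)
        = C / n * (∫ y in (0 : ℝ)..(2 * π), Φ (x + y * I)) - X := by
      simp only [hF]
      rw [intervalIntegral.integral_sub, intervalIntegral.integral_const_mul,
        intervalIntegral.integral_const]
      · rw [sub_zero, smul_eq_mul, mul_div_cancel₀ X (by positivity : (2 * π) ≠ 0)]
      · exact (h6.intervalIntegrable).const_mul _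
      · exact intervalIntegrable_const
    rw [h7]
    push_cast at h5
    rw [neg_neg] at h5
    linarith
  rw [h1] at h4
  have h8 : ∫ ζ in RC (-(1 / (n : ℝ))) (-(1 / (2 * (n : ℝ)))) 0 (2 * π), F ζ
      = C / n * (∫ ζ in RC (-(1 / (n : ℝ))) (-(1 / (2 * (n : ℝ)))) 0 (2 * π), Φ ζ)
        - X * (1 / (2 * n)) := by
    simp only [hF]
    rw [integral_sub (h2.const_mul _) h3.1, integral_const_mul, ← h3.2]
    congr 1
    rw [intervalIntegral.integral_const, intervalIntegral.integral_const]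
    simp only [smul_eq_mul, sub_zero]
    field_simp
    ring
  rw [h8] at h4
  have h9 : X * (1 / (2 * n)) ≤ C / n *
      ∫ ζ in RC (-(1 / (n : ℝ))) (-(1 / (2 * (n : ℝ)))) 0 (2 * π), Φ ζ := by linarith
  have h10 : X * (1 / (2 * n)) * (2 * n) ≤ C / n *
      (∫ ζ in RC (-(1 / (n : ℝ))) (-(1 / (2 * (n : ℝ)))) 0 (2 * π), Φ ζ) * (2 * n) :=
    mul_le_mul_of_nonneg_right h9 (by positivity)
  have e1 : X * (1 / (2 * n)) * (2 * n) = X := by field_simp
  have e2 : C / n *
      (∫ ζ in RC (-(1 / (n : ℝ))) (-(1 / (2 * (n : ℝ)))) 0 (2 * π), Φ ζ) * (2 * n)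
      = 2 * C * ∫ ζ in RC (-(1 / (n : ℝ))) (-(1 / (2 * (n : ℝ)))) 0 (2 * π), Φ ζ := by
    field_simp
  rw [e1, e2] at h10
  exact h10

/-- The relation attached to a tuple of grid points. -/
theorem LogData.relation (h : LogData f G lam) (m k : ℕ) :
    ∃ C : ℝ, 0 ≤ C ∧ ∀ n : ℕ, 1 ≤ n → ∀ J : Fin m → Fin n,
      ∃ c : ℕ → ℂ, c 0 = 1 ∧ (1 / 4 : ℝ) ^ m ≤ ‖c m‖ ∧
        ∀ j : ℕ, j ≤ k →
          ‖∑ i ∈ Finset.range (m + 1), c i * tc f (n + j + i)‖ ≤
            C / n * ∑ i : Fin n, (Real.exp (uu G n i) * om G n i)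
              * ∏ a, kap (gp n) i (J a) := by
  obtain ⟨C₁, hC₁⟩ := Pool.Agent.Helper46.Rel.coeff_bound h.fdiff m k
  refine ⟨2 * |C₁| * (10 ^ m * Real.exp 241), by positivity, ?_⟩
  intro n hn J
  have h0 : (0 : ℝ) < n := by positivity
  have hn1 : (1 : ℝ) ≤ n := by exact_mod_cast hn
  obtain ⟨c, hc0, hcm, hc⟩ := hC₁ n hn
    (fun l => exp (((-(1 / (n : ℝ)) : ℝ) : ℂ) + th n (J l) * I)) (by
      intro l
      rw [Complex.norm_exp]
      congr 1
      simp)
  refine ⟨c, hc0, hcm, ?_⟩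
  intro j hj
  set X := ‖∑ i ∈ Finset.range (m + 1), c i * tc f (n + j + i)‖ with hX
  set Φ : ℂ → ℝ := fun ζ => (∏ l, max ‖exp ζ - exp (((-(1 / (n : ℝ)) : ℝ) : ℂ)
    + th n (J l) * I)‖ (1 / (n : ℝ))) * ‖deriv f (exp ζ)‖ with hΦ
  have hΦ0 : ∀ ζ, 0 ≤ Φ ζ := by
    intro ζ
    rw [hΦ]
    apply mul_nonneg _ (norm_nonneg _)
    apply Finset.prod_nonneg
    intro l _
    exact le_trans (norm_nonneg _) (le_max_left _ _)
  have hΦc : ContinuousOn Φ LH := by
    rw [hΦ]
    apply ContinuousOn.mul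
    · apply continuousOn_finsetProd
      intro l _
      apply Continuous.continuousOn
      fun_prop
    · apply ContinuousOn.norm
      have h1 : ContinuousOn (deriv f) (ball 0 1) := (h.fdiff.deriv isOpen_ball).continuousOn
      exact h1.comp Complex.continuous_exp.continuousOn (fun ζ hζ => exp_mem_ball hζ)
  have h1 : ∀ s : ℝ, 1 / (2 * (n : ℝ)) ≤ s → s ≤ 1 / (n : ℝ) →
      X ≤ |C₁| / n * ∫ τ in (0 : ℝ)..(2 * π), Φ (-(s : ℂ) + τ * I) := by
    intro s hs1 hs2
    refine le_trans (hc j hj s hs1 hs2) ?_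
    apply mul_le_mul_of_nonneg_right
    · gcongr
      exact le_abs_self _
    · apply intervalIntegral.integral_nonneg (by positivity)
      intro τ _
      exact hΦ0 _
  have h2 := avg_bound hΦc hn h1
  have h3 := setIntegral_RC_sum hΦc hn n
  rw [th_self hn] at h3
  rw [h3] at h2
  refine le_trans h2 ?_
  have h4 : ∀ i : Fin n, ∫ ζ in Box n i, Φ ζ
      ≤ (10 ^ m * Real.exp 241) / n * ((Real.exp (uu G n i) * om G n i)
              * ∏ a, kap (gp n) i (J a)) := by
    intro i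
    set P := ∏ a, kap (gp n) i (J a) with hP
    have hP0 : 0 ≤ P := Finset.prod_nonneg (fun a _ => (kap_pos hn _ _ _).le)
    have h5 : ∀ ζ ∈ Box n i, Φ ζ ≤ (10 ^ m * Real.exp 241 * Real.exp (uu G n i) * P)
        * ‖deriv G ζ‖ := by
      intro ζ hζ
      have hζL : ζ ∈ LH := Box_subset_LH hn i hζ
      have h6 : (∏ l, max ‖exp ζ - exp (((-(1 / (n : ℝ)) : ℝ) : ℂ)
          + th n (J l) * I)‖ (1 / (n : ℝ))) ≤ 10 ^ m * P := by
        calc (∏ l, max ‖exp ζ - exp (((-(1 / (n : ℝ)) : ℝ) : ℂ)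
          + th n (J l) * I)‖ (1 / (n : ℝ))) ≤ ∏ l, 10 * kap (gp n) i (J l) := by
              apply Finset.prod_le_prod
              · intro l _
                exact le_trans (norm_nonneg _) (le_max_left _ _)
              · intro l _
                apply max_le
                · exact box_dist hn hζ
                · have := kap_ge (gp n) i (J l)
                  have := kap_pos hn (gp n) i (J l)
                  linarith
          _ = 10 ^ m * P := by
              rw [Finset.prod_mul_distrib, Finset.prod_const, Finset.card_univ,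
                Fintype.card_fin]
      have h7 : ‖deriv f (exp ζ)‖ ≤ Real.exp 241 * Real.exp (uu G n i) * ‖deriv G ζ‖ := by
        rw [h.deriv_f hζL]
        have h8 := h.box_re hn hζ
        rw [abs_le] at h8
        have h9 : -ζ.re ≤ 1 := by
          have := hζ.1
          have : 1 / (n : ℝ) ≤ 1 := by rw [div_le_one h0]; exact hn1
          linarith
        calc Real.exp (G ζ).re * ‖deriv G ζ‖ * Real.exp (-ζ.re)
            = Real.exp ((G ζ).re + -ζ.re) * ‖deriv G ζ‖ := by rw [Real.exp_add]; ring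
          _ ≤ Real.exp (241 + uu G n i) * ‖deriv G ζ‖ := by
              apply mul_le_mul_of_nonneg_right _ (norm_nonneg _)
              apply Real.exp_le_exp.2
              unfold uu
              linarith [h8.2]
          _ = _ := by rw [Real.exp_add]
      calc Φ ζ ≤ (10 ^ m * P) * (Real.exp 241 * Real.exp (uu G n i) * ‖deriv G ζ‖) := by
            rw [hΦ]
            apply mul_le_mul h6 h7 (norm_nonneg _) (by positivity)
        _ = _ := by ring
    have hi1 : IntegrableOn Φ (Box n i) :=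
      (rectC hΦc (box_le hn) (box_right_neg hn) (th_mono (Nat.le_succ (i : ℕ)))).1
    have hi2 : IntegrableOn (fun ζ => ‖deriv G ζ‖) (Box n i) :=
      (rectC h.contW (box_le hn) (box_right_neg hn) (th_mono (Nat.le_succ (i : ℕ)))).1
    calc ∫ ζ in Box n i, Φ ζ
        ≤ ∫ ζ in Box n i, (10 ^ m * Real.exp 241 * Real.exp (uu G n i) * P) * ‖deriv G ζ‖ :=
          setIntegral_mono_on hi1 (hi2.const_mul _) (measurableSet_Box n i) h5
      _ = (10 ^ m * Real.exp 241 * Real.exp (uu G n i) * P) * ∫ ζ in Box n i, ‖deriv G ζ‖ := by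
          rw [integral_const_mul]
      _ = _ := by
          unfold om
          field_simp
  have h5 : ∑ i ∈ Finset.range n, ∫ ζ in Box n i, Φ ζ
      ≤ (10 ^ m * Real.exp 241) / n * ∑ i : Fin n, ((Real.exp (uu G n i) * om G n i)
              * ∏ a, kap (gp n) i (J a)) := by
    rw [Finset.sum_range, Finset.mul_sum]
    exact Finset.sum_le_sum (fun i _ => h4 i)
  calc 2 * |C₁| * ∑ i ∈ Finset.range n, ∫ ζ in Box n i, Φ ζ
      ≤ 2 * |C₁| * ((10 ^ m * Real.exp 241) / n * ∑ i : Fin n,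
        ((Real.exp (uu G n i) * om G n i) * ∏ a, kap (gp n) i (J a))) := by gcongr
    _ = _ := by ring

end Pool.Agent.Helper60.Rel
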