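import Mathlib
import Pool.Agent.Helper60.Rel.Defs
import Pool.Agent.Helper60.Rel.Relation
import Pool.Agent.Helper60.Rel.Goluzin
import Pool.Agent.Helper60.Rel.Omega
import Pool.Agent.Helper60.Rel.Core

/-!
# Short relations among the coefficients of a univalent function
-/

namespace Pool.Agent.Helper60.Rel
open Finset

/-- The exponent. -/
noncomputable def al (m : ℕ) : ℝ := -(5093 / 10000 * (1 - (3673 / 10000 : ℝ) ^ (m - 1)))

theorem gap {m : ℕ} (hm : 2 ≤ m) :
    (947 / 1930 : ℝ) + (1 - 947 / 1930) * (((2 - 947 / 1930) / (2 + 947 / 1930)) ^ 2) ^ (m - 1)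
      < 1 + al m := by
  set x : ℝ := (((2 - 947 / 1930) / (2 + 947 / 1930)) ^ 2) ^ (m - 1) with hx
  set y : ℝ := (3673 / 10000 : ℝ) ^ (m - 1) with hy
  have h1 : x ≤ y := by
    rw [hx, hy]
    apply pow_le_pow_left₀ (by norm_num)
    norm_num
  have h2 : y ≤ 3673 / 10000 := by
    rw [hy]
    calc (3673 / 10000 : ℝ) ^ (m - 1) ≤ (3673 / 10000 : ℝ) ^ 1 :=
          pow_le_pow_of_le_one (by norm_num) (by norm_num) (by omega)
      _ = _ := pow_one _
  unfold al
  rw [← hy]
  nlinarith

theorem log_K1 {n m N : ℕ} (hn : 1 ≤ n) {c : ℝ} (hc : 0 < c)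
    (hN : (N : ℝ) + 1 ≤ c * (1 + Real.log n)) :
    Real.log (K1 n m N) ≤ Real.log (2 * (m + 1)) + (m + 1) * Real.log c
      + (m + 1) * (m + 1) * Real.log 2 + (m + 1) * Real.log 10000
      + ((m + 1) + (m + 1) * (m + 1)) * Real.log (1 + Real.log n) := by
  have h0 : (0 : ℝ) < n := by positivity
  have hn1 : (1 : ℝ) ≤ n := by exact_mod_cast hn
  have hlog0 : 0 ≤ Real.log n := Real.log_nonneg hn1
  have hT0 : 0 < 1 + Real.log n := by linarith
  have hH : (Nat.log 2 (2 * n) + 1 : ℝ) ≤ 2 * (1 + Real.log n) := by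
    have hpowH : (2 : ℝ) ^ (Nat.log 2 (2 * n)) ≤ 2 * n := by
      have : 2 ^ (Nat.log 2 (2 * n)) ≤ 2 * n := Nat.pow_log_le_self 2 (by omega)
      exact_mod_cast this
    have h1 := Real.log_le_log (by positivity) hpowH
    rw [Real.log_pow, Real.log_mul (by norm_num) h0.ne'] at h1
    have h2 := Real.log_two_gt_d9
    have h3 : (0 : ℝ) ≤ (Nat.log 2 (2 * n) : ℝ) := by positivity
    have hlog2 : 0 < Real.log 2 := by linarith
    have h4 : ((Nat.log 2 (2 * n) : ℝ) - 1) * Real.log 2 ≤ Real.log n := by linarith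
    have h5 : Real.log n ≤ (2 * Real.log n) * Real.log 2 := by nlinarith
    have h6 : ((Nat.log 2 (2 * n) : ℝ) - 1) * Real.log 2 ≤ (2 * Real.log n) * Real.log 2 :=
      le_trans h4 h5
    have h7 := le_of_mul_le_mul_right h6 hlog2
    linarith
  have l1 : Real.log ((N : ℝ) + 1) ≤ Real.log c + Real.log (1 + Real.log n) := by
    rw [← Real.log_mul hc.ne' hT0.ne']
    exact Real.log_le_log (by positivity) hN
  have l2 : Real.log (Nat.log 2 (2 * n) + 1 : ℝ) ≤ Real.log 2 + Real.log (1 + Real.log n) := by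
    rw [← Real.log_mul (by norm_num) hT0.ne']
    exact Real.log_le_log (by positivity) hH
  unfold K1
  rw [Real.log_mul (by positivity) (by positivity), Real.log_mul (by positivity) (by positivity),
    Real.log_mul (by positivity) (by positivity), Real.log_mul (by positivity) (by positivity),
    Real.log_pow, Real.log_pow, Real.log_pow, Real.log_pow]
  push_cast
  have hm0 : (0 : ℝ) ≤ (m : ℝ) + 1 := by positivity
  have a1 := mul_le_mul_of_nonneg_left l1 hm0
  have a2 := mul_le_mul_of_nonneg_left l2 (mul_nonneg hm0 hm0)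
  nlinarith

theorem log_absorb {b L : ℝ} (hb : 0 < b) (hL : 0 ≤ L) :
    Real.log (1 + L) ≤ b * (1 + L) - 1 - Real.log b := by
  have h1 : 0 < 1 + L := by linarith
  have h2 := Real.log_le_sub_one_of_pos (mul_pos hb h1)
  rw [Real.log_mul hb.ne' h1.ne'] at h2
  linarith

theorem main {m : ℕ} (hm : 2 ≤ m) : Admissible m (al m) := by
  classical
  intro f hf k _
  obtain ⟨G, lam, h⟩ := exists_logData hf
  obtain ⟨B, hB0, hB⟩ := h.lower
  obtain ⟨Cω, hCω0, hCω⟩ := h.omega_bound
  obtain ⟨C, hC0, hC⟩ := goluzin h.bnd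
  obtain ⟨Cr, hCr0, hCr⟩ := h.relation m k
  set δ : ℝ := 947 / 1930 with hδ
  set x : ℝ := (((2 - δ) / (2 + δ)) ^ 2) ^ (m - 1) with hx
  have hgap : δ + (1 - δ) * x < 1 + al m := gap hm
  set ε : ℝ := 1 + al m - (δ + (1 - δ) * x) with hε
  have hε0 : 0 < ε := by rw [hε]; linarith
  set P : ℝ := ((m + 1) + (m + 1) * (m + 1)) + 1 with hP
  have hP0 : 0 < P := by rw [hP]; positivity
  set b : ℝ := ε / P with hb
  have hb0 : 0 < b := by rw [hb]; positivity
  set c : ℝ := C + B + 4 with hc
  have hc0 : 0 < c := by rw [hc]; positivity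
  set A : ℝ := Real.log (2 * (m + 1)) + (m + 1) * Real.log c
      + (m + 1) * (m + 1) * Real.log 2 + (m + 1) * Real.log 10000
      + 1 + m * Real.log 2 + Real.log (Cω + 1) + δ * Real.log 2 + (1 - δ) * x * Real.log 2
      + ((m + 1) + (C + 2)) + ε - P - P * Real.log b with hA
  have key : ∀ n : ℕ, 1 ≤ n → ∀ E : ℝ, 0 < E →
      (∀ J : Fin m → Fin n, E ≤ ∑ i, (Real.exp (uu G n i) * om G n i)
        * ∏ a, kap (gp n) i (J a)) → E ≤ Real.exp A * (n : ℝ) ^ (1 + al m) := by
    intro n hn E hE hS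
    have h0 : (0 : ℝ) < n := by positivity
    have hn1 : (1 : ℝ) ≤ n := by exact_mod_cast hn
    have hlog0 : 0 ≤ Real.log n := Real.log_nonneg hn1
    have hσ0 : (0 : ℝ) < 1 / n := by positivity
    have hσ1 : (1 : ℝ) / n ≤ 1 := by rw [div_le_one h0]; exact hn1
    have hT0 : 0 < 1 + Real.log n := by linarith
    have hup : ∀ i, uu G n i ≤ 2 * Real.log n + C := by
      intro i
      have h1 := hC Unit (1 / (n : ℝ)) hσ0 hσ1 (fun _ => th n i) (fun _ => 1)
        (fun _ => by norm_num)
      simp only [univ_unique, sum_singleton, one_mul, min_self, sub_self, norm_zero, mul_one,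
        one_pow] at h1
      rw [max_eq_right hσ0.le, one_div, Real.log_inv, neg_neg] at h1
      unfold uu
      rw [one_div]
      exact h1
    set N : ℕ := ⌈2 * Real.log n + C + B⌉₊ with hN
    have hu : ∀ i, 0 ≤ uu G n i + B := by
      intro i
      have := hB (-((1 / (n : ℝ) : ℝ) : ℂ) + th n i * Complex.I) (by
        show (-((1 / (n : ℝ) : ℝ) : ℂ) + th n i * Complex.I).re < 0
        have : (-((1 / (n : ℝ) : ℝ) : ℂ) + th n i * Complex.I).re = -(1 / (n : ℝ)) := by
          simp
        rw [this]; linarith) (by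
        have : (-((1 / (n : ℝ) : ℝ) : ℂ) + th n i * Complex.I).re = -(1 / (n : ℝ)) := by
          simp
        rw [this]; linarith)
      unfold uu
      linarith
    have hu2 : ∀ i, uu G n i + B ≤ N := by
      intro i
      have h1 := hup i
      have h2 := Nat.le_ceil (2 * Real.log n + C + B)
      rw [← hN] at h2
      linarith
    have hNb : (N : ℝ) + 1 ≤ c * (1 + Real.log n) := by
      have h2 := Nat.ceil_lt_add_one (a := 2 * Real.log n + C + B) (by positivity)
      rw [← hN] at h2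
      rw [hc]
      nlinarith [mul_nonneg hC0 hlog0, mul_nonneg hB0 hlog0]
    have hcore := core (m := m) hn (by omega) (gp_norm n) (u := uu G n) (ω := fun i => om G n i)
      (fun i => om_nonneg G n i) (B := B) (N := N) hu hu2 hE hS (Cω := Cω + 1) (δ := δ) (C := C)
      (by positivity) (by rw [hδ]; norm_num) (by rw [hδ]; norm_num)
      (by
        intro A j ρ k hρ hA hlev
        refine le_trans (hCω n hn A j ρ k hρ hA hlev) ?_
        have hρ0 : 0 < ρ := lt_of_lt_of_le hσ0 hρ
        have : 0 ≤ (n * ρ) ^ δ := by positivity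
        rw [hδ] at this ⊢
        linarith)
      (by
        intro γ hγ
        exact hC (Fin n) (1 / (n : ℝ)) hσ0 hσ1 (fun i => th n i) γ hγ)
    have hK := log_K1 (m := m) hn hc0 hNb
    have habs := log_absorb hb0 hlog0
    have habs2 : P * Real.log (1 + Real.log n) ≤ P * (b * (1 + Real.log n) - 1 - Real.log b) :=
      mul_le_mul_of_nonneg_left habs hP0.le
    have hPb : P * (b * (1 + Real.log n) - 1 - Real.log b)
        = ε * (1 + Real.log n) - P - P * Real.log b := by
      rw [hb]; field_simp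
    rw [hPb] at habs2
    have hl2 : Real.log (2 * n) = Real.log 2 + Real.log n :=
      Real.log_mul (by norm_num) h0.ne'
    rw [hl2, ← hx] at hcore
    have hPL : P * Real.log (1 + Real.log n)
        = ((m + 1) + (m + 1) * (m + 1)) * Real.log (1 + Real.log n)
          + Real.log (1 + Real.log n) := by rw [hP]; ring
    have hfin : Real.log E ≤ A + (1 + al m) * Real.log n := by
      have e1 : (1 + al m) = δ + (1 - δ) * x + ε := by rw [hε]; ring
      rw [e1, hA]
      linarith
    calc E = Real.exp (Real.log E) := (Real.exp_log hE).symm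
      _ ≤ Real.exp (A + (1 + al m) * Real.log n) := Real.exp_le_exp.2 hfin
      _ = Real.exp A * (n : ℝ) ^ (1 + al m) := by
          rw [Real.exp_add, Real.rpow_def_of_pos h0, mul_comm (Real.log n)]
  refine ⟨Cr * Real.exp A, ?_⟩
  intro n hn
  have h0 : (0 : ℝ) < n := by positivity
  have : Nonempty (Fin n) := ⟨⟨0, by omega⟩⟩
  obtain ⟨J, hJ⟩ := Finite.exists_min (fun J : Fin m → Fin n =>
    ∑ i, (Real.exp (uu G n i) * om G n i) * ∏ a, kap (gp n) i (J a))
  obtain ⟨c', hc0', hcm, hcj⟩ := hCr n hn J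
  refine ⟨c', hc0', hcm, ?_⟩
  intro j hj
  refine le_trans (hcj j hj) ?_
  set E := ∑ i, (Real.exp (uu G n i) * om G n i) * ∏ a, kap (gp n) i (J a) with hEd
  have hEb : E ≤ Real.exp A * (n : ℝ) ^ (1 + al m) := by
    rcases le_or_gt E 0 with hle | hgt
    · exact le_trans hle (by positivity)
    · exact key n hn E hgt hJ
  calc Cr / n * E ≤ Cr / n * (Real.exp A * (n : ℝ) ^ (1 + al m)) :=
        mul_le_mul_of_nonneg_left hEb (by positivity)
    _ = Cr * Real.exp A * (n : ℝ) ^ (al m) := by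
        rw [Real.rpow_add h0, Real.rpow_one]
        field_simp

theorem al_lt {m : ℕ} (hm : 5 ≤ m) : al m < -(1 / 2) := by
  unfold al
  have h1 : (3673 / 10000 : ℝ) ^ (m - 1) ≤ (3673 / 10000 : ℝ) ^ 4 :=
    pow_le_pow_of_le_one (by norm_num) (by norm_num) (by omega)
  have h2 : (3673 / 10000 : ℝ) ^ 4 < 1 - 5000 / 5093 := by norm_num
  linarith

end Pool.Agent.Helper60.Rel
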